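import Pool.Agent.H21.MT.Cond

/-!
[H21 BV CD]  From all characters to primitive characters, moduli up to `x^(1/2 - 2η)`.

Proof.  As `Pool/Agent/H21/MT/Cond.lean`, but with a better bound for the change of level, because
`q` is now as large as `x^(1/2)`.
* `psi_change2`: `Psi (changeLevel χ)` and `Psi χ` differ by the terms with `gcd(n,q) > 1`; they are
  nonzero only for prime powers `n = p^i`, `p ∣ q`, `i ≤ log_2 Y`, `Y = ⌊x^3⌋₊`; the number of such `n ≤ Y`
  is at most `(number of prime factors of q) * (Nat.log 2 Y + 1) ≤ (2 log q) (6 log x + 1)`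
  (`2^{ω(q)} ≤ q` : `phi_two_pow` in `Pool/Agent/H21/MT/Phi.lean`; `Nat.log 2 Y ≤ 2 log Y`), each term is
  `≤ (3 log x)^{J+1}` (`wt_le_cond`).
* `sum_char_le2`: for `q ≤ Q`, `χ ≠ 1` mod `q` is induced by a primitive character of modulus
  `r = conductor`, `2 ≤ r ∣ q`, and `χ ↦ (r, primitive character)` is injective into
  `(PC Q).filter (md ∣ q)` (compare `sum_char_le`); the error terms are summed over the `χ`, at most
  `φ(q)` of them.
* `cond_fin2`: divide by `φ(q)`, sum over `q ≤ Q`, exchange, `sum_mult_le` (as in `cond_fin`).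
* `cond2`: `Q = ⌊x^{1/2-2η}⌋₊`; `sum_inv_phi`: `∑_{s ≤ Q} 1/φ(s) ≤ (1 + 2 log Q)^2 ≤ (1 + (1-4η) log x)^2
  ≤ (log x)^2` for large `x`; the error is `≤ Q (log x)^{J+4} C ≤ x^{1-η}`.
-/

namespace Pool.Agent.H21.BV

open Finset Filter Pool.Agent.H21.MT

/-- The prime powers which are not coprime to `q` -/
theorem card_bad2 (q Y : ℕ) (hq : 0 < q) :
    ((Icc 1 Y).filter (fun n => ¬ n.Coprime q ∧ IsPrimePow n)).card ≤
      q.primeFactors.card * (Nat.log 2 Y + 1) := by
  classical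
  have hsub : (Icc 1 Y).filter (fun n => ¬ n.Coprime q ∧ IsPrimePow n) ⊆
      (q.primeFactors ×ˢ range (Nat.log 2 Y + 1)).image (fun pi => pi.1 ^ pi.2) := by
    intro n hn
    rw [mem_filter, mem_Icc] at hn
    obtain ⟨⟨h1, h2⟩, h3, h4⟩ := hn
    rw [isPrimePow_nat_iff] at h4
    obtain ⟨p, k, hp, hk, rfl⟩ := h4
    rw [mem_image]
    refine ⟨(p, k), ?_, rfl⟩
    rw [mem_product, Nat.mem_primeFactors, mem_range]
    refine ⟨⟨hp, ?_, hq.ne'⟩, ?_⟩
    · by_contra hnd
      exact h3 (((Nat.Prime.coprime_iff_not_dvd hp).2 hnd).pow_left k)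
    · have h5 : 2 ^ k ≤ Y := (Nat.pow_le_pow_left hp.two_le k).trans h2
      have := Nat.le_log_of_pow_le (by norm_num) h5
      show k < Nat.log 2 Y + 1
      omega
  refine (card_le_card hsub).trans (card_image_le.trans ?_)
  rw [card_product, card_range]

theorem omega_le (q : ℕ) (hq : 1 ≤ q) : (q.primeFactors.card : ℝ) ≤ 2 * Real.log q := by
  have hq0 : (0 : ℝ) < q := by exact_mod_cast hq
  have h3 : (q.primeFactors.card : ℝ) * Real.log 2 ≤ Real.log q := by
    have h4 : ((2 : ℝ) ^ q.primeFactors.card) ≤ q := by exact_mod_cast phi_two_pow q hq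
    have h5 := Real.log_le_log (by positivity) h4
    rwa [Real.log_pow] at h5
  have h4 := Real.log_two_gt_d9
  have h5 : (0 : ℝ) ≤ (q.primeFactors.card : ℝ) := Nat.cast_nonneg _
  nlinarith

theorem psi_change2 (J : ℕ) (x : ℝ) (hx : 1 ≤ x) {r q : ℕ} [NeZero q] (h : r ∣ q)
    (χ : DirichletCharacter ℂ r) :
    ‖Psi J x (DirichletCharacter.changeLevel h χ)‖ ≤ ‖Psi J x χ‖ +
      (2 * Real.log q) * (6 * Real.log x + 1) * (3 * Real.log x) ^ (J + 1) := by
  classical
  have hq : 0 < q := Nat.pos_of_ne_zero (NeZero.ne q)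
  set Y := ⌊x ^ 3⌋₊ with hY
  have key : Psi J x (DirichletCharacter.changeLevel h χ) = Psi J x χ -
      ∑ n ∈ (Icc 1 Y).filter (fun n => ¬ n.Coprime q ∧ IsPrimePow n),
        ((wt J x n : ℝ) : ℂ) * χ (n : ZMod r) := by
    unfold Psi
    rw [sum_filter, ← sum_sub_distrib]
    refine sum_congr rfl fun n _ => ?_
    by_cases hc : n.Coprime q
    · rw [if_neg (by tauto), sub_zero]
      have h1 := DirichletCharacter.changeLevel_eq_cast_of_dvd χ h (ZMod.unitOfCoprime n hc)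
      rw [ZMod.coe_unitOfCoprime, ZMod.cast_natCast h] at h1
      rw [h1]
    · have hz : (DirichletCharacter.changeLevel h χ) (n : ZMod q) = 0 := by
        apply MulChar.map_nonunit
        rw [ZMod.isUnit_iff_coprime]
        exact hc
      rw [hz, mul_zero]
      by_cases hp : IsPrimePow n
      · rw [if_pos ⟨hc, hp⟩, sub_self]
      · rw [if_neg (by tauto), sub_zero]
        have : wt J x n = 0 := by
          unfold wt
          rw [ArithmeticFunction.vonMangoldt_eq_zero_iff.2 hp]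
          ring
        rw [this]
        simp
  rw [key]
  refine (norm_sub_le _ _).trans ?_
  gcongr
  refine (norm_sum_le _ _).trans ?_
  have hB : ∀ n ∈ (Icc 1 Y).filter (fun n => ¬ n.Coprime q ∧ IsPrimePow n),
      ‖((wt J x n : ℝ) : ℂ) * χ (n : ZMod r)‖ ≤ (3 * Real.log x) ^ (J + 1) := by
    intro n hn
    rw [norm_mul, Complex.norm_real, Real.norm_of_nonneg (wt_nonneg_cond J x n)]
    have h1 := wt_le_cond J x hx n (mem_of_mem_filter n hn)
    have h2 : ‖χ (n : ZMod r)‖ ≤ 1 := DirichletCharacter.norm_le_one χ _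
    calc wt J x n * ‖χ (n : ZMod r)‖ ≤ (3 * Real.log x) ^ (J + 1) * 1 :=
          mul_le_mul h1 h2 (norm_nonneg _) ((wt_nonneg_cond J x n).trans h1)
      _ = _ := mul_one _
  refine (sum_le_card_nsmul _ _ _ hB).trans ?_
  rw [nsmul_eq_mul]
  have hL : 0 ≤ Real.log x := Real.log_nonneg hx
  have hlq : 0 ≤ Real.log (q : ℝ) := Real.log_natCast_nonneg q
  have hcard : (((Icc 1 Y).filter (fun n => ¬ n.Coprime q ∧ IsPrimePow n)).card : ℝ) ≤
      (2 * Real.log q) * (6 * Real.log x + 1) := by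
    have h1 : (((Icc 1 Y).filter (fun n => ¬ n.Coprime q ∧ IsPrimePow n)).card : ℝ) ≤
        (q.primeFactors.card : ℝ) * ((Nat.log 2 Y : ℕ) + 1 : ℝ) := by
      exact_mod_cast card_bad2 q Y hq
    refine h1.trans ?_
    have hY1 : 1 ≤ Y := by
      rw [hY]
      apply Nat.le_floor
      push_cast
      exact one_le_pow₀ hx
    have h2 : ((Nat.log 2 Y : ℕ) : ℝ) ≤ Real.logb 2 Y := by
      have := Real.natLog_le_logb Y 2
      simpa using this
    have hYx : (Y : ℝ) ≤ x ^ 3 := Nat.floor_le (by positivity)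
    have h3 : Real.log Y ≤ 3 * Real.log x := by
      have := Real.log_le_log (by exact_mod_cast hY1) hYx
      rw [Real.log_pow] at this
      push_cast at this
      exact this
    have h5 : Real.logb 2 Y ≤ 6 * Real.log x := by
      rw [Real.logb, div_le_iff₀ (Real.log_pos (by norm_num))]
      have h4 := Real.log_two_gt_d9
      nlinarith
    have h6 := omega_le q hq
    exact mul_le_mul h6 (by linarith) (by positivity) (by positivity)
  gcongr

/-- the nonprincipal characters mod `q` come from the primitive ones -/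
theorem char_from (Q q : ℕ) [NeZero q] (hqQ : q ≤ Q) (χ : DirichletCharacter ℂ q) (hχ : χ ≠ 1) :
    ∃ c : Ch Q, c ∈ (PC Q) ∧ ∃ h : c.md ∣ q, DirichletCharacter.changeLevel h c.2 = χ := by
  classical
  have hq : 0 < q := Nat.pos_of_ne_zero (NeZero.ne q)
  have key : ∀ r (hr : r ∣ q) (χ' : DirichletCharacter ℂ r), χ'.IsPrimitive → 2 ≤ r →
      DirichletCharacter.changeLevel hr χ' = χ →
      ∃ c : Ch Q, c ∈ (PC Q) ∧ ∃ h : c.md ∣ q, DirichletCharacter.changeLevel h c.2 = χ := by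
    intro r hr χ' hp h2 hch
    obtain ⟨m, rfl⟩ : ∃ m, r = m + 1 := ⟨r - 1, by omega⟩
    have hmQ : m < Q := by
      have := Nat.le_of_dvd hq hr
      omega
    refine ⟨⟨⟨m, hmQ⟩, χ'⟩, ?_, hr, hch⟩
    rw [PC, mem_filter]
    exact ⟨mem_univ _, hp, h2⟩
  refine key χ.conductor χ.conductor_dvd_level χ.primitiveCharacter
    χ.primitiveCharacter_isPrimitive ?_ χ.changeLevel_primitiveCharacter
  have h0 : χ.conductor ≠ 0 := χ.conductor_ne_zero
  have h1 : χ.conductor ≠ 1 := fun h => hχ ((χ.eq_one_iff_conductor_eq_one).2 h)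
  omega

theorem sum_char_le2 (Q q : ℕ) [NeZero q] (hqQ : q ≤ Q) (J : ℕ) (x : ℝ) (hx : 1 ≤ x)
    (S : Finset (DirichletCharacter ℂ q)) (hS : ∀ χ ∈ S, χ ≠ 1) :
    ∑ χ ∈ S, ‖Psi J x χ‖ ≤
      ∑ c ∈ (PC Q).filter (fun c => c.md ∣ q), ‖Psi J x c.2‖ +
        S.card * ((2 * Real.log q) * (6 * Real.log x + 1) * (3 * Real.log x) ^ (J + 1)) := by
  classical
  have hex : ∀ χ : S, ∃ c : Ch Q, c ∈ (PC Q) ∧ ∃ h : c.md ∣ q,
      DirichletCharacter.changeLevel h c.2 = (χ : DirichletCharacter ℂ q) :=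
    fun χ => char_from Q q hqQ χ.1 (hS χ.1 χ.2)
  choose g hg1 hg2 hg3 using hex
  have hinj : Function.Injective g := by
    intro χ χ' h
    have key : ∀ c c' : Ch Q, c = c' → ∀ (h : c.md ∣ q) (h' : c'.md ∣ q),
        DirichletCharacter.changeLevel h c.2 = DirichletCharacter.changeLevel h' c'.2 := by
      intro c c' hc h h'
      subst hc
      rfl
    have h2 := key _ _ h (hg2 χ) (hg2 χ')
    rw [hg3, hg3] at h2
    exact Subtype.ext h2
  obtain ⟨B, hB⟩ : ∃ B, B = (2 * Real.log q) * (6 * Real.log x + 1) *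
    (3 * Real.log x) ^ (J + 1) := ⟨_, rfl⟩
  rw [← hB]
  have h1 : ∀ χ : S, ‖Psi J x (χ : DirichletCharacter ℂ q)‖ ≤ ‖Psi J x (g χ).2‖ + B := by
    intro χ
    have h2 := psi_change2 J x hx (hg2 χ) (g χ).2
    rw [hg3, ← hB] at h2
    exact h2
  rw [← Finset.sum_coe_sort S (fun χ => ‖Psi J x χ‖)]
  refine (Finset.sum_le_sum fun χ _ => h1 χ).trans ?_
  rw [Finset.sum_add_distrib, Finset.sum_const, Finset.card_univ, Fintype.card_coe, nsmul_eq_mul]
  apply add_le_add _ le_rfl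
  calc ∑ χ : S, ‖Psi J x (g χ).2‖ = ∑ c ∈ (univ : Finset S).image g, ‖Psi J x c.2‖ := by
        rw [Finset.sum_image (fun a _ b _ hab => hinj hab)]
    _ ≤ _ := by
        refine sum_le_sum_of_subset_of_nonneg ?_ fun _ _ _ => norm_nonneg _
        intro c hc
        rw [mem_image] at hc
        obtain ⟨χ, -, rfl⟩ := hc
        rw [mem_filter]
        exact ⟨hg1 χ, hg2 χ⟩

theorem cond_fin2 (J Q : ℕ) (x : ℝ) (hx : 1 ≤ x) :
    ∑ q ∈ Icc 1 Q, Eq1 J x q ≤
      (∑ s ∈ Icc 1 Q, (1 : ℝ) / s.totient) *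
        ∑ c ∈ PC Q, (1 / (c.md.totient : ℝ)) * ‖Psi J x c.2‖ +
      Q * ((2 * Real.log Q) * (6 * Real.log x + 1) * (3 * Real.log x) ^ (J + 1)) := by
  classical
  have hL : 0 ≤ Real.log x := Real.log_nonneg hx
  obtain ⟨E, hE⟩ : ∃ E : ℝ, E = (2 * Real.log Q) * (6 * Real.log x + 1) *
    (3 * Real.log x) ^ (J + 1) := ⟨_, rfl⟩
  rw [← hE]
  have h1 : ∀ q ∈ Icc 1 Q, Eq1 J x q ≤
      ∑ c ∈ PC Q, (if c.md ∣ q then (1 / (q.totient : ℝ)) * ‖Psi J x c.2‖ else 0) + E := by
    intro q hq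
    rw [mem_Icc] at hq
    have hq0 : q ≠ 0 := by omega
    have : NeZero q := ⟨hq0⟩
    have hS := sum_char_le2 Q q hq.2 J x hx
      ((univ : Finset (DirichletCharacter ℂ q)).filter (fun χ => χ ≠ 1))
      (fun χ hχ => (mem_filter.1 hχ).2)
    have hEq : Eq1 J x q = (1 / (q.totient : ℝ)) *
        ∑ χ ∈ (univ : Finset (DirichletCharacter ℂ q)).filter (fun χ => χ ≠ 1), ‖Psi J x χ‖ := by
      unfold Eq1
      rw [dif_neg hq0]
    have hphi : 0 < q.totient := Nat.totient_pos.2 hq.1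
    have hphi1 : (1 : ℝ) ≤ q.totient := by exact_mod_cast hphi
    rw [hEq]
    refine (mul_le_mul_of_nonneg_left hS (by positivity)).trans ?_
    rw [mul_add, sum_filter, mul_sum]
    have h3 : ∀ c ∈ PC Q, (1 / (q.totient : ℝ)) * (if c.md ∣ q then ‖Psi J x c.2‖ else 0) =
        if c.md ∣ q then (1 / (q.totient : ℝ)) * ‖Psi J x c.2‖ else 0 := by
      intro c _
      split_ifs <;> simp
    rw [sum_congr rfl h3]
    apply add_le_add le_rfl
    have hc : ((((univ : Finset (DirichletCharacter ℂ q)).filter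
        (fun χ => χ ≠ 1)).card : ℕ) : ℝ) ≤ (q.totient : ℝ) := by
      have h5 : Fintype.card (DirichletCharacter ℂ q) = q.totient := by
        rw [← Nat.card_eq_fintype_card]
        exact DirichletCharacter.card_eq_totient_of_hasEnoughRootsOfUnity ℂ q
      have h6 : ((univ : Finset (DirichletCharacter ℂ q)).filter (fun χ => χ ≠ 1)).card ≤
          q.totient := by
        rw [← h5]
        exact (card_filter_le _ _).trans (le_of_eq rfl)
      exact_mod_cast h6
    have hlq : 0 ≤ Real.log (q : ℝ) := Real.log_natCast_nonneg q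
    have hlQ : Real.log (q : ℝ) ≤ Real.log Q :=
      Real.log_le_log (by exact_mod_cast hq.1) (by exact_mod_cast hq.2)
    calc (1 / (q.totient : ℝ)) * ((((univ : Finset (DirichletCharacter ℂ q)).filter
          (fun χ => χ ≠ 1)).card : ℝ) *
          ((2 * Real.log q) * (6 * Real.log x + 1) * (3 * Real.log x) ^ (J + 1)))
        ≤ (1 / (q.totient : ℝ)) * ((q.totient : ℝ) *
          ((2 * Real.log Q) * (6 * Real.log x + 1) * (3 * Real.log x) ^ (J + 1))) := by
          gcongr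
      _ = E := by
          rw [hE]
          field_simp
  refine (sum_le_sum h1).trans ?_
  rw [sum_add_distrib, sum_const, nsmul_eq_mul, Nat.card_Icc, Nat.add_sub_cancel, sum_comm]
  gcongr
  rw [mul_sum]
  refine sum_le_sum fun c hc => ?_
  have hmd : 0 < c.md := Nat.succ_pos _
  have h6 := sum_mult_le Q c.md hmd
  rw [← sum_filter, ← sum_mul]
  calc (∑ i ∈ (Icc 1 Q).filter (fun q => c.md ∣ q), (1 : ℝ) / (i.totient : ℝ)) * ‖Psi J x c.2‖
      ≤ ((1 / (c.md.totient : ℝ)) * ∑ s ∈ Icc 1 Q, (1 : ℝ) / s.totient) * ‖Psi J x c.2‖ := by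
        gcongr
    _ = _ := by ring

theorem cond2 (J : ℕ) (η : ℝ) (hη : 0 < η) (hη1 : η ≤ 1 / 8) : ∀ᶠ x : ℝ in atTop,
    ∑ q ∈ Icc 1 ⌊x ^ (1 / 2 - 2 * η)⌋₊, Eq1 J x q ≤
      (Real.log x) ^ 2 *
        ∑ c ∈ PC ⌊x ^ (1 / 2 - 2 * η)⌋₊, (1 / (c.md.totient : ℝ)) * ‖Psi J x c.2‖ +
        x ^ (1 - η) := by
  have hlo := isLittleO_log_rpow_rpow_atTop (s := (1 / 2 : ℝ)) ((J + 3 : ℕ) : ℝ) (by norm_num)
  have hb := hlo.bound (c := 1 / (7 * 3 ^ (J + 1))) (by positivity)
  filter_upwards [hb, eventually_ge_atTop (Real.exp (1 / (4 * η))), eventually_ge_atTop (Real.exp 1)]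
    with x h1 h2 hx1
  have hx : 1 ≤ x := (Real.one_le_exp (by norm_num)).trans hx1
  have hx0 : 0 < x := by linarith
  have hL2 : 1 / (4 * η) ≤ Real.log x := by
    rw [Real.le_log_iff_exp_le hx0]
    exact h2
  have hL3 : 1 ≤ Real.log x := by
    rw [Real.le_log_iff_exp_le hx0]
    exact hx1
  have hL4 : 1 ≤ 4 * η * Real.log x := by
    rw [div_le_iff₀ (by positivity)] at hL2
    linarith
  have hL0 : 0 ≤ Real.log x := by linarith
  obtain ⟨Q, hQ⟩ : ∃ Q, Q = ⌊x ^ (1 / 2 - 2 * η)⌋₊ := ⟨_, rfl⟩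
  rw [← hQ]
  have hQx : (Q : ℝ) ≤ x ^ (1 / 2 - 2 * η) := by
    rw [hQ]
    exact Nat.floor_le (by positivity)
  have hQ1 : 1 ≤ Q := by
    rw [hQ]
    apply Nat.le_floor
    push_cast
    exact Real.one_le_rpow hx (by linarith)
  have hlogQ : Real.log Q ≤ (1 / 2 - 2 * η) * Real.log x := by
    have := Real.log_le_log (by exact_mod_cast hQ1) hQx
    rwa [Real.log_rpow hx0] at this
  have hlogQ0 : 0 ≤ Real.log (Q : ℝ) := Real.log_natCast_nonneg Q
  refine (cond_fin2 J Q x hx).trans ?_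
  have hS := sum_inv_phi Q hQ1
  have hS2 : (1 + 2 * Real.log Q) ^ 2 ≤ (Real.log x) ^ 2 := by
    apply pow_le_pow_left₀ (by linarith)
    linarith
  have hPsi : 0 ≤ ∑ c ∈ PC Q, (1 / (c.md.totient : ℝ)) * ‖Psi J x c.2‖ :=
    sum_nonneg fun _ _ => by positivity
  apply add_le_add
  · exact mul_le_mul_of_nonneg_right (hS.trans hS2) hPsi
  · rw [Real.norm_of_nonneg (by positivity), Real.norm_of_nonneg (by positivity),
      Real.rpow_natCast] at h1
    have hlQ2 : 2 * Real.log Q ≤ Real.log x := by nlinarith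
    calc (Q : ℝ) * ((2 * Real.log Q) * (6 * Real.log x + 1) * (3 * Real.log x) ^ (J + 1))
        ≤ x ^ (1 / 2 - 2 * η) * (Real.log x * (7 * Real.log x) * (3 * Real.log x) ^ (J + 1)) := by
          gcongr
          linarith
      _ = x ^ (1 / 2 - 2 * η) * ((7 * 3 ^ (J + 1)) * (Real.log x) ^ (J + 3)) := by
          rw [mul_pow, pow_add (Real.log x) J 3, pow_add (Real.log x) J 1]
          ring
      _ ≤ x ^ (1 / 2 - 2 * η) * ((7 * 3 ^ (J + 1)) * (1 / (7 * 3 ^ (J + 1)) * x ^ (1 / 2 : ℝ))) := by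
          gcongr
      _ = x ^ (1 / 2 - 2 * η) * x ^ (1 / 2 : ℝ) := by
          field_simp
      _ = x ^ (1 - 2 * η) := by
          rw [← Real.rpow_add hx0]
          congr 1
          ring
      _ ≤ x ^ (1 - η) := Real.rpow_le_rpow_of_exponent_le hx (by linarith)

end Pool.Agent.H21.BV
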