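import Pool.Agent.H21.MT.Ppow

/-!
[H21 BV PP]  Proper prime powers and primes dividing the modulus are negligible (sharper forms).

Proofs.  Copy `Pool/Agent/H21/MT/Ppow.lean`.
* `ppow2`: split at `x^(1+δ)` instead of `x^(11/10)`: for `n ≤ x^(1+δ)` the number of proper prime powers
  is `≤ x^{(1+δ)/2} (log_2 x^{1+δ} + 1)`, each weight `≤ ((1+δ) log x)^{J+1}`; for `n > x^(1+δ)`
  `gw x n ≤ exp(-δ^2 (log x)^2/2)`, at most `x^3` terms of size `≤ (3 log x)^{J+1} exp(..)`, total `≤ 1`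
  for large `x` (`exp_log_sq_gen` in `GwB`).  Total `≤ x^{1/2 + δ/2} (log x)^{J+3} C + 1 ≤ x^{1/2+δ}`.
* `pdvd2`: at most `2 log q ≤ 2 log x` primes, each term `≤ (log p)^{J+1} ≤ (log x)^{J+1}`.
-/

namespace Pool.Agent.H21.BV

open Finset Filter Pool.Agent.H21.MT

private theorem ppow_logpow (J : ℕ) (c ε : ℝ) (hε : 0 < ε) :
    ∀ᶠ x : ℝ in atTop, c * (Real.log x) ^ J ≤ x ^ ε := by
  have h := isLittleO_log_rpow_rpow_atTop (s := ε) (J : ℝ) hε
  have hc : 0 < 1 / (|c| + 1) := by positivity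
  filter_upwards [h.bound hc, eventually_ge_atTop (1 : ℝ)] with x hx hx1
  have hL : 0 ≤ Real.log x := Real.log_nonneg hx1
  have hxe : 0 ≤ x ^ ε := Real.rpow_nonneg (by linarith) _
  rw [Real.rpow_natCast, Real.norm_of_nonneg (by positivity), Real.norm_of_nonneg hxe] at hx
  have h1 : c * Real.log x ^ J ≤ (|c| + 1) * Real.log x ^ J := by
    have : 0 ≤ Real.log x ^ J := by positivity
    nlinarith [le_abs_self c]
  have h2 : (|c| + 1) * Real.log x ^ J ≤ (|c| + 1) * (1 / (|c| + 1) * x ^ ε) := by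
    apply mul_le_mul_of_nonneg_left hx (by positivity)
  have h3 : (|c| + 1) * (1 / (|c| + 1) * x ^ ε) = x ^ ε := by
    field_simp
  linarith

private theorem wt_nonneg_aux (J : ℕ) (x : ℝ) (n : ℕ) : 0 ≤ wt J x n := by
  unfold wt
  have h1 : 0 ≤ Real.log (n : ℝ) := Real.log_natCast_nonneg n
  have h2 := (gw_pos x n).le
  have h3 : 0 ≤ ArithmeticFunction.vonMangoldt n := ArithmeticFunction.vonMangoldt_nonneg
  positivity

theorem ppow2 (J : ℕ) (δ : ℝ) (hδ : 0 < δ) (hδ1 : δ ≤ 1) : ∀ᶠ x : ℝ in atTop,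
    ∑ n ∈ (Icc 1 ⌊x ^ 3⌋₊).filter (fun n : ℕ => ¬ n.Prime), wt J x n ≤ x ^ (1 / 2 + δ) := by
  filter_upwards [eventually_ge_atTop (1 : ℝ), ppow_logpow (J + 1) (2 * (1 + δ) ^ (J + 1) + 0)
      (δ / 8) (by positivity), ppow_logpow (J + 1) (3 ^ (J + 1)) 1 (by norm_num),
      exp_log_sq_gen 4 (δ ^ 2 / 2) (by positivity), ppow_logpow 0 2 (δ / 8) (by positivity)]
    with x hx1 hA hB hC hD
  set L := Real.log x with hLdef
  have hx0 : 0 < x := by linarith
  have hL : 0 ≤ L := Real.log_nonneg hx1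
  set y : ℝ := x ^ (1 + δ) with hy
  have hy1 : 1 ≤ y := Real.one_le_rpow hx1 (by linarith)
  have hlogy : Real.log y = (1 + δ) * L := by
    rw [hy, Real.log_rpow hx0]
  have hsq : √y = x ^ ((1 + δ) / 2) := by
    rw [hy, Real.sqrt_eq_rpow, ← Real.rpow_mul hx0.le]
    congr 1
    ring
  -- split the range
  have hsplit : ∑ n ∈ (Icc 1 ⌊x ^ 3⌋₊).filter (fun n : ℕ => ¬ n.Prime), wt J x n ≤
      ∑ n ∈ (Ioc 0 ⌊y⌋₊).filter (fun n : ℕ => ¬ n.Prime), wt J x n +
      ∑ n ∈ (Icc 1 ⌊x ^ 3⌋₊).filter (fun n : ℕ => ⌊y⌋₊ < n), wt J x n := by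
    rw [← Finset.sum_filter_add_sum_filter_not ((Icc 1 ⌊x ^ 3⌋₊).filter (fun n : ℕ => ¬ n.Prime))
      (fun n : ℕ => n ≤ ⌊y⌋₊)]
    apply add_le_add
    · apply Finset.sum_le_sum_of_subset_of_nonneg
      · intro n hn
        simp only [Finset.mem_filter, Finset.mem_Icc, Finset.mem_Ioc] at hn ⊢
        exact ⟨⟨by omega, hn.2⟩, hn.1.2⟩
      · intro n _ _
        exact wt_nonneg_aux J x n
    · apply Finset.sum_le_sum_of_subset_of_nonneg
      · intro n hn
        simp only [Finset.mem_filter, Finset.mem_Icc, not_le] at hn ⊢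
        exact ⟨hn.1.1, hn.2⟩
      · intro n _ _
        exact wt_nonneg_aux J x n
  -- first part
  have h1 : ∑ n ∈ (Ioc 0 ⌊y⌋₊).filter (fun n : ℕ => ¬ n.Prime), wt J x n ≤
      (2 * (1 + δ) ^ (J + 1) + 0) * L ^ (J + 1) * x ^ ((1 + δ) / 2) := by
    have hterm : ∀ n ∈ (Ioc 0 ⌊y⌋₊).filter (fun n : ℕ => ¬ n.Prime), wt J x n ≤
        ((1 + δ) * L) ^ J * ArithmeticFunction.vonMangoldt n := by
      intro n hn
      simp only [Finset.mem_filter, Finset.mem_Ioc] at hn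
      unfold wt
      have hΛ : 0 ≤ ArithmeticFunction.vonMangoldt n := ArithmeticFunction.vonMangoldt_nonneg
      have hny : (n : ℝ) ≤ y := by
        have := Nat.le_floor_iff (by linarith : (0 : ℝ) ≤ y) |>.mp hn.1.2
        exact this
      have hn0 : (0 : ℝ) < n := by exact_mod_cast hn.1.1
      have hlog : Real.log n ≤ (1 + δ) * L := by
        rw [← hlogy]
        exact Real.log_le_log hn0 hny
      have hlog0 : 0 ≤ Real.log (n : ℝ) := Real.log_natCast_nonneg n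
      have hpow : Real.log (n : ℝ) ^ J ≤ ((1 + δ) * L) ^ J := pow_le_pow_left₀ hlog0 hlog J
      calc ArithmeticFunction.vonMangoldt n * Real.log n ^ J * gw x n
          ≤ ArithmeticFunction.vonMangoldt n * ((1 + δ) * L) ^ J * 1 := by
            apply mul_le_mul _ (gw_le_one x n) (gw_pos x n).le (by positivity)
            exact mul_le_mul_of_nonneg_left hpow hΛ
        _ = ((1 + δ) * L) ^ J * ArithmeticFunction.vonMangoldt n := by ring
    calc ∑ n ∈ (Ioc 0 ⌊y⌋₊).filter (fun n : ℕ => ¬ n.Prime), wt J x n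
        ≤ ∑ n ∈ (Ioc 0 ⌊y⌋₊).filter (fun n : ℕ => ¬ n.Prime),
          ((1 + δ) * L) ^ J * ArithmeticFunction.vonMangoldt n := Finset.sum_le_sum hterm
      _ = ((1 + δ) * L) ^ J * (Chebyshev.psi y - Chebyshev.theta y) := by
          rw [Chebyshev.psi_sub_theta_eq_sum_not_prime, Finset.mul_sum]
      _ ≤ ((1 + δ) * L) ^ J * (2 * √y * Real.log y) := by
          apply mul_le_mul_of_nonneg_left (Chebyshev.psi_sub_theta_le hy1) (by positivity)
      _ = (2 * (1 + δ) ^ (J + 1) + 0) * L ^ (J + 1) * x ^ ((1 + δ) / 2) := by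
          rw [hsq, hlogy]
          generalize x ^ ((1 + δ) / 2) = A
          generalize 1 + δ = c
          ring
  -- second part
  have h2 : ∑ n ∈ (Icc 1 ⌊x ^ 3⌋₊).filter (fun n : ℕ => ⌊y⌋₊ < n), wt J x n ≤ 1 := by
    have hterm : ∀ n ∈ (Icc 1 ⌊x ^ 3⌋₊).filter (fun n : ℕ => ⌊y⌋₊ < n), wt J x n ≤
        x * Real.exp (-(δ ^ 2 / 2) * L ^ 2) := by
      intro n hn
      simp only [Finset.mem_filter, Finset.mem_Icc] at hn
      have hn0 : (0 : ℝ) < n := by
        have : 1 ≤ n := hn.1.1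
        exact_mod_cast this
      have hnx : (n : ℝ) ≤ x ^ 3 := Nat.le_floor_iff (by positivity) |>.mp hn.1.2
      have hyn : y < n := Nat.lt_of_floor_lt hn.2
      have hlog0 : 0 ≤ Real.log (n : ℝ) := Real.log_natCast_nonneg n
      have hlog3 : Real.log n ≤ 3 * L := by
        have := Real.log_le_log hn0 hnx
        rw [Real.log_pow] at this
        push_cast at this
        exact this
      have hgw : gw x n ≤ Real.exp (-(δ ^ 2 / 2) * L ^ 2) := by
        unfold gw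
        apply Real.exp_le_exp.mpr
        rw [Real.log_div hn0.ne' hx0.ne']
        have hlogn : (1 + δ) * L ≤ Real.log n := by
          rw [← hlogy]
          exact Real.log_le_log (by linarith) hyn.le
        have hd : δ * L ≤ Real.log n - L := by linarith
        have hd2 : (δ * L) ^ 2 ≤ (Real.log n - L) ^ 2 :=
          pow_le_pow_left₀ (by positivity) hd 2
        rw [← hLdef]
        rw [mul_pow] at hd2
        linarith
      have hpow : Real.log (n : ℝ) ^ J ≤ (3 * L) ^ J := pow_le_pow_left₀ hlog0 hlog3 J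
      have hΛ0 : 0 ≤ ArithmeticFunction.vonMangoldt n := ArithmeticFunction.vonMangoldt_nonneg
      have hΛ : ArithmeticFunction.vonMangoldt n ≤ 3 * L :=
        ArithmeticFunction.vonMangoldt_le_log.trans hlog3
      unfold wt
      calc ArithmeticFunction.vonMangoldt n * Real.log n ^ J * gw x n
          ≤ (3 * L * (3 * L) ^ J) * Real.exp (-(δ ^ 2 / 2) * L ^ 2) := by
            apply mul_le_mul _ hgw (gw_pos x n).le (by positivity)
            exact mul_le_mul hΛ hpow (by positivity) (by positivity)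
        _ = (3 ^ (J + 1) * L ^ (J + 1)) * Real.exp (-(δ ^ 2 / 2) * L ^ 2) := by ring
        _ ≤ x * Real.exp (-(δ ^ 2 / 2) * L ^ 2) := by
            apply mul_le_mul_of_nonneg_right _ (Real.exp_pos _).le
            rw [Real.rpow_one] at hB
            exact hB
    calc ∑ n ∈ (Icc 1 ⌊x ^ 3⌋₊).filter (fun n : ℕ => ⌊y⌋₊ < n), wt J x n
        ≤ ∑ n ∈ (Icc 1 ⌊x ^ 3⌋₊).filter (fun n : ℕ => ⌊y⌋₊ < n),
          x * Real.exp (-(δ ^ 2 / 2) * L ^ 2) := Finset.sum_le_sum hterm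
      _ = (((Icc 1 ⌊x ^ 3⌋₊).filter (fun n : ℕ => ⌊y⌋₊ < n)).card : ℝ) *
          (x * Real.exp (-(δ ^ 2 / 2) * L ^ 2)) := by rw [Finset.sum_const, nsmul_eq_mul]
      _ ≤ x ^ 3 * (x * Real.exp (-(δ ^ 2 / 2) * L ^ 2)) := by
          apply mul_le_mul_of_nonneg_right _ (by positivity)
          have hc : ((Icc 1 ⌊x ^ 3⌋₊).filter (fun n : ℕ => ⌊y⌋₊ < n)).card ≤ ⌊x ^ 3⌋₊ := by
            refine (Finset.card_filter_le _ _).trans ?_
            simp
          calc (((Icc 1 ⌊x ^ 3⌋₊).filter (fun n : ℕ => ⌊y⌋₊ < n)).card : ℝ)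
              ≤ (⌊x ^ 3⌋₊ : ℝ) := by exact_mod_cast hc
            _ ≤ x ^ 3 := Nat.floor_le (by positivity)
      _ = x ^ 4 * Real.exp (-(δ ^ 2 / 2) * L ^ 2) := by ring
      _ ≤ 1 := hC
  -- conclusion
  have hpp : 0 < x ^ ((1 + δ) / 2) := Real.rpow_pos_of_pos hx0 _
  have h3 : (2 * (1 + δ) ^ (J + 1) + 0) * L ^ (J + 1) * x ^ ((1 + δ) / 2) ≤
      x ^ (δ / 8) * x ^ ((1 + δ) / 2) := mul_le_mul_of_nonneg_right hA hpp.le
  have h4 : x ^ (δ / 8) * x ^ ((1 + δ) / 2) = x ^ (1 / 2 + 5 * δ / 8) := by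
    rw [← Real.rpow_add hx0]
    congr 1
    ring
  have h5 : 1 ≤ x ^ (1 / 2 + 5 * δ / 8) := Real.one_le_rpow hx1 (by positivity)
  have h6 : x ^ (δ / 8) * x ^ (1 / 2 + 5 * δ / 8) ≤ x ^ (1 / 2 + δ) := by
    rw [← Real.rpow_add hx0]
    exact Real.rpow_le_rpow_of_exponent_le hx1 (by linarith)
  have h7 : 2 * x ^ (1 / 2 + 5 * δ / 8) ≤ x ^ (δ / 8) * x ^ (1 / 2 + 5 * δ / 8) := by
    apply mul_le_mul_of_nonneg_right _ (by linarith)
    rw [pow_zero, mul_one] at hD
    exact hD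
  linarith

theorem pdvd2 (J : ℕ) (δ : ℝ) (hδ : 0 < δ) : ∀ᶠ x : ℝ in atTop, ∀ q : ℕ, 1 ≤ q → (q : ℝ) ≤ x →
    ∑ p ∈ (Icc 1 ⌊x ^ 3⌋₊).filter (fun p : ℕ => p.Prime ∧ p ∣ q), wt J x p ≤ x ^ δ := by
  filter_upwards [eventually_ge_atTop (1 : ℝ), ppow_logpow (J + 1) 1 δ hδ]
    with x hx1 hA q hq1 hqx
  set L := Real.log x with hLdef
  have hx0 : 0 < x := by linarith
  have hL : 0 ≤ L := Real.log_nonneg hx1
  have hqpos : (0 : ℝ) < q := by exact_mod_cast hq1
  have hlogq : Real.log q ≤ L := Real.log_le_log hqpos hqx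
  have hterm : ∀ p ∈ (Icc 1 ⌊x ^ 3⌋₊).filter (fun p : ℕ => p.Prime ∧ p ∣ q), wt J x p ≤
      L ^ J * Real.log p := by
    intro p hp
    simp only [Finset.mem_filter, Finset.mem_Icc] at hp
    have hpq : p ≤ q := Nat.le_of_dvd (by omega) hp.2.2
    have hp0 : (0 : ℝ) < p := by exact_mod_cast hp.1.1
    have hlogp : Real.log p ≤ L :=
      (Real.log_le_log hp0 (by exact_mod_cast hpq)).trans hlogq
    have hlog0 : 0 ≤ Real.log (p : ℝ) := Real.log_natCast_nonneg p
    unfold wt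
    rw [ArithmeticFunction.vonMangoldt_apply_prime hp.2.1]
    calc Real.log p * Real.log p ^ J * gw x p ≤ (Real.log p * L ^ J) * 1 := by
          apply mul_le_mul _ (gw_le_one x p) (gw_pos x p).le (by positivity)
          exact mul_le_mul_of_nonneg_left (pow_le_pow_left₀ hlog0 hlogp J) hlog0
      _ = L ^ J * Real.log p := by ring
  have hsub : (Icc 1 ⌊x ^ 3⌋₊).filter (fun p : ℕ => p.Prime ∧ p ∣ q) ⊆ q.primeFactors := by
    intro p hp
    simp only [Finset.mem_filter, Finset.mem_Icc] at hp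
    exact Nat.mem_primeFactors.mpr ⟨hp.2.1, hp.2.2, by omega⟩
  have hprod : ∑ p ∈ q.primeFactors, Real.log (p : ℝ) ≤ Real.log q := by
    rw [← Real.log_prod (fun p hp => by
      have := (Nat.prime_of_mem_primeFactors hp).pos
      positivity)]
    apply Real.log_le_log
    · apply Finset.prod_pos
      intro p hp
      have := (Nat.prime_of_mem_primeFactors hp).pos
      exact_mod_cast this
    · have h := Nat.le_of_dvd (by omega) (Nat.prod_primeFactors_dvd q)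
      have h' : ((∏ p ∈ q.primeFactors, p : ℕ) : ℝ) ≤ q := Nat.cast_le.mpr h
      rw [Nat.cast_prod] at h'
      exact h'
  calc ∑ p ∈ (Icc 1 ⌊x ^ 3⌋₊).filter (fun p : ℕ => p.Prime ∧ p ∣ q), wt J x p
      ≤ ∑ p ∈ (Icc 1 ⌊x ^ 3⌋₊).filter (fun p : ℕ => p.Prime ∧ p ∣ q), L ^ J * Real.log p :=
        Finset.sum_le_sum hterm
    _ ≤ ∑ p ∈ q.primeFactors, L ^ J * Real.log p := by
        apply Finset.sum_le_sum_of_subset_of_nonneg hsub
        intro p _ _
        have : 0 ≤ Real.log (p : ℝ) := Real.log_natCast_nonneg p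
        positivity
    _ = L ^ J * ∑ p ∈ q.primeFactors, Real.log (p : ℝ) := by rw [Finset.mul_sum]
    _ ≤ L ^ J * L := by
        apply mul_le_mul_of_nonneg_left (hprod.trans hlogq) (by positivity)
    _ = 1 * L ^ (J + 1) := by ring
    _ ≤ x ^ δ := hA

end Pool.Agent.H21.BV
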