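import Pool.Agent.H21.MT.Triv

/-!
[H21 BV TR]  The trivial bound in residue classes, moduli up to `x^(1/2)`.

Proof.  Copy the last proof (`triv`) of `Pool/Agent/H21/MT/Triv.lean`; `triv_class` holds for all `q ≤ x`.
-/

namespace Pool.Agent.H21.BV

open Finset Filter Pool.Agent.H21.MT

private theorem triv_gw_up {x : ℝ} (hx : 1 ≤ x) (k : ℕ) (hk0 : 0 < k) (hk : k < ⌊x⌋₊) :
    gw x k ≤ gw x (k + 1) := by
  have hx0 : 0 < x := by linarith
  have hk' : (k : ℝ) + 1 ≤ x := by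
    have h1 : k + 1 ≤ ⌊x⌋₊ := hk
    have h2 := (Nat.le_floor_iff hx0.le).mp h1
    push_cast at h2
    exact h2
  have hkpos : (0 : ℝ) < k := by exact_mod_cast hk0
  unfold gw
  apply Real.exp_le_exp.mpr
  have h1 : Real.log ((k : ℝ) / x) ≤ Real.log (((k + 1 : ℕ) : ℝ) / x) := by
    apply Real.log_le_log (by positivity)
    apply div_le_div_of_nonneg_right _ hx0.le
    push_cast
    linarith
  have h2 : Real.log (((k + 1 : ℕ) : ℝ) / x) ≤ 0 := by
    apply Real.log_nonpos (by positivity)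
    rw [div_le_one hx0]
    push_cast
    exact hk'
  have h3 : (Real.log (((k + 1 : ℕ) : ℝ) / x)) ^ 2 ≤ (Real.log ((k : ℝ) / x)) ^ 2 := by
    nlinarith
  linarith

private theorem triv_gw_down {x : ℝ} (hx : 1 ≤ x) (k : ℕ) (hk : ⌊x⌋₊ < k) :
    gw x (k + 1) ≤ gw x k := by
  have hx0 : 0 < x := by linarith
  have hk' : x < k := Nat.lt_of_floor_lt hk
  have hkpos : (0 : ℝ) < k := by linarith
  unfold gw
  apply Real.exp_le_exp.mpr
  have h1 : Real.log ((k : ℝ) / x) ≤ Real.log (((k + 1 : ℕ) : ℝ) / x) := by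
    apply Real.log_le_log (by positivity)
    apply div_le_div_of_nonneg_right _ hx0.le
    push_cast
    linarith
  have h2 : 0 ≤ Real.log ((k : ℝ) / x) := by
    apply Real.log_nonneg
    rw [one_le_div hx0]
    exact hk'.le
  have h3 : (Real.log ((k : ℝ) / x)) ^ 2 ≤ (Real.log (((k + 1 : ℕ) : ℝ) / x)) ^ 2 := by
    nlinarith
  linarith

private theorem triv_gw_tail {x : ℝ} (hx : 1 ≤ x) (n : ℕ) (hn : 0 < n) :
    gw x n ≤ Real.exp 2 * x ^ 2 * ((n : ℝ) ^ 2)⁻¹ := by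
  have hx0 : 0 < x := by linarith
  have hnpos : (0 : ℝ) < n := by exact_mod_cast hn
  unfold gw
  have h1 : -(Real.log ((n : ℝ) / x)) ^ 2 / 2 ≤ 2 - 2 * Real.log ((n : ℝ) / x) := by
    nlinarith [sq_nonneg (Real.log ((n : ℝ) / x) - 2)]
  have h2 : Real.exp (2 - 2 * Real.log ((n : ℝ) / x)) =
      Real.exp 2 * x ^ 2 * ((n : ℝ) ^ 2)⁻¹ := by
    have h3 : 2 * Real.log ((n : ℝ) / x) = Real.log (((n : ℝ) / x) ^ 2) := by
      rw [Real.log_pow]; norm_num
    rw [h3, Real.exp_sub, Real.exp_log (by positivity)]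
    field_simp
  rw [← h2]
  exact Real.exp_le_exp.mpr h1

private theorem triv_G {x : ℝ} (hx : 1 ≤ x) (N : ℕ) :
    ∑ n ∈ Ioc 0 N, gw x n ≤ 36 * x := by
  have hx0 : 0 < x := by linarith
  have hfl : 1 ≤ ⌊x⌋₊ := by
    rw [Nat.le_floor_iff hx0.le]
    simpa using hx
  have hfl0 : ⌊x⌋₊ ≠ 0 := by omega
  have hhead : ∑ n ∈ Ioc 0 ⌊x⌋₊, gw x n ≤ x := by
    calc ∑ n ∈ Ioc 0 ⌊x⌋₊, gw x n ≤ ∑ n ∈ Ioc 0 ⌊x⌋₊, (1 : ℝ) :=
          Finset.sum_le_sum (fun n _ => gw_le_one x n)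
      _ = (⌊x⌋₊ : ℝ) := by simp
      _ ≤ x := Nat.floor_le hx0.le
  rcases le_total N ⌊x⌋₊ with hN | hN
  · calc ∑ n ∈ Ioc 0 N, gw x n ≤ ∑ n ∈ Ioc 0 ⌊x⌋₊, gw x n := by
          apply Finset.sum_le_sum_of_subset_of_nonneg
          · exact Finset.Ioc_subset_Ioc_right hN
          · intro n _ _
            exact (gw_pos x n).le
      _ ≤ x := hhead
      _ ≤ 36 * x := by linarith
  · have hsplit : ∑ n ∈ Ioc 0 N, gw x n = ∑ n ∈ Ioc 0 ⌊x⌋₊, gw x n +
        ∑ n ∈ Ioc ⌊x⌋₊ N, gw x n := by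
      rw [← Finset.sum_union]
      · rw [Finset.Ioc_union_Ioc_eq_Ioc (Nat.zero_le _) hN]
      · rw [Finset.disjoint_left]
        intro n h1 h2
        simp only [Finset.mem_Ioc] at h1 h2
        omega
    have htail : ∑ n ∈ Ioc ⌊x⌋₊ N, gw x n ≤ Real.exp 2 * x ^ 2 * (⌊x⌋₊ : ℝ)⁻¹ := by
      calc ∑ n ∈ Ioc ⌊x⌋₊ N, gw x n
          ≤ ∑ n ∈ Ioc ⌊x⌋₊ N, Real.exp 2 * x ^ 2 * ((n : ℝ) ^ 2)⁻¹ := by
            apply Finset.sum_le_sum
            intro n hn
            simp only [Finset.mem_Ioc] at hn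
            exact triv_gw_tail hx n (by omega)
        _ = Real.exp 2 * x ^ 2 * ∑ n ∈ Ioc ⌊x⌋₊ N, ((n : ℝ) ^ 2)⁻¹ := by rw [Finset.mul_sum]
        _ ≤ Real.exp 2 * x ^ 2 * (⌊x⌋₊ : ℝ)⁻¹ := by
            apply mul_le_mul_of_nonneg_left _ (by positivity)
            have h := sum_Ioc_inv_sq_le_sub (α := ℝ) hfl0 hN
            have h2 : (0 : ℝ) ≤ (N : ℝ)⁻¹ := by positivity
            linarith
    have hinv : (⌊x⌋₊ : ℝ)⁻¹ ≤ 2 / x := by
      have hflr : (1 : ℝ) ≤ (⌊x⌋₊ : ℝ) := by exact_mod_cast hfl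
      have h3 : x < ⌊x⌋₊ + 1 := Nat.lt_floor_add_one x
      rw [inv_le_comm₀ (by linarith) (by positivity), inv_div]
      linarith
    have he : Real.exp 2 ≤ 9 := by
      have h1 : Real.exp 1 < 2.7182818286 := Real.exp_one_lt_d9
      have h2 : Real.exp 2 = Real.exp 1 * Real.exp 1 := by rw [← Real.exp_add]; norm_num
      rw [h2]
      nlinarith [Real.exp_pos 1]
    have h4 : Real.exp 2 * x ^ 2 * (⌊x⌋₊ : ℝ)⁻¹ ≤ 9 * x ^ 2 * (2 / x) := by
      apply mul_le_mul _ hinv (by positivity) (by positivity)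
      exact mul_le_mul_of_nonneg_right he (by positivity)
    have h5 : 9 * x ^ 2 * (2 / x) = 18 * x := by
      field_simp
      ring
    rw [hsplit]
    linarith

private theorem triv_class {x : ℝ} (hx : 1 ≤ x) (q : ℕ) (hq : 1 ≤ q) (hqx : (q : ℝ) ≤ x) (a : ℤ) :
    ∑ n ∈ (Ioc 0 ⌊x ^ 3⌋₊).filter (fun n : ℕ => (q : ℤ) ∣ (n : ℤ) - a), gw x n ≤ 40 * x / q := by
  have hx0 : 0 < x := by linarith
  have hq0 : (0 : ℝ) < q := by exact_mod_cast hq
  have h := ap_sum (gw x) 0 ⌊x⌋₊ ⌊x ^ 3⌋₊ 1 (fun k => (gw_pos x k).le) (gw_le_one x)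
    (fun k hk0 hk => triv_gw_up hx k hk0 hk) (fun k hk _ => triv_gw_down hx k hk)
    q (a % (q : ℤ)).toNat (by omega)
  have hset : (Ioc 0 ⌊x ^ 3⌋₊).filter (fun n : ℕ => (q : ℤ) ∣ (n : ℤ) - a) =
      (Ioc 0 ⌊x ^ 3⌋₊).filter (fun n : ℕ => n % q = (a % (q : ℤ)).toNat % q) := by
    apply Finset.filter_congr
    intro n _
    have hqz : (q : ℤ) ≠ 0 := by
      have : q ≠ 0 := by omega
      exact_mod_cast this
    have hnn : 0 ≤ a % (q : ℤ) := Int.emod_nonneg a hqz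
    rw [← Int.modEq_iff_dvd]
    unfold Int.ModEq
    constructor
    · intro h1
      have h2 : ((n % q : ℕ) : ℤ) = (((a % (q : ℤ)).toNat % q : ℕ) : ℤ) := by
        push_cast
        rw [Int.toNat_of_nonneg hnn, Int.emod_emod, h1]
      exact_mod_cast h2
    · intro h1
      have h2 : ((n % q : ℕ) : ℤ) = (((a % (q : ℤ)).toNat % q : ℕ) : ℤ) := by
        rw [h1]
      push_cast at h2
      rw [Int.toNat_of_nonneg hnn, Int.emod_emod] at h2
      exact h2.symm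
  rw [hset]
  have h1 := (abs_le.mp h).2
  have hG := triv_G hx ⌊x ^ 3⌋₊
  have h2 : (∑ k ∈ Ioc 0 ⌊x ^ 3⌋₊, gw x k) / (q : ℝ) ≤ 36 * x / q :=
    div_le_div_of_nonneg_right hG hq0.le
  have h3 : (4 : ℝ) ≤ 4 * x / q := by
    rw [le_div_iff₀ hq0]
    nlinarith
  have h4 : 40 * x / q = 36 * x / q + 4 * x / (q : ℝ) := by ring
  rw [h4]
  linarith

theorem triv2 (J : ℕ) : ∀ᶠ x : ℝ in atTop, ∀ q : ℕ, 1 ≤ q → (q : ℝ) ≤ x ^ (1 / 2 : ℝ) → ∀ a : ℤ,
    |∑ p ∈ (Wp x).filter (fun p : ℕ => (q : ℤ) ∣ (p : ℤ) - a), vp J x p -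
        MM J x / q.totient| ≤ x * (Real.log x) ^ (J + 2) / q.totient := by
  filter_upwards [eventually_ge_atTop (1 : ℝ),
    Real.tendsto_log_atTop.eventually_ge_atTop (76 * 3 ^ (J + 1) : ℝ)] with x hx1 hbig q hq1 hqx a
  set L := Real.log x with hLdef
  have hx0 : 0 < x := by linarith
  have hL : 0 ≤ L := Real.log_nonneg hx1
  have hqle : (q : ℝ) ≤ x := by
    refine hqx.trans ?_
    calc x ^ (1 / 2 : ℝ) ≤ x ^ (1 : ℝ) := Real.rpow_le_rpow_of_exponent_le hx1 (by norm_num)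
      _ = x := Real.rpow_one x
  have hq0 : (0 : ℝ) < q := by exact_mod_cast hq1
  have hφ : 0 < q.totient := Nat.totient_pos.mpr (by omega)
  have hφr : (0 : ℝ) < q.totient := by exact_mod_cast hφ
  have hφq : (q.totient : ℝ) ≤ q := by exact_mod_cast Nat.totient_le q
  -- pointwise bound of the weight
  have hvp : ∀ p ∈ Wp x, vp J x p ≤ (3 * L) ^ (J + 1) * gw x p ∧ 0 ≤ vp J x p := by
    intro p hp
    unfold Wp at hp
    simp only [Finset.mem_filter, Finset.mem_Icc] at hp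
    have hp0 : (0 : ℝ) < p := by exact_mod_cast hp.1.1
    have hpx : (p : ℝ) ≤ x ^ 3 := Nat.le_floor_iff (by positivity) |>.mp hp.1.2
    have hlog3 : Real.log p ≤ 3 * L := by
      have := Real.log_le_log hp0 hpx
      rw [Real.log_pow] at this
      push_cast at this
      exact this
    have hlog0 : 0 ≤ Real.log (p : ℝ) := Real.log_natCast_nonneg p
    have hg := (gw_pos x p).le
    unfold vp
    refine ⟨?_, by positivity⟩
    exact mul_le_mul_of_nonneg_right (pow_le_pow_left₀ hlog0 hlog3 _) hg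
  have hsub : Wp x ⊆ Ioc 0 ⌊x ^ 3⌋₊ := by
    intro p hp
    unfold Wp at hp
    simp only [Finset.mem_filter, Finset.mem_Icc] at hp
    simp only [Finset.mem_Ioc]
    omega
  set A := ∑ p ∈ (Wp x).filter (fun p : ℕ => (q : ℤ) ∣ (p : ℤ) - a), vp J x p with hAdef
  have hA0 : 0 ≤ A := Finset.sum_nonneg (fun p hp => (hvp p (Finset.mem_filter.mp hp).1).2)
  have hM0 : 0 ≤ MM J x := Finset.sum_nonneg (fun p hp => (hvp p hp).2)
  have hA : A ≤ (3 * L) ^ (J + 1) * (40 * x / q.totient) := by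
    calc A ≤ ∑ p ∈ (Wp x).filter (fun p : ℕ => (q : ℤ) ∣ (p : ℤ) - a),
          (3 * L) ^ (J + 1) * gw x p :=
          Finset.sum_le_sum (fun p hp => (hvp p (Finset.mem_filter.mp hp).1).1)
      _ = (3 * L) ^ (J + 1) *
          ∑ p ∈ (Wp x).filter (fun p : ℕ => (q : ℤ) ∣ (p : ℤ) - a), gw x p := by
          rw [Finset.mul_sum]
      _ ≤ (3 * L) ^ (J + 1) * (40 * x / q) := by
          apply mul_le_mul_of_nonneg_left _ (by positivity)
          refine le_trans ?_ (triv_class hx1 q hq1 hqle a)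
          apply Finset.sum_le_sum_of_subset_of_nonneg
          · exact Finset.filter_subset_filter _ hsub
          · intro n _ _
            exact (gw_pos x n).le
      _ ≤ (3 * L) ^ (J + 1) * (40 * x / q.totient) := by
          apply mul_le_mul_of_nonneg_left _ (by positivity)
          exact div_le_div_of_nonneg_left (by positivity) hφr hφq
  have hM : MM J x / q.totient ≤ (3 * L) ^ (J + 1) * (36 * x / q.totient) := by
    have h1 : MM J x ≤ (3 * L) ^ (J + 1) * (36 * x) := by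
      calc MM J x ≤ ∑ p ∈ Wp x, (3 * L) ^ (J + 1) * gw x p :=
            Finset.sum_le_sum (fun p hp => (hvp p hp).1)
        _ = (3 * L) ^ (J + 1) * ∑ p ∈ Wp x, gw x p := by rw [Finset.mul_sum]
        _ ≤ (3 * L) ^ (J + 1) * (36 * x) := by
            apply mul_le_mul_of_nonneg_left _ (by positivity)
            refine le_trans ?_ (triv_G hx1 ⌊x ^ 3⌋₊)
            apply Finset.sum_le_sum_of_subset_of_nonneg hsub
            intro n _ _
            exact (gw_pos x n).le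
    calc MM J x / q.totient ≤ (3 * L) ^ (J + 1) * (36 * x) / q.totient :=
          div_le_div_of_nonneg_right h1 hφr.le
      _ = (3 * L) ^ (J + 1) * (36 * x / q.totient) := by ring
  have hM0' : 0 ≤ MM J x / q.totient := by positivity
  have hfin : (3 * L) ^ (J + 1) * (40 * x / q.totient) + (3 * L) ^ (J + 1) * (36 * x / q.totient)
      ≤ x * L ^ (J + 2) / q.totient := by
    have h1 : (3 * L) ^ (J + 1) * (40 * x / q.totient) +
        (3 * L) ^ (J + 1) * (36 * x / q.totient) =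
        (76 * 3 ^ (J + 1)) * (L ^ (J + 1) * x / q.totient) := by
      rw [mul_pow]; ring
    have h2 : x * L ^ (J + 2) / q.totient = L * (L ^ (J + 1) * x / q.totient) := by ring
    rw [h1, h2]
    exact mul_le_mul_of_nonneg_right hbig (by positivity)
  rw [abs_le]
  constructor <;> linarith

end Pool.Agent.H21.BV
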