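import Pool.Agent.H21.BV.Ws
import Pool.Agent.H21.BV.Cd
import Pool.Agent.H21.BV.Pp
import Pool.Agent.H21.BV.Tr
import Pool.Agent.H21.MT.Orth
import Pool.Agent.H21.MT.MmLow

/-!
[H21 BV BV2]  The Bombieri-Vinogradov theorem of level `1/2 - κ`, with the weights
`(log p)^(J+1) gw x p`.

Proof.  Copy the proof of `bv` in `Pool/Agent/H21/MT/BV.lean` (and its private lemmas) with `η = κ/2`, so
`1/2 - 2η = 1/2 - κ`: `J` from `wsum2 (A+3)`; `E1 q = Eq1 J x q + 3 x^(1/2 + κ/4)`,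
`E q = min (E1 q) (x (log x)^{J+2}/φ(q))` for `1 ≤ q ≤ x^{1/2-κ}`, `E q = 0` for the other `q`; `orth`,
`ppow2` (with `δ = κ/4`, used twice), `pdvd2` (with `δ = 1/2`), `triv2`.
Sum: `∑ E ≤ ∑ Eq1 + 3 x^{1/2+κ/4} x^{1/2-κ} ≤ (log x)^2 x (log x)^{J-A-3} + x^{1-κ/2} + 3 x^{1-3κ/4}
≤ x (log x)^{J-A}` for large `x` (`cond2`, `wsum2`).
-/

namespace Pool.Agent.H21.BV

open Finset Filter Pool.Agent.H21.MT

private theorem bv_logpow (A : ℕ) (c ε : ℝ) (hc : 0 ≤ c) (hε : 0 < ε) :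
    ∀ᶠ x : ℝ in atTop, c * (Real.log x) ^ A ≤ x ^ ε := by
  have h := isLittleO_log_rpow_rpow_atTop (s := ε) (A : ℝ) hε
  have hc' : 0 < 1 / (c + 1) := by positivity
  filter_upwards [h.bound hc', eventually_ge_atTop (1 : ℝ)] with x hx hx1
  have hL : 0 ≤ Real.log x := Real.log_nonneg hx1
  have hxe : 0 ≤ x ^ ε := Real.rpow_nonneg (by linarith) _
  rw [Real.rpow_natCast, Real.norm_of_nonneg (by positivity), Real.norm_of_nonneg hxe] at hx
  have h1 : 0 ≤ Real.log x ^ A := by positivity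
  have h2 : (c + 1) * Real.log x ^ A ≤ (c + 1) * (1 / (c + 1) * x ^ ε) :=
    mul_le_mul_of_nonneg_left hx (by positivity)
  have h3 : (c + 1) * (1 / (c + 1) * x ^ ε) = x ^ ε := by
    field_simp
  nlinarith

private theorem bv_wt_prime (J : ℕ) (x : ℝ) (p : ℕ) (hp : p.Prime) : wt J x p = vp J x p := by
  unfold wt vp
  rw [ArithmeticFunction.vonMangoldt_apply_prime hp, pow_succ]
  ring

private theorem bv_wt_nonneg (J : ℕ) (x : ℝ) (n : ℕ) : 0 ≤ wt J x n := by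
  unfold wt
  have h1 : 0 ≤ Real.log (n : ℝ) := Real.log_natCast_nonneg n
  have h2 := (gw_pos x n).le
  have h3 : 0 ≤ ArithmeticFunction.vonMangoldt n := ArithmeticFunction.vonMangoldt_nonneg
  positivity

private theorem bv_Eq1_nonneg (J : ℕ) (x : ℝ) (q : ℕ) : 0 ≤ Eq1 J x q := by
  unfold Eq1
  split_ifs
  · exact le_rfl
  · exact mul_nonneg (by positivity) (Finset.sum_nonneg fun _ _ => norm_nonneg _)

/-- the sum over all prime powers of a class, and the primes -/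
private theorem bv_split (J : ℕ) (x : ℝ) (P : ℕ → Prop) [DecidablePred P] :
    ∑ n ∈ (Icc 1 ⌊x ^ 3⌋₊).filter P, wt J x n =
      ∑ p ∈ (Wp x).filter P, vp J x p +
        ∑ n ∈ ((Icc 1 ⌊x ^ 3⌋₊).filter P).filter (fun n => ¬ n.Prime), wt J x n := by
  rw [← Finset.sum_filter_add_sum_filter_not ((Icc 1 ⌊x ^ 3⌋₊).filter P) Nat.Prime]
  congr 1
  unfold Wp
  rw [Finset.filter_comm]
  refine Finset.sum_congr rfl fun p hp => ?_
  rw [Finset.mem_filter, Finset.mem_filter] at hp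
  exact bv_wt_prime J x p hp.1.2

private theorem bv_class (J : ℕ) (x : ℝ) (B : ℝ)
    (hB : ∑ n ∈ (Icc 1 ⌊x ^ 3⌋₊).filter (fun n : ℕ => ¬ n.Prime), wt J x n ≤ B)
    (P : ℕ → Prop) [DecidablePred P] :
    |∑ n ∈ (Icc 1 ⌊x ^ 3⌋₊).filter P, wt J x n - ∑ p ∈ (Wp x).filter P, vp J x p| ≤ B := by
  rw [bv_split, add_sub_cancel_left, abs_of_nonneg (Finset.sum_nonneg fun n _ => bv_wt_nonneg J x n)]
  refine le_trans (Finset.sum_le_sum_of_subset_of_nonneg ?_ fun n _ _ => bv_wt_nonneg J x n) hB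
  intro n hn
  rw [Finset.mem_filter, Finset.mem_filter] at hn
  rw [Finset.mem_filter]
  exact ⟨hn.1.1, hn.2⟩

private theorem bv_cop (J : ℕ) (x : ℝ) (q : ℕ) (B : ℝ)
    (hB : ∑ p ∈ (Icc 1 ⌊x ^ 3⌋₊).filter (fun p : ℕ => p.Prime ∧ p ∣ q), wt J x p ≤ B) :
    |∑ p ∈ (Wp x).filter (fun n : ℕ => n.Coprime q), vp J x p - MM J x| ≤ B := by
  unfold MM
  rw [← Finset.sum_filter_add_sum_filter_not (Wp x) (fun n : ℕ => n.Coprime q), sub_add_cancel_left,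
    abs_neg]
  have e1 : ∑ p ∈ (Wp x).filter (fun n : ℕ => ¬ n.Coprime q), vp J x p =
      ∑ p ∈ (Icc 1 ⌊x ^ 3⌋₊).filter (fun p : ℕ => p.Prime ∧ p ∣ q), wt J x p := by
    unfold Wp
    rw [Finset.filter_filter]
    refine Finset.sum_congr ?_ fun p hp => ?_
    · ext p
      simp only [Finset.mem_filter]
      constructor
      · rintro ⟨h1, h2, h3⟩
        refine ⟨h1, h2, ?_⟩
        by_contra hcon
        exact h3 ((Nat.Prime.coprime_iff_not_dvd h2).2 hcon)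
      · rintro ⟨h1, h2, h3⟩
        exact ⟨h1, h2, fun hc => (Nat.Prime.coprime_iff_not_dvd h2).1 hc h3⟩
    · rw [Finset.mem_filter] at hp
      exact (bv_wt_prime J x p hp.2.1).symm
  rw [e1, abs_of_nonneg (Finset.sum_nonneg fun n _ => bv_wt_nonneg J x n)]
  exact hB

theorem bv2 (κ : ℝ) (hκ : 0 < κ) (hκ1 : κ ≤ 1 / 4) (A : ℕ) : ∃ J : ℕ, ∀ᶠ x : ℝ in atTop,
    ∃ E : ℕ → ℝ, (∀ q, 0 ≤ E q) ∧
    (∀ q : ℕ, 1 ≤ q → (q : ℝ) ≤ x ^ (1 / 2 - κ) → ∀ a : ℤ, IsCoprime a (q : ℤ) →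
      |∑ p ∈ (Wp x).filter (fun p : ℕ => (q : ℤ) ∣ (p : ℤ) - a), vp J x p -
        MM J x / q.totient| ≤ E q) ∧
    (∀ q : ℕ, 1 ≤ q → (q : ℝ) ≤ x ^ (1 / 2 - κ) →
      E q ≤ x * (Real.log x) ^ (J + 2) / q.totient) ∧
    ∑ q ∈ Icc 1 ⌊x ^ (1 / 2 - κ)⌋₊, E q ≤ x * (Real.log x) ^ J / (Real.log x) ^ A := by
  obtain ⟨J, hW⟩ := wsum2 (κ / 2) (by positivity) (by linarith) (A + 3)
  have hC := cond2 J (κ / 2) (by positivity) (by linarith)
  have eκ : 1 / 2 - 2 * (κ / 2) = 1 / 2 - κ := by ring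
  rw [eκ] at hW hC
  refine ⟨J, ?_⟩
  filter_upwards [hW, hC, ppow2 J (κ / 4) (by positivity) (by linarith),
    pdvd2 J (1 / 2) (by norm_num), triv2 J, bv_logpow A 8 (κ / 2) (by norm_num)
    (by positivity), Real.tendsto_log_atTop.eventually_ge_atTop (2 : ℝ), eventually_ge_atTop (1 : ℝ)]
    with x h1 h2 h3 h4 h5 h6 hL hx1
  have hx0 : 0 < x := by linarith
  set L := Real.log x with hLdef
  have hL0 : 0 < L := by linarith
  classical
  obtain ⟨Y, hY⟩ : ∃ Y, Y = x ^ (1 / 2 + κ / 4) := ⟨_, rfl⟩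
  have hY0 : 0 ≤ Y := by rw [hY]; exact Real.rpow_nonneg hx0.le _
  have hx10 : x ^ (1 / 2 : ℝ) ≤ Y := by
    rw [hY]
    exact Real.rpow_le_rpow_of_exponent_le hx1 (by linarith)
  rw [← hY] at h3
  have hqx : ∀ q : ℕ, (q : ℝ) ≤ x ^ (1 / 2 - κ) → (q : ℝ) ≤ x := by
    intro q hq
    refine hq.trans ?_
    calc x ^ (1 / 2 - κ) ≤ x ^ (1 : ℝ) := Real.rpow_le_rpow_of_exponent_le hx1 (by linarith)
      _ = x := Real.rpow_one x
  have hqh : ∀ q : ℕ, (q : ℝ) ≤ x ^ (1 / 2 - κ) → (q : ℝ) ≤ x ^ (1 / 2 : ℝ) := by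
    intro q hq
    exact hq.trans (Real.rpow_le_rpow_of_exponent_le hx1 (by linarith))
  refine ⟨fun q => if 1 ≤ q ∧ (q : ℝ) ≤ x ^ (1 / 2 - κ) then
    min (Eq1 J x q + 3 * Y) (x * L ^ (J + 2) / q.totient) else 0, ?_, ?_, ?_, ?_⟩
  · intro q
    simp only []
    split_ifs
    · refine le_min ?_ (by positivity)
      have := bv_Eq1_nonneg J x q
      positivity
    · exact le_rfl
  · intro q hq1 hq2 a ha
    simp only []
    rw [if_pos ⟨hq1, hq2⟩]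
    refine le_min ?_ (h5 q hq1 (hqh q hq2) a)
    have hφ : (1 : ℝ) ≤ q.totient := by
      have : 0 < q.totient := Nat.totient_pos.2 (by omega)
      exact_mod_cast this
    have ho := orth J x q hq1 a ha
    have hc1 := bv_class J x _ h3 (fun n : ℕ => (q : ℤ) ∣ (n : ℤ) - a)
    have hc2 := bv_class J x _ h3 (fun n : ℕ => n.Coprime q)
    have hc3 := (bv_cop J x q _ (h4 q hq1 (hqx q hq2))).trans hx10
    set S1 := ∑ n ∈ (Icc 1 ⌊x ^ 3⌋₊).filter (fun n : ℕ => (q : ℤ) ∣ (n : ℤ) - a), wt J x n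
    set S2 := ∑ n ∈ (Icc 1 ⌊x ^ 3⌋₊).filter (fun n : ℕ => n.Coprime q), wt J x n
    set S3 := ∑ p ∈ (Wp x).filter (fun p : ℕ => (q : ℤ) ∣ (p : ℤ) - a), vp J x p
    set S4 := ∑ p ∈ (Wp x).filter (fun n : ℕ => n.Coprime q), vp J x p
    have hd : |S2 / q.totient - MM J x / q.totient| ≤ 2 * Y := by
      rw [← sub_div, abs_div, abs_of_pos (by linarith : (0 : ℝ) < q.totient)]
      have h7 : |S2 - MM J x| ≤ 2 * Y := by
        have := abs_sub_le S2 S4 (MM J x)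
        linarith
      calc |S2 - MM J x| / q.totient ≤ |S2 - MM J x| := div_le_self (abs_nonneg _) hφ
        _ ≤ _ := h7
    have e1 : S3 - MM J x / q.totient = (S1 - S2 / q.totient) + (S3 - S1) +
        (S2 / q.totient - MM J x / q.totient) := by ring
    rw [e1]
    have h8 := abs_add_three (S1 - S2 / q.totient) (S3 - S1) (S2 / q.totient - MM J x / q.totient)
    have h9 : |S3 - S1| ≤ Y := by
      rw [abs_sub_comm]
      exact hc1
    linarith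
  · intro q hq1 hq2
    simp only []
    rw [if_pos ⟨hq1, hq2⟩]
    exact min_le_right _ _
  · have hQ : ((⌊x ^ (1 / 2 - κ)⌋₊ : ℕ) : ℝ) ≤ x ^ (1 / 2 - κ) := Nat.floor_le (by positivity)
    have s1 : ∑ q ∈ Icc 1 ⌊x ^ (1 / 2 - κ)⌋₊, (if 1 ≤ q ∧ (q : ℝ) ≤ x ^ (1 / 2 - κ) then
        min (Eq1 J x q + 3 * Y) (x * L ^ (J + 2) / q.totient) else 0) ≤
        ∑ q ∈ Icc 1 ⌊x ^ (1 / 2 - κ)⌋₊, (Eq1 J x q + 3 * Y) := by
      refine Finset.sum_le_sum fun q _ => ?_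
      split_ifs
      · exact min_le_left _ _
      · have := bv_Eq1_nonneg J x q
        positivity
    refine s1.trans ?_
    rw [Finset.sum_add_distrib, Finset.sum_const, Nat.card_Icc, Nat.add_sub_cancel, nsmul_eq_mul]
    have s6 : x ^ (1 - 3 * κ / 4) ≤ x ^ (1 - κ / 2) :=
      Real.rpow_le_rpow_of_exponent_le hx1 (by linarith)
    have s2 : ((⌊x ^ (1 / 2 - κ)⌋₊ : ℕ) : ℝ) * (3 * Y) ≤ 3 * x ^ (1 - κ / 2) := by
      calc ((⌊x ^ (1 / 2 - κ)⌋₊ : ℕ) : ℝ) * (3 * Y)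
          ≤ x ^ (1 / 2 - κ) * (3 * Y) := by gcongr
        _ = 3 * (x ^ (1 / 2 - κ) * x ^ (1 / 2 + κ / 4)) := by rw [hY]; ring
        _ = 3 * x ^ (1 - 3 * κ / 4) := by
          rw [← Real.rpow_add hx0]
          congr 2
          ring
        _ ≤ 3 * x ^ (1 - κ / 2) := by linarith
    have s3 : L ^ 2 * ∑ c ∈ PC ⌊x ^ (1 / 2 - κ)⌋₊, (1 / (c.md.totient : ℝ)) * ‖Psi J x c.2‖ ≤
        L ^ 2 * (x * L ^ J / L ^ (A + 3)) := mul_le_mul_of_nonneg_left h1 (by positivity)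
    have s4 : L ^ 2 * (x * L ^ J / L ^ (A + 3)) = x * L ^ J / L ^ A / L := by
      field_simp
      ring
    have s5 : x * L ^ J / L ^ A / L ≤ x * L ^ J / L ^ A / 2 := by
      apply div_le_div_of_nonneg_left (by positivity) (by norm_num) hL
    have s7 : 4 * x ^ (1 - κ / 2) ≤ x * L ^ J / L ^ A / 2 := by
      have t1 : x = x ^ (1 - κ / 2) * x ^ (κ / 2) := by
        rw [← Real.rpow_add hx0]
        have : 1 - κ / 2 + κ / 2 = 1 := by ring
        rw [this, Real.rpow_one]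
      have t2 : 0 < x ^ (1 - κ / 2) := Real.rpow_pos_of_pos hx0 _
      have t3 : 1 ≤ L ^ J := one_le_pow₀ (by linarith)
      have t4 : x ≤ x * L ^ J := le_mul_of_one_le_right hx0.le t3
      have t5 : 4 * x ^ (1 - κ / 2) ≤ x / L ^ A / 2 := by
        rw [div_div, le_div_iff₀ (by positivity)]
        calc 4 * x ^ (1 - κ / 2) * (L ^ A * 2) = x ^ (1 - κ / 2) * (8 * L ^ A) := by ring
          _ ≤ x ^ (1 - κ / 2) * x ^ (κ / 2) := mul_le_mul_of_nonneg_left h6 t2.le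
          _ = x := t1.symm
      refine t5.trans ?_
      gcongr
    linarith

end Pool.Agent.H21.BV
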