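import Mathlib

/-!
[H21 BV FEJ]  The Fejér kernel.

Proofs.
* `ker_eq`: `∑_{j,k<N} ee((j-k) θ) = ‖∑_{j<N} ee(j θ)‖^2` (`z * conj z`, `conj (ee t) = ee (-t)`), and the
  number of pairs `(j,k)`, `j, k < N`, with `j - k = n` is `N - |n|` for `|n| < N`, `0` otherwise
  (`Finset.sum_fiberwise` or `card_bij`).
* `ker_le`: triangle inequality, the weights are nonnegative with sum `N` (this is `ker_eq` at `θ = 0`),
  or `ker_eq` and `‖∑_{j<N}‖ ≤ N`.
* `ker_le'`: `ee(j θ) = ee(j t)`, `t = θ - m` (integers), geometric sum: `‖∑_{j<N} ee(j t)‖ =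
  ‖ee(N t) - 1‖/‖ee(t) - 1‖ ≤ 2/(4|t|)`, because `‖ee t - 1‖ = 2 |sin(π t)| ≥ 4 |t|` for `|t| ≤ 1/2`
  (`Real.mul_le_sin`: `2/π * y ≤ sin y` for `0 ≤ y ≤ π/2`; `Complex.norm_exp_I_mul_ofReal_sub_one`
  or a direct computation).  So `‖ker‖ = (1/N) ‖∑‖^2 ≤ 1/(4 N t^2)`.
-/

namespace Pool.Agent.H21.BV

open Finset

/-- `exp(2 π i t)` -/
noncomputable def ee (t : ℝ) : ℂ := Complex.exp (((2 * Real.pi * t : ℝ) : ℂ) * Complex.I)

theorem ee_add (s t : ℝ) : ee (s + t) = ee s * ee t := by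
  unfold ee
  rw [← Complex.exp_add]
  congr 1
  push_cast
  ring

theorem norm_ee (t : ℝ) : ‖ee t‖ = 1 := Complex.norm_exp_ofReal_mul_I _

theorem ee_zero : ee 0 = 1 := by simp [ee]

theorem ee_int (n : ℤ) : ee n = 1 := by
  unfold ee
  rw [Complex.exp_eq_one_iff]
  exact ⟨n, by push_cast; ring⟩

theorem conj_ee (t : ℝ) : (starRingEnd ℂ) (ee t) = ee (-t) := by
  unfold ee
  rw [← Complex.exp_conj, map_mul, Complex.conj_I, Complex.conj_ofReal]
  congr 1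
  push_cast
  ring

/-- Fejér kernel -/
noncomputable def ker (N : ℕ) (θ : ℝ) : ℂ :=
  ∑ n ∈ Ioo (-(N : ℤ)) N, ((1 - |(n : ℝ)| / N : ℝ) : ℂ) * ee (n * θ)

theorem fej_card (N : ℕ) (n : ℤ) (h1 : -(N : ℤ) < n) (h2 : n < N) :
    (((range N ×ˢ range N).filter fun x : ℕ × ℕ => (x.1 : ℤ) - (x.2 : ℤ) = n).card : ℤ) =
      N - |n| := by
  have h : ((range N ×ˢ range N).filter fun x : ℕ × ℕ => (x.1 : ℤ) - (x.2 : ℤ) = n).card =
      (range (N - n.natAbs)).card := by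
    refine Finset.card_nbij' (fun x => x.1 - n.toNat) (fun i => (i + n.toNat, i + (-n).toNat))
      ?_ ?_ ?_ ?_
    · intro x hx
      simp only [mem_coe, mem_filter, mem_product, mem_range] at hx ⊢
      omega
    · intro i hi
      simp only [mem_coe, mem_filter, mem_product, mem_range] at hi ⊢
      omega
    · intro x hx
      simp only [mem_coe, mem_filter, mem_product, mem_range] at hx ⊢
      ext
      · simp only
        omega
      · simp only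
        omega
    · intro i hi
      simp only [mem_coe, mem_range] at hi ⊢
      omega
  rw [h, card_range, Int.abs_eq_natAbs]
  omega

theorem ker_eq (N : ℕ) (hN : 1 ≤ N) (θ : ℝ) :
    (N : ℂ) * ker N θ = ((‖∑ j ∈ range N, ee (j * θ)‖ ^ 2 : ℝ) : ℂ) := by
  have hN0 : (N : ℝ) ≠ 0 := by positivity
  have h1 : ((‖∑ j ∈ range N, ee (j * θ)‖ ^ 2 : ℝ) : ℂ) =
      ∑ x ∈ range N ×ˢ range N, ee ((((x.1 : ℤ) - (x.2 : ℤ) : ℤ) : ℝ) * θ) := by
    rw [← Complex.normSq_eq_norm_sq, ← Complex.mul_conj, map_sum, sum_mul_sum, sum_product]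
    refine sum_congr rfl fun j _ => sum_congr rfl fun k _ => ?_
    rw [conj_ee, ← ee_add]
    congr 1
    push_cast
    ring
  have h2 : ∑ x ∈ range N ×ˢ range N, ee ((((x.1 : ℤ) - (x.2 : ℤ) : ℤ) : ℝ) * θ) =
      ∑ n ∈ Ioo (-(N : ℤ)) N, ∑ x ∈ (range N ×ˢ range N).filter
        fun x : ℕ × ℕ => (x.1 : ℤ) - (x.2 : ℤ) = n,
          ee ((((x.1 : ℤ) - (x.2 : ℤ) : ℤ) : ℝ) * θ) := by
    symm
    refine sum_fiberwise_of_maps_to (g := fun x : ℕ × ℕ => (x.1 : ℤ) - (x.2 : ℤ)) ?_ _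
    intro x hx
    simp only [mem_product, mem_range] at hx
    rw [mem_Ioo]
    omega
  rw [h1, h2, ker, mul_sum]
  refine sum_congr rfl fun n hn => ?_
  rw [mem_Ioo] at hn
  have h3 : ∑ x ∈ (range N ×ˢ range N).filter fun x : ℕ × ℕ => (x.1 : ℤ) - (x.2 : ℤ) = n,
      ee ((((x.1 : ℤ) - (x.2 : ℤ) : ℤ) : ℝ) * θ) =
      ∑ x ∈ (range N ×ˢ range N).filter fun x : ℕ × ℕ => (x.1 : ℤ) - (x.2 : ℤ) = n,
        ee (n * θ) := by
    refine sum_congr rfl fun x hx => ?_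
    rw [(mem_filter.1 hx).2]
  rw [h3, sum_const, nsmul_eq_mul, ← mul_assoc]
  congr 1
  have h4 := fej_card N n hn.1 hn.2
  have h5 : ((((range N ×ˢ range N).filter
      fun x : ℕ × ℕ => (x.1 : ℤ) - (x.2 : ℤ) = n).card : ℕ) : ℝ) = N - |(n : ℝ)| := by
    have := congrArg (fun z : ℤ => (z : ℝ)) h4
    push_cast at this
    exact this
  have h6 : ((((range N ×ˢ range N).filter
      fun x : ℕ × ℕ => (x.1 : ℤ) - (x.2 : ℤ) = n).card : ℕ) : ℂ) =
        ((N - |(n : ℝ)| : ℝ) : ℂ) := by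
    rw [← h5]
    push_cast
    rfl
  rw [h6, ← Complex.ofReal_natCast, ← Complex.ofReal_mul]
  congr 1
  field_simp

theorem fej_norm (N : ℕ) (hN : 1 ≤ N) (θ : ℝ) :
    (N : ℝ) * ‖ker N θ‖ = ‖∑ j ∈ range N, ee (j * θ)‖ ^ 2 := by
  have h := congrArg norm (ker_eq N hN θ)
  rw [norm_mul, Complex.norm_real, Complex.norm_natCast, Real.norm_of_nonneg (by positivity)] at h
  exact h

theorem ker_le (N : ℕ) (hN : 1 ≤ N) (θ : ℝ) : ‖ker N θ‖ ≤ N := by
  have hN0 : (0 : ℝ) < N := by positivity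
  have h := fej_norm N hN θ
  have h1 : ‖∑ j ∈ range N, ee (j * θ)‖ ≤ N := by
    refine (norm_sum_le _ _).trans ?_
    simp [norm_ee]
  have h2 : ‖∑ j ∈ range N, ee (j * θ)‖ ^ 2 ≤ (N : ℝ) * N := by
    rw [sq]
    exact mul_le_mul h1 h1 (norm_nonneg _) hN0.le
  rw [← h] at h2
  exact le_of_mul_le_mul_left h2 hN0

theorem fej_pow (t : ℝ) (j : ℕ) : ee (j * t) = ee t ^ j := by
  induction j with
  | zero => simp [ee_zero]
  | succ j ih =>
    rw [pow_succ, ← ih, ← ee_add]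
    congr 1
    push_cast
    ring

theorem fej_low (t : ℝ) (ht : |t| ≤ 1 / 2) : 4 * |t| ≤ ‖ee t - 1‖ := by
  have h1 : ‖ee t - 1‖ = ‖2 * Real.sin (2 * Real.pi * t / 2)‖ := by
    rw [← Complex.norm_exp_I_mul_ofReal_sub_one, ee, mul_comm]
  have h2 : 2 * Real.pi * t / 2 = Real.pi * t := by ring
  rw [h1, h2, norm_mul, Real.norm_eq_abs, Real.norm_eq_abs, abs_two]
  have hpi := Real.pi_pos
  have key : ∀ u : ℝ, 0 ≤ u → u ≤ 1 / 2 → 4 * u ≤ 2 * |Real.sin (Real.pi * u)| := by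
    intro u h0 hu
    have h3 : 0 ≤ Real.pi * u := by positivity
    have h4 : Real.pi * u ≤ Real.pi / 2 := by nlinarith
    have h5 := Real.mul_le_sin h3 h4
    have h6 : 2 / Real.pi * (Real.pi * u) = 2 * u := by field_simp
    rw [h6] at h5
    have h7 := le_abs_self (Real.sin (Real.pi * u))
    linarith
  rcases le_total 0 t with h | h
  · rw [abs_of_nonneg h] at ht ⊢
    exact key t h ht
  · rw [abs_of_nonpos h] at ht ⊢
    have h8 := key (-t) (by linarith) ht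
    rwa [mul_neg Real.pi t, Real.sin_neg, abs_neg] at h8

theorem ker_le' (N : ℕ) (hN : 1 ≤ N) (θ : ℝ) (m : ℤ) (h1 : |θ - m| ≤ 1 / 2) (h0 : θ ≠ m) :
    ‖ker N θ‖ ≤ 1 / (4 * N * (θ - m) ^ 2) := by
  have hN0 : (0 : ℝ) < N := by positivity
  set t : ℝ := θ - m with ht
  have ht0 : t ≠ 0 := sub_ne_zero.2 h0
  have h2 : ∀ j : ℕ, ee (j * θ) = ee t ^ j := by
    intro j
    have h3 : (j : ℝ) * θ = j * t + ((j * m : ℤ) : ℝ) := by
      push_cast
      rw [ht]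
      ring
    rw [h3, ee_add, ee_int, mul_one, fej_pow]
  have h4 : (∑ j ∈ range N, ee (j * θ)) * (ee t - 1) = ee t ^ N - 1 := by
    simp only [h2]
    exact geom_sum_mul _ _
  have h5 : ‖∑ j ∈ range N, ee (j * θ)‖ * ‖ee t - 1‖ ≤ 2 := by
    rw [← norm_mul, h4]
    refine (norm_sub_le _ _).trans ?_
    rw [norm_pow, norm_ee, one_pow, norm_one]
    norm_num
  have h6 := fej_low t h1
  have h7 : 0 < |t| := abs_pos.2 ht0
  have h8 : ‖∑ j ∈ range N, ee (j * θ)‖ * (2 * |t|) ≤ 1 := by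
    have := mul_le_mul_of_nonneg_left h6 (norm_nonneg (∑ j ∈ range N, ee (j * θ)))
    nlinarith
  have h9 : ‖∑ j ∈ range N, ee (j * θ)‖ ^ 2 * (4 * t ^ 2) ≤ 1 := by
    have h10 : ‖∑ j ∈ range N, ee (j * θ)‖ ^ 2 * (4 * t ^ 2) =
        (‖∑ j ∈ range N, ee (j * θ)‖ * (2 * |t|)) ^ 2 := by
      rw [mul_pow, mul_pow, sq_abs]
      ring
    rw [h10]
    exact pow_le_one₀ (by positivity) h8
  have ht2 : 0 < t ^ 2 := by positivity
  rw [le_div_iff₀ (by positivity)]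
  calc ‖ker N θ‖ * (4 * N * t ^ 2) = (N * ‖ker N θ‖) * (4 * t ^ 2) := by ring
    _ ≤ 1 := by rw [fej_norm N hN θ]; exact h9

end Pool.Agent.H21.BV
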