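import Mathlib

/-!
[H21 BV SPC]  A sum over well spaced real numbers.

Proof.  Consider the `j ∈ s` with `t j > 0`; put `l j = ⌊t j / δ⌋₊ ≥ 1` (`t j ≥ δ`).  `l` is injective on
these `j`: if `l j = l k`, `j ≠ k`, then `|t j / δ - t k / δ| < 1`, against the spacing.  As
`t j ≥ δ l j`, `∑ 1/(t j)^2 ≤ δ^{-2} ∑_j 1/(l j)^2 ≤ δ^{-2} ∑_{l ∈ image} 1/l^2 ≤ 2 δ^{-2}` (for a finite
set of positive integers `∑ 1/l^2 ≤ 1 + ∑_{l ≥ 2} 1/(l(l-1)) ≤ 2`; e.g. contained in `Icc 1 n`, induction: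
`∑_{l ≤ n} 1/l^2 ≤ 2 - 1/n`).  The same for the `j` with `t j < 0`.
-/

namespace Pool.Agent.H21.BV

open Finset

theorem sum_inv_sq_Icc (n : ℕ) : ∑ m ∈ Icc 1 (n + 1), 1 / ((m : ℕ) : ℝ) ^ 2 ≤ 2 - 1 / ((n : ℝ) + 1) := by
  induction n with
  | zero => norm_num
  | succ n ih =>
    rw [Finset.sum_Icc_succ_top (by omega)]
    have h1 : (0 : ℝ) < (n : ℝ) + 1 := by positivity
    have h2 : (0 : ℝ) < (n : ℝ) + 1 + 1 := by positivity
    have h3 : 1 / (((n + 1 + 1 : ℕ) : ℕ) : ℝ) ^ 2 ≤ 1 / ((n : ℝ) + 1) - 1 / ((n : ℝ) + 1 + 1) := by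
      push_cast
      rw [div_sub_div _ _ h1.ne' h2.ne', div_le_div_iff₀ (by positivity) (by positivity)]
      nlinarith
    push_cast at h3 ⊢
    linarith

theorem sum_inv_sq_le_two (u : Finset ℕ) (hu : ∀ m ∈ u, 1 ≤ m) :
    ∑ m ∈ u, 1 / (m : ℝ) ^ 2 ≤ 2 := by
  have hsub : u ⊆ Icc 1 (u.sup id + 1) := by
    intro m hm
    have := Finset.le_sup (f := id) hm
    simp only [id] at this
    exact Finset.mem_Icc.mpr ⟨hu m hm, by omega⟩
  refine (Finset.sum_le_sum_of_subset_of_nonneg hsub (fun i _ _ => by positivity)).trans ?_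
  refine (sum_inv_sq_Icc (u.sup id)).trans ?_
  have : (0 : ℝ) ≤ 1 / (((u.sup id : ℕ) : ℝ) + 1) := by positivity
  linarith

theorem spaced_sum_pos {ι : Type*} (s : Finset ι) (t : ι → ℝ) (δ : ℝ) (hδ : 0 < δ)
    (h0 : ∀ j ∈ s, δ ≤ t j) (hs : ∀ j ∈ s, ∀ k ∈ s, j ≠ k → δ ≤ |t j - t k|) :
    ∑ j ∈ s, 1 / (t j) ^ 2 ≤ 2 / δ ^ 2 := by
  classical
  set l : ι → ℕ := fun j => ⌊t j / δ⌋₊ with hl
  have hl1 : ∀ j ∈ s, 1 ≤ l j := by
    intro j hj
    rw [hl]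
    refine Nat.le_floor ?_
    rw [le_div_iff₀ hδ]
    simpa using h0 j hj
  have hle : ∀ j ∈ s, δ * (l j : ℝ) ≤ t j := by
    intro j hj
    have h := Nat.floor_le (div_nonneg (hδ.le.trans (h0 j hj)) hδ.le)
    rw [le_div_iff₀ hδ] at h
    rw [mul_comm]
    exact h
  have hlt : ∀ j ∈ s, t j < δ * ((l j : ℝ) + 1) := by
    intro j hj
    have h := Nat.lt_floor_add_one (t j / δ)
    rw [div_lt_iff₀ hδ] at h
    rw [mul_comm]
    exact h
  have hinj : Set.InjOn l s := by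
    intro j hj k hk hjk
    by_contra hne
    have h1 := hs j hj k hk hne
    have a1 := hle j hj
    have a2 := hlt j hj
    have b1 := hle k hk
    have b2 := hlt k hk
    rw [← hjk] at b1 b2
    have : |t j - t k| < δ := by
      rw [abs_lt]
      constructor <;> linarith
    linarith
  calc ∑ j ∈ s, 1 / (t j) ^ 2 ≤ ∑ j ∈ s, (1 / δ ^ 2) * (1 / (l j : ℝ) ^ 2) := by
        refine Finset.sum_le_sum (fun j hj => ?_)
        have h1 : (0 : ℝ) < (l j : ℝ) := by exact_mod_cast hl1 j hj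
        have h2 : 0 < δ * (l j : ℝ) := by positivity
        rw [one_div_mul_one_div, ← mul_pow]
        exact one_div_le_one_div_of_le (by positivity) (pow_le_pow_left₀ h2.le (hle j hj) 2)
    _ = (1 / δ ^ 2) * ∑ m ∈ s.image l, 1 / (m : ℝ) ^ 2 := by
        rw [← Finset.mul_sum, Finset.sum_image hinj]
    _ ≤ (1 / δ ^ 2) * 2 := by
        refine mul_le_mul_of_nonneg_left (sum_inv_sq_le_two _ ?_) (by positivity)
        intro m hm
        obtain ⟨j, hj, rfl⟩ := Finset.mem_image.mp hm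
        exact hl1 j hj
    _ = 2 / δ ^ 2 := by ring

theorem spaced_sum {ι : Type*} (s : Finset ι) (t : ι → ℝ) (δ : ℝ) (hδ : 0 < δ)
    (h0 : ∀ j ∈ s, δ ≤ |t j|) (hs : ∀ j ∈ s, ∀ k ∈ s, j ≠ k → δ ≤ |t j - t k|) :
    ∑ j ∈ s, 1 / (t j) ^ 2 ≤ 4 / δ ^ 2 := by
  classical
  rw [← Finset.sum_filter_add_sum_filter_not s (fun j => 0 < t j)]
  have h1 : ∑ j ∈ s.filter (fun j => 0 < t j), 1 / (t j) ^ 2 ≤ 2 / δ ^ 2 := by
    refine spaced_sum_pos _ t δ hδ ?_ ?_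
    · intro j hj
      rw [Finset.mem_filter] at hj
      have := h0 j hj.1
      rwa [abs_of_pos hj.2] at this
    · intro j hj k hk hjk
      rw [Finset.mem_filter] at hj hk
      exact hs j hj.1 k hk.1 hjk
  have h2 : ∑ j ∈ s.filter (fun j => ¬ 0 < t j), 1 / (t j) ^ 2 ≤ 2 / δ ^ 2 := by
    have h := spaced_sum_pos (s.filter (fun j => ¬ 0 < t j)) (fun j => - t j) δ hδ ?_ ?_
    · simpa using h
    · intro j hj
      rw [Finset.mem_filter, not_lt] at hj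
      have := h0 j hj.1
      rwa [abs_of_nonpos hj.2] at this
    · intro j hj k hk hjk
      rw [Finset.mem_filter] at hj hk
      have := hs j hj.1 k hk.1 hjk
      rw [show -t j - -t k = -(t j - t k) by ring, abs_neg]
      exact this
  have h3 : (4 : ℝ) / δ ^ 2 = 2 / δ ^ 2 + 2 / δ ^ 2 := by ring
  rw [h3]
  exact add_le_add h1 h2

end Pool.Agent.H21.BV
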