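import Pool.Agent.H21.BV.Fej
import Pool.Agent.H21.BV.Spc

/-!
[H21 BV ALS]  The additive large sieve (duality with the Fejér kernel).

Proof.  (The structure is the one of `Pool/Agent/H21/MT/Cls.lean`, `cls_dual` and `cls`, which may be
copied.)  Let `K = 2 N + ⌈1/δ⌉₊ (≥ 1)`, `S i = ∑_{n ∈ Ioc M (M+N)} a n ee(n α i)`.
(1) Dual inequality: for all `b : ι → ℂ`,
    `∑_{n ∈ Ioc M (M+N)} ‖∑_{i ∈ s} conj(b i) ee(n α i)‖^2 ≤ 4 K ∑ ‖b i‖^2`.
    For `n ∈ Ioc M (M+N)`, `|n - M| ≤ N ≤ K/2`, so `1 ≤ 2 (1 - |n-M|/K)`; extend the sum to all integers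
    `n` with `|n - M| < K` with the weights `2 (1 - |n-M|/K) ≥ 0`.  Expanding the square it becomes
    `2 ∑_{i,j} conj(b i) b j ee(M (α i - α j)) ker K (α i - α j)`, of norm at most
    `2 ∑_{i,j} (‖b i‖^2 + ‖b j‖^2)/2 ‖ker K (α i - α j)‖ ≤ 2 ∑_i ‖b i‖^2 max_i ∑_j ‖ker K (α i - α j)‖`
    (`‖ker K (-θ)‖ = ‖ker K θ‖` by `ker_eq` or by symmetry of the sum).
    For fixed `i`: the term `j = i` is `≤ K` (`ker_le`); for `j ≠ i` put `m j = round (α i - α j)`,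
    `t j = α i - α j - m j`, so `|t j| ≤ 1/2`, `|t j| ≥ δ` and `|t j - t k| ≥ δ` for `j ≠ k` (`hsp`), hence by
    `ker_le'` and `spaced_sum` `∑_{j ≠ i} ≤ (1/(4K)) (4/δ^2) = 1/(K δ^2) ≤ 1/δ ≤ K`.
    Together `2 * 2K = 4K`.
(2) Duality as in `cls`: `∑_i ‖S i‖^2 = ∑_n a n ∑_i conj(S i) ee(n α i) ≤ (∑‖a n‖^2)^{1/2} (4K ∑‖S i‖^2)^{1/2}`.
(3) `4 K ≤ 8 N + 4/δ + 4`.
-/

namespace Pool.Agent.H21.BV

open Finset

private theorem als_row {ι : Type*} (s : Finset ι) (β : ι → ℝ) (δ : ℝ) (hδ : 0 < δ) (K : ℕ)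
    (hK : 1 ≤ K) (hδK : 1 / δ ≤ K) (i₀ : ι) (hi₀ : i₀ ∈ s) (h0 : β i₀ = 0)
    (hsp : ∀ j ∈ s, ∀ k ∈ s, j ≠ k → ∀ n : ℤ, δ ≤ |β j - β k - n|) :
    ∑ j ∈ s, ‖ker K (β j)‖ ≤ 2 * K := by
  classical
  have hK0 : (0 : ℝ) < K := by exact_mod_cast hK
  rw [← Finset.add_sum_erase s _ hi₀]
  have h1 : ‖ker K (β i₀)‖ ≤ K := ker_le K hK _
  set t : ι → ℝ := fun j => β j - round (β j) with ht
  have ht1 : ∀ j ∈ s.erase i₀, δ ≤ |t j| := by
    intro j hj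
    have h2 := hsp j (Finset.mem_of_mem_erase hj) i₀ hi₀ (Finset.ne_of_mem_erase hj) (round (β j))
    rw [h0, sub_zero] at h2
    exact h2
  have ht2 : ∀ j ∈ s.erase i₀, ∀ k ∈ s.erase i₀, j ≠ k → δ ≤ |t j - t k| := by
    intro j hj k hk hjk
    have h2 := hsp j (Finset.mem_of_mem_erase hj) k (Finset.mem_of_mem_erase hk) hjk
      (round (β j) - round (β k))
    have h3 : t j - t k = β j - β k - ((round (β j) - round (β k) : ℤ) : ℝ) := by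
      simp only [ht]
      push_cast
      ring
    rw [h3]
    exact h2
  have h2 := spaced_sum (s.erase i₀) t δ hδ ht1 ht2
  have h3 : ∀ j ∈ s.erase i₀, ‖ker K (β j)‖ ≤ 1 / (4 * K) * (1 / (t j) ^ 2) := by
    intro j hj
    have h4 := ht1 j hj
    have h5 : β j ≠ round (β j) := by
      intro h6
      have h7 : t j = 0 := by simp only [ht]; rw [← h6, sub_self]
      rw [h7, abs_zero] at h4
      linarith
    have h8 := ker_le' K hK (β j) (round (β j)) (abs_sub_round _) h5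
    refine h8.trans (le_of_eq ?_)
    simp only [ht]
    rw [one_div, one_div, one_div, ← mul_inv]
  have h4 : ∑ j ∈ s.erase i₀, ‖ker K (β j)‖ ≤ K := by
    calc ∑ j ∈ s.erase i₀, ‖ker K (β j)‖ ≤ ∑ j ∈ s.erase i₀, 1 / (4 * K) * (1 / (t j) ^ 2) :=
          Finset.sum_le_sum h3
      _ = 1 / (4 * K) * ∑ j ∈ s.erase i₀, 1 / (t j) ^ 2 := by rw [Finset.mul_sum]
      _ ≤ 1 / (4 * K) * (4 / δ ^ 2) := mul_le_mul_of_nonneg_left h2 (by positivity)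
      _ = (1 / δ) ^ 2 / K := by field_simp
      _ ≤ (K : ℝ) ^ 2 / K := by
          gcongr
      _ = K := by field_simp
  linarith

private theorem als_dual {ι : Type*} (s : Finset ι) (α : ι → ℝ) (δ : ℝ) (hδ : 0 < δ)
    (hsp : ∀ i ∈ s, ∀ j ∈ s, i ≠ j → ∀ n : ℤ, δ ≤ |α i - α j - n|) (M N K : ℕ)
    (hK : 2 * N + 1 ≤ K) (hδK : 1 / δ ≤ K) (b : ι → ℂ) :
    ∑ n ∈ Ioc M (M + N), ‖∑ i ∈ s, (starRingEnd ℂ) (b i) * ee (n * α i)‖ ^ 2 ≤
      4 * K * ∑ i ∈ s, ‖b i‖ ^ 2 := by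
  classical
  have hK1 : 1 ≤ K := by omega
  have hK0 : (0 : ℝ) < K := by exact_mod_cast hK1
  set wt : ℤ → ℝ := fun n => 1 - |(n : ℝ)| / K with hwt
  set Hz : ℤ → ℂ := fun n => ∑ i ∈ s, (starRingEnd ℂ) (b i) * ee ((M + n) * α i) with hHz
  have hwt0 : ∀ n ∈ Ioo (-(K : ℤ)) K, 0 ≤ wt n := by
    intro n hn
    have h1 := Finset.mem_Ioo.1 hn
    simp only [hwt]
    rw [sub_nonneg, div_le_one hK0, abs_le]
    constructor
    · have h2 : (-(K : ℤ) : ℝ) < n := by exact_mod_cast h1.1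
      push_cast at h2
      linarith
    · have h2 : (n : ℝ) < ((K : ℤ) : ℝ) := by exact_mod_cast h1.2
      push_cast at h2
      linarith
  have hstep1 : ∑ n ∈ Ioc M (M + N), ‖∑ i ∈ s, (starRingEnd ℂ) (b i) * ee (n * α i)‖ ^ 2 ≤
      2 * ∑ n ∈ Ioo (-(K : ℤ)) K, wt n * ‖Hz n‖ ^ 2 := by
    have h1 : ∀ n ∈ Ioc M (M + N),
        ‖∑ i ∈ s, (starRingEnd ℂ) (b i) * ee (n * α i)‖ ^ 2 ≤
          2 * (wt ((n : ℤ) - M) * ‖Hz ((n : ℤ) - M)‖ ^ 2) := by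
      intro n hn
      have h2 := Finset.mem_Ioc.1 hn
      have h3 : Hz ((n : ℤ) - M) = ∑ i ∈ s, (starRingEnd ℂ) (b i) * ee (n * α i) := by
        simp only [hHz]
        refine Finset.sum_congr rfl fun i _ => ?_
        congr 2
        push_cast
        ring
      rw [h3]
      have h4 : 1 ≤ 2 * wt ((n : ℤ) - M) := by
        simp only [hwt]
        have h5 : |(((n : ℤ) - M : ℤ) : ℝ)| ≤ N := by
          rw [abs_le]
          have h6 : (M : ℝ) < n := by exact_mod_cast h2.1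
          have h7 : (n : ℝ) ≤ M + N := by exact_mod_cast h2.2
          push_cast
          constructor <;> linarith [(Nat.cast_nonneg N : (0 : ℝ) ≤ N)]
        have h8 : (2 * (N : ℝ) + 1) ≤ K := by exact_mod_cast hK
        have h9 : |(((n : ℤ) - M : ℤ) : ℝ)| / K ≤ 1 / 2 := by
          rw [div_le_iff₀ hK0]
          linarith
        linarith
      have h10 : 0 ≤ ‖∑ i ∈ s, (starRingEnd ℂ) (b i) * ee (n * α i)‖ ^ 2 := sq_nonneg _
      nlinarith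
    refine (Finset.sum_le_sum h1).trans ?_
    rw [← Finset.mul_sum]
    apply mul_le_mul_of_nonneg_left _ (by norm_num)
    have h2 : ∑ n ∈ Ioc M (M + N), wt ((n : ℤ) - M) * ‖Hz ((n : ℤ) - M)‖ ^ 2 =
        ∑ n ∈ (Ioc M (M + N)).image (fun n : ℕ => (n : ℤ) - M), wt n * ‖Hz n‖ ^ 2 := by
      rw [Finset.sum_image]
      intro x _ y _ hxy
      simp only [sub_left_inj] at hxy
      exact_mod_cast hxy
    rw [h2]
    apply Finset.sum_le_sum_of_subset_of_nonneg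
    · intro n hn
      obtain ⟨m, hm, rfl⟩ := Finset.mem_image.1 hn
      have h3 := Finset.mem_Ioc.1 hm
      rw [Finset.mem_Ioo]
      constructor <;> omega
    · intro n hn _
      exact mul_nonneg (hwt0 n hn) (sq_nonneg _)
  have hexp : ((∑ n ∈ Ioo (-(K : ℤ)) K, wt n * ‖Hz n‖ ^ 2 : ℝ) : ℂ) =
      ∑ i ∈ s, ∑ j ∈ s, (starRingEnd ℂ) (b i) * b j * ee (M * (α i - α j)) *
        ker K (α i - α j) := by
    have h1 : ∀ n ∈ Ioo (-(K : ℤ)) K, ((wt n * ‖Hz n‖ ^ 2 : ℝ) : ℂ) =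
        ∑ i ∈ s, ∑ j ∈ s, (starRingEnd ℂ) (b i) * b j * ee (M * (α i - α j)) *
          (((1 - |(n : ℝ)| / K : ℝ) : ℂ) * ee (n * (α i - α j))) := by
      intro n _
      rw [Complex.ofReal_mul, Complex.ofReal_pow, ← Complex.mul_conj']
      simp only [hHz]
      rw [map_sum, Finset.sum_mul_sum, Finset.mul_sum]
      refine Finset.sum_congr rfl fun i _ => ?_
      rw [Finset.mul_sum]
      refine Finset.sum_congr rfl fun j _ => ?_
      rw [map_mul, Complex.conj_conj, conj_ee]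
      have h2 : ee (M * (α i - α j)) * ee (n * (α i - α j)) =
          ee ((M + n) * α i) * ee (-((M + n) * α j)) := by
        rw [← ee_add, ← ee_add]
        congr 1
        ring
      simp only [hwt]
      calc ((1 - |(n : ℝ)| / K : ℝ) : ℂ) * ((starRingEnd ℂ) (b i) * ee ((M + n) * α i) *
            (b j * ee (-((M + n) * α j)))) =
          (starRingEnd ℂ) (b i) * b j * ((1 - |(n : ℝ)| / K : ℝ) : ℂ) *
            (ee ((M + n) * α i) * ee (-((M + n) * α j))) := by ring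
        _ = _ := by rw [← h2]; ring
    rw [Complex.ofReal_sum, Finset.sum_congr rfl h1, Finset.sum_comm]
    refine Finset.sum_congr rfl fun i _ => ?_
    rw [Finset.sum_comm]
    refine Finset.sum_congr rfl fun j _ => ?_
    rw [← Finset.mul_sum]
    rfl
  set g : ι → ι → ℝ := fun i j => ‖ker K (α i - α j)‖ with hg
  have hg0 : ∀ i j, 0 ≤ g i j := fun i j => norm_nonneg _
  have hrow : ∀ i ∈ s, ∑ j ∈ s, g i j ≤ 2 * K := by
    intro i hi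
    refine als_row s (fun j => α i - α j) δ hδ K hK1 hδK i hi (sub_self _) ?_
    intro j hj k hk hjk n
    have h1 := hsp k hk j hj hjk.symm n
    have h2 : α i - α j - (α i - α k) - (n : ℝ) = α k - α j - n := by ring
    rw [h2]
    exact h1
  have hcol : ∀ j ∈ s, ∑ i ∈ s, g i j ≤ 2 * K := by
    intro j hj
    refine als_row s (fun i => α i - α j) δ hδ K hK1 hδK j hj (sub_self _) ?_
    intro i hi k hk hik n
    have h1 := hsp i hi k hk hik n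
    have h2 : α i - α j - (α k - α j) - (n : ℝ) = α i - α k - n := by ring
    rw [h2]
    exact h1
  have hnn : 0 ≤ ∑ n ∈ Ioo (-(K : ℤ)) K, wt n * ‖Hz n‖ ^ 2 :=
    Finset.sum_nonneg fun n hn => mul_nonneg (hwt0 n hn) (sq_nonneg _)
  have hstep2 : ∑ n ∈ Ioo (-(K : ℤ)) K, wt n * ‖Hz n‖ ^ 2 ≤
      ∑ i ∈ s, ∑ j ∈ s, ‖b i‖ * ‖b j‖ * g i j := by
    have h2 : ∑ n ∈ Ioo (-(K : ℤ)) K, wt n * ‖Hz n‖ ^ 2 =
        ‖∑ i ∈ s, ∑ j ∈ s, (starRingEnd ℂ) (b i) * b j * ee (M * (α i - α j)) *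
        ker K (α i - α j)‖ := by
      rw [← hexp, Complex.norm_real, Real.norm_of_nonneg hnn]
    rw [h2]
    refine (norm_sum_le _ _).trans (Finset.sum_le_sum fun i _ => ?_)
    refine (norm_sum_le _ _).trans (Finset.sum_le_sum fun j _ => ?_)
    rw [norm_mul, norm_mul, norm_mul, RCLike.norm_conj, norm_ee, mul_one]
  have hstep3 : ∑ i ∈ s, ∑ j ∈ s, ‖b i‖ * ‖b j‖ * g i j ≤
      ∑ i ∈ s, ∑ j ∈ s, (‖b i‖ ^ 2 / 2 * g i j + ‖b j‖ ^ 2 / 2 * g i j) := by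
    refine Finset.sum_le_sum fun i _ => Finset.sum_le_sum fun j _ => ?_
    have h4 : ‖b i‖ * ‖b j‖ ≤ ‖b i‖ ^ 2 / 2 + ‖b j‖ ^ 2 / 2 := by
      nlinarith [sq_nonneg (‖b i‖ - ‖b j‖)]
    have h5 := mul_le_mul_of_nonneg_right h4 (hg0 i j)
    linarith
  have h6 : ∑ i ∈ s, ∑ j ∈ s, ‖b i‖ ^ 2 / 2 * g i j ≤ K * ∑ i ∈ s, ‖b i‖ ^ 2 := by
    rw [Finset.mul_sum]
    refine Finset.sum_le_sum fun i hi => ?_
    rw [← Finset.mul_sum]
    have h7 := hrow i hi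
    have h8 : 0 ≤ ‖b i‖ ^ 2 / 2 := by positivity
    have h9 := mul_le_mul_of_nonneg_left h7 h8
    linarith
  have h10 : ∑ i ∈ s, ∑ j ∈ s, ‖b j‖ ^ 2 / 2 * g i j ≤ K * ∑ i ∈ s, ‖b i‖ ^ 2 := by
    rw [Finset.sum_comm, Finset.mul_sum]
    refine Finset.sum_le_sum fun j hj => ?_
    rw [← Finset.mul_sum]
    have h7 := hcol j hj
    have h8 : 0 ≤ ‖b j‖ ^ 2 / 2 := by positivity
    have h9 := mul_le_mul_of_nonneg_left h7 h8
    linarith
  have h11 := hstep2.trans hstep3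
  simp only [Finset.sum_add_distrib] at h11
  linarith

theorem add_ls {ι : Type*} (s : Finset ι) (α : ι → ℝ) (δ : ℝ) (hδ : 0 < δ)
    (hsp : ∀ i ∈ s, ∀ j ∈ s, i ≠ j → ∀ n : ℤ, δ ≤ |α i - α j - n|) (M N : ℕ) (a : ℕ → ℂ) :
    ∑ i ∈ s, ‖∑ n ∈ Ioc M (M + N), a n * ee (n * α i)‖ ^ 2 ≤
      8 * (N + 1 / δ + 1) * ∑ n ∈ Ioc M (M + N), ‖a n‖ ^ 2 := by
  classical
  set K : ℕ := 2 * N + ⌈1 / δ⌉₊ with hKdef
  have hceil : 1 ≤ ⌈1 / δ⌉₊ := Nat.one_le_ceil_iff.2 (by positivity)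
  have hK : 2 * N + 1 ≤ K := by omega
  have hδK : 1 / δ ≤ (K : ℝ) := by
    rw [hKdef]
    push_cast
    have := Nat.le_ceil (1 / δ)
    have h2 : (0 : ℝ) ≤ N := Nat.cast_nonneg N
    linarith
  have hK4 : 4 * (K : ℝ) ≤ 8 * (N + 1 / δ + 1) := by
    rw [hKdef]
    push_cast
    have h1 := Nat.ceil_lt_add_one (show 0 ≤ 1 / δ by positivity)
    have h3 : 0 < 1 / δ := by positivity
    linarith
  set S : ι → ℂ := fun i => ∑ n ∈ Ioc M (M + N), a n * ee (n * α i) with hS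
  set F : ℕ → ℂ := fun n => ∑ i ∈ s, (starRingEnd ℂ) (S i) * ee (n * α i) with hF
  set T : ℝ := ∑ i ∈ s, ‖S i‖ ^ 2 with hT
  have hT0 : 0 ≤ T := Finset.sum_nonneg fun _ _ => sq_nonneg _
  have hdual : ∑ n ∈ Ioc M (M + N), ‖F n‖ ^ 2 ≤ 4 * K * T :=
    als_dual s α δ hδ hsp M N K hK hδK S
  have hTF : (T : ℂ) = ∑ n ∈ Ioc M (M + N), a n * F n := by
    rw [hT, Complex.ofReal_sum]
    have h1 : ∀ i ∈ s, ((‖S i‖ ^ 2 : ℝ) : ℂ) =
        ∑ n ∈ Ioc M (M + N), a n * ((starRingEnd ℂ) (S i) * ee (n * α i)) := by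
      intro i _
      rw [Complex.ofReal_pow, ← Complex.mul_conj']
      conv_lhs => rw [hS]
      simp only
      rw [Finset.sum_mul]
      refine Finset.sum_congr rfl fun n _ => ?_
      ring
    rw [Finset.sum_congr rfl h1, Finset.sum_comm]
    refine Finset.sum_congr rfl fun n _ => ?_
    rw [hF]
    simp only
    rw [Finset.mul_sum]
  have hTle : T ≤ ∑ n ∈ Ioc M (M + N), ‖a n‖ * ‖F n‖ := by
    have h1 : T = ‖∑ n ∈ Ioc M (M + N), a n * F n‖ := by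
      rw [← hTF, Complex.norm_real, Real.norm_of_nonneg hT0]
    rw [h1]
    refine (norm_sum_le _ _).trans (le_of_eq ?_)
    exact Finset.sum_congr rfl fun n _ => norm_mul _ _
  have hCS := Finset.sum_mul_sq_le_sq_mul_sq (Ioc M (M + N)) (fun n => ‖a n‖) (fun n => ‖F n‖)
  set A2 : ℝ := ∑ n ∈ Ioc M (M + N), ‖a n‖ ^ 2 with hA2
  have hA0 : 0 ≤ A2 := Finset.sum_nonneg fun _ _ => sq_nonneg _
  have h2 : T ^ 2 ≤ A2 * (4 * K * T) := by
    calc T ^ 2 ≤ (∑ n ∈ Ioc M (M + N), ‖a n‖ * ‖F n‖) ^ 2 := pow_le_pow_left₀ hT0 hTle 2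
      _ ≤ A2 * ∑ n ∈ Ioc M (M + N), ‖F n‖ ^ 2 := hCS
      _ ≤ _ := mul_le_mul_of_nonneg_left hdual hA0
  have h3 : T ≤ 4 * K * A2 := by
    rcases hT0.eq_or_lt with h | h
    · rw [← h]
      positivity
    · have h3 : T * T ≤ (4 * K * A2) * T := by nlinarith
      exact le_of_mul_le_mul_right h3 h
  exact h3.trans (mul_le_mul_of_nonneg_right hK4 hA0)

end Pool.Agent.H21.BV
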