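import Pool.Agent.H21.BV.Mls
import Pool.Agent.H21.MT.Gw

/-!
[H21 BV BX]  One dyadic box of the type II sum, with the large sieve.

Proof.  Copy `Pool/Agent/H21/MT/Box.lean` (`box0`, `box`): replace `cls_bil` (bound `2 M K A B`) by `bil`
(bound `G A B`, `G = 16 (√M + R)(√K + R) √(M K)`).  In the last step, with `M K = x e^c`, `|c| = |c0|`:
`(√M + R)(√K + R) √(MK) = M K + R (√M + √K) √(MK) + R^2 √(MK) ≤ M K (1 + 2R/√u) + R^2 √(MK)` because
`√M √(MK) = M √K = M K/√K ≤ M K/√u` and the same with `M`, `K` exchanged; and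
`M K exp(2|c| - c^2/2) ≤ x exp(9/2)`, `√(MK) exp(2|c| - c^2/2) = √x exp(c/2 + 2|c| - c^2/2) ≤ √x exp(9/2)`.
-/

namespace Pool.Agent.H21.BV

open Finset Pool.Agent.H21.MT

/-- the box with an exponential kernel -/
private theorem bx_box0 (R M K : ℕ) (hM : 1 ≤ M) (hK : 1 ≤ K) (a b : ℕ → ℂ) (A B : ℝ)
    (hA0 : 0 ≤ A) (hB0 : 0 ≤ B) (hA : ∀ m ∈ Ioc M (2 * M), ‖a m‖ ≤ A)
    (hB : ∀ k ∈ Ioc K (2 * K), ‖b k‖ ≤ B) (U V : ℕ → ℝ)
    (hU : ∀ m ∈ Ioc M (2 * M), |U m| ≤ 1) (hV : ∀ k ∈ Ioc K (2 * K), |V k| ≤ 1) :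
    ∑ c ∈ PC R, ‖∑ m ∈ Ioc M (2 * M), ∑ k ∈ Ioc K (2 * K), a m * b k *
      c.2 ((m * k : ℕ) : ZMod (c.1.val + 1)) * ((Real.exp (-(U m * V k)) : ℝ) : ℂ)‖ ≤
    Real.exp 1 * (16 * ((√(M : ℝ) + R) * (√(K : ℝ) + R) * √((M : ℝ) * K)) * A * B) := by
  set S : Ch R → ℂ := fun c => ∑ m ∈ Ioc M (2 * M), ∑ k ∈ Ioc K (2 * K), a m * b k *
      c.2 ((m * k : ℕ) : ZMod (c.1.val + 1)) * ((Real.exp (-(U m * V k)) : ℝ) : ℂ) with hS
  have hω : ∀ c, ∃ w : ℂ, ‖w‖ ≤ 1 ∧ w * S c = (‖S c‖ : ℂ) := by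
    intro c
    by_cases h0 : S c = 0
    · exact ⟨0, by simp, by simp [h0]⟩
    · have hn : (‖S c‖ : ℂ) ≠ 0 := by
        rw [Complex.ofReal_ne_zero]
        exact norm_ne_zero_iff.2 h0
      refine ⟨(starRingEnd ℂ) (S c) / (‖S c‖ : ℂ), ?_, ?_⟩
      · rw [norm_div, RCLike.norm_conj, Complex.norm_real, norm_norm,
          div_self (norm_ne_zero_iff.2 h0)]
      · rw [div_mul_eq_mul_div, div_eq_iff hn, mul_comm, Complex.mul_conj,
          Complex.normSq_eq_norm_sq]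
        push_cast
        ring
  choose w hw1 hw2 using hω
  have e1 : ((∑ c ∈ PC R, ‖S c‖ : ℝ) : ℂ) = ∑ c ∈ PC R, w c * S c := by
    push_cast
    exact sum_congr rfl fun c _ => (hw2 c).symm
  have hsr : ∀ z : ℝ, HasSum (fun n : ℕ => z ^ n / (n.factorial : ℝ)) (Real.exp z) := by
    intro z
    rw [Real.exp_eq_exp_ℝ]
    exact NormedSpace.expSeries_div_hasSum_exp z
  have hs : HasSum (fun n : ℕ => ∑ c ∈ PC R, w c * ∑ m ∈ Ioc M (2 * M), ∑ k ∈ Ioc K (2 * K),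
      a m * b k * c.2 ((m * k : ℕ) : ZMod (c.1.val + 1)) *
        (((-(U m * V k)) ^ n / (n.factorial : ℝ) : ℝ) : ℂ)) (∑ c ∈ PC R, w c * S c) := by
    refine hasSum_sum fun c _ => HasSum.mul_left _ ?_
    refine hasSum_sum fun m _ => hasSum_sum fun k _ => HasSum.mul_left _ ?_
    exact Complex.hasSum_ofReal.2 (hsr _)
  have hg : HasSum (fun n : ℕ => (1 : ℝ) ^ n / (n.factorial : ℝ) * (16 * ((√(M : ℝ) + R) * (√(K : ℝ) + R) * √((M : ℝ) * K)) * A * B))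
      (Real.exp 1 * (16 * ((√(M : ℝ) + R) * (√(K : ℝ) + R) * √((M : ℝ) * K)) * A * B)) := (hsr 1).mul_right _
  have hb := HasSum.norm_le_of_bounded hs hg ?_
  · rw [← e1, Complex.norm_real] at hb
    exact (le_abs_self _).trans hb
  · intro n
    have hfac : ∀ c ∈ PC R, ∑ m ∈ Ioc M (2 * M), ∑ k ∈ Ioc K (2 * K),
        a m * b k * c.2 ((m * k : ℕ) : ZMod (c.1.val + 1)) *
        (((-(U m * V k)) ^ n / (n.factorial : ℝ) : ℝ) : ℂ) =
        (((-1) ^ n / (n.factorial : ℝ) : ℝ) : ℂ) *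
        ((∑ m ∈ Ioc M (2 * M), (a m * ((U m : ℝ) : ℂ) ^ n) * c.2 (m : ZMod (c.1.val + 1))) *
        ∑ k ∈ Ioc K (2 * K), (b k * ((V k : ℝ) : ℂ) ^ n) * c.2 (k : ZMod (c.1.val + 1))) := by
      intro c _
      rw [sum_mul_sum, mul_sum]
      refine sum_congr rfl fun m _ => ?_
      rw [mul_sum]
      refine sum_congr rfl fun k _ => ?_
      rw [Nat.cast_mul, map_mul]
      push_cast
      rw [show -((U m : ℂ) * (V k : ℂ)) = (-1) * (U m : ℂ) * (V k : ℂ) by ring, mul_pow, mul_pow]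
      ring
    have hAU : ∀ m ∈ Ioc M (2 * M), ‖a m * ((U m : ℝ) : ℂ) ^ n‖ ≤ A := by
      intro m hm
      rw [norm_mul, norm_pow, Complex.norm_real]
      calc ‖a m‖ * ‖U m‖ ^ n ≤ A * 1 := by
            refine mul_le_mul (hA m hm) (pow_le_one₀ (norm_nonneg _) (hU m hm)) (by positivity) hA0
        _ = A := mul_one A
    have hBV : ∀ k ∈ Ioc K (2 * K), ‖b k * ((V k : ℝ) : ℂ) ^ n‖ ≤ B := by
      intro k hk
      rw [norm_mul, norm_pow, Complex.norm_real]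
      calc ‖b k‖ * ‖V k‖ ^ n ≤ B * 1 := by
            refine mul_le_mul (hB k hk) (pow_le_one₀ (norm_nonneg _) (hV k hk)) (by positivity) hB0
        _ = B := mul_one B
    have hcl := bil R M K hM hK (fun m => a m * ((U m : ℝ) : ℂ) ^ n)
      (fun k => b k * ((V k : ℝ) : ℂ) ^ n) A B hAU hBV hA0 hB0
    calc ‖∑ c ∈ PC R, w c * ∑ m ∈ Ioc M (2 * M), ∑ k ∈ Ioc K (2 * K),
        a m * b k * c.2 ((m * k : ℕ) : ZMod (c.1.val + 1)) *
        (((-(U m * V k)) ^ n / (n.factorial : ℝ) : ℝ) : ℂ)‖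
        ≤ ∑ c ∈ PC R, ‖w c * ∑ m ∈ Ioc M (2 * M), ∑ k ∈ Ioc K (2 * K),
        a m * b k * c.2 ((m * k : ℕ) : ZMod (c.1.val + 1)) *
        (((-(U m * V k)) ^ n / (n.factorial : ℝ) : ℝ) : ℂ)‖ := norm_sum_le _ _
      _ ≤ ∑ c ∈ PC R, (1 : ℝ) ^ n / (n.factorial : ℝ) *
          ‖(∑ m ∈ Ioc M (2 * M), (a m * ((U m : ℝ) : ℂ) ^ n) * c.2 (m : ZMod (c.1.val + 1))) *
        ∑ k ∈ Ioc K (2 * K), (b k * ((V k : ℝ) : ℂ) ^ n) * c.2 (k : ZMod (c.1.val + 1))‖ := by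
          refine sum_le_sum fun c hc => ?_
          rw [hfac c hc, norm_mul, norm_mul ((((-1) ^ n / (n.factorial : ℝ) : ℝ) : ℂ)),
            Complex.norm_real]
          have h1 : ‖((-1 : ℝ) ^ n / (n.factorial : ℝ))‖ = (1 : ℝ) ^ n / (n.factorial : ℝ) := by
            rw [norm_div, norm_pow, norm_neg, norm_one, Real.norm_of_nonneg (Nat.cast_nonneg _)]
          rw [h1]
          calc ‖w c‖ * _ ≤ 1 * _ := mul_le_mul_of_nonneg_right (hw1 c) (by positivity)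
            _ = _ := one_mul _
      _ = (1 : ℝ) ^ n / (n.factorial : ℝ) * _ := by rw [mul_sum]
      _ ≤ _ := mul_le_mul_of_nonneg_left hcl (by positivity)

theorem box2 (J : ℕ) : ∃ C : ℝ, 0 < C ∧ ∀ (x : ℝ), 1 ≤ x → ∀ (R M K u : ℕ), 1 ≤ u → u ≤ M → u ≤ K →
    ∀ (a b : ℕ → ℂ) (A B : ℝ), 0 ≤ A → 0 ≤ B → (∀ m ∈ Ioc M (2 * M), ‖a m‖ ≤ A) →
    (∀ k ∈ Ioc K (2 * K), ‖b k‖ ≤ B) →
    ∑ c ∈ PC R, ‖∑ m ∈ Ioc M (2 * M), ∑ k ∈ Ioc K (2 * K), a m * b k *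
      c.2 ((m * k : ℕ) : ZMod (c.1.val + 1)) *
      (((Real.log ((m * k : ℕ) : ℝ)) ^ J * gw x (m * k) : ℝ) : ℂ)‖ ≤
    C * A * B * (Real.log (4 * M * K)) ^ J * (x + 2 * R * x / √(u : ℝ) + (R : ℝ) ^ 2 * √x) := by
  refine ⟨2 ^ J * (Real.exp 1 * 16) * Real.exp (9 / 2), by positivity, ?_⟩
  intro x hx R M K u hu huM huK a b A B hA0 hB0 hA hB
  have hx0 : 0 < x := by linarith
  have hMpos : 1 ≤ M := hu.trans huM
  have hKpos : 1 ≤ K := hu.trans huK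
  have hMR : (1 : ℝ) ≤ M := by exact_mod_cast hMpos
  have hKR : (1 : ℝ) ≤ K := by exact_mod_cast hKpos
  have hM0 : (0 : ℝ) < M := by linarith
  have hK0 : (0 : ℝ) < K := by linarith
  set L := Real.log (4 * M * K) with hL
  have hL0 : 0 ≤ L := Real.log_nonneg (by nlinarith)
  set c0 := Real.log (M * K / x) with hc0
  set U : ℕ → ℝ := fun m => Real.log (m / M) with hUd
  set V : ℕ → ℝ := fun k => Real.log (k / K) with hVd
  have key : ∀ N : ℕ, (1 : ℝ) ≤ N → ∀ m ∈ Ioc N (2 * N), 0 ≤ Real.log ((m : ℝ) / N) ∧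
      Real.log ((m : ℝ) / N) ≤ 1 := by
    intro N hN m hm
    rw [mem_Ioc] at hm
    have h1 : (N : ℝ) ≤ m := by exact_mod_cast hm.1.le
    have h2 : (m : ℝ) ≤ 2 * N := by exact_mod_cast hm.2
    have hN0 : (0 : ℝ) < N := by linarith
    have h3 : 1 ≤ (m : ℝ) / N := by rw [le_div_iff₀ hN0]; linarith
    have h4 : (m : ℝ) / N ≤ 2 := by rw [div_le_iff₀ hN0]; linarith
    refine ⟨Real.log_nonneg h3, ?_⟩
    calc Real.log ((m : ℝ) / N) ≤ (m : ℝ) / N - 1 := Real.log_le_sub_one_of_pos (by linarith)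
      _ ≤ 1 := by linarith
  have hU : ∀ m ∈ Ioc M (2 * M), 0 ≤ U m ∧ U m ≤ 1 := key M hMR
  have hV : ∀ k ∈ Ioc K (2 * K), 0 ≤ V k ∧ V k ≤ 1 := key K hKR
  -- logarithms
  have hlogm : ∀ m ∈ Ioc M (2 * M), 0 ≤ Real.log m ∧ Real.log m ≤ L := by
    intro m hm
    rw [mem_Ioc] at hm
    have h1 : (1 : ℝ) ≤ m := by exact_mod_cast (by omega : 1 ≤ m)
    have h2 : (m : ℝ) ≤ 2 * M := by exact_mod_cast hm.2
    refine ⟨Real.log_nonneg h1, Real.log_le_log (by linarith) ?_⟩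
    nlinarith
  have hlogk : ∀ k ∈ Ioc K (2 * K), 0 ≤ Real.log k ∧ Real.log k ≤ L := by
    intro m hm
    rw [mem_Ioc] at hm
    have h1 : (1 : ℝ) ≤ m := by exact_mod_cast (by omega : 1 ≤ m)
    have h2 : (m : ℝ) ≤ 2 * K := by exact_mod_cast hm.2
    refine ⟨Real.log_nonneg h1, Real.log_le_log (by linarith) ?_⟩
    nlinarith
  -- the factors
  set fa : ℕ → ℕ → ℂ := fun i m => a m *
    ((Real.log m ^ i * Real.exp (-(c0 * U m) - U m ^ 2 / 2) : ℝ) : ℂ) with hfa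
  set fb : ℕ → ℕ → ℂ := fun i k => b k *
    ((Real.log k ^ i * Real.exp (-(c0 * V k) - V k ^ 2 / 2) : ℝ) : ℂ) with hfb
  have hexp : ∀ u : ℝ, 0 ≤ u → u ≤ 1 → Real.exp (-(c0 * u) - u ^ 2 / 2) ≤ Real.exp |c0| := by
    intro u h0 h1
    refine Real.exp_le_exp.2 ?_
    have h2 : -(c0 * u) ≤ |c0| := by
      calc -(c0 * u) ≤ |c0 * u| := neg_le_abs _
        _ = |c0| * u := by rw [abs_mul, abs_of_nonneg h0]
        _ ≤ |c0| * 1 := mul_le_mul_of_nonneg_left h1 (abs_nonneg _)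
        _ = |c0| := mul_one _
    nlinarith [sq_nonneg u]
  have hfaB : ∀ i, ∀ m ∈ Ioc M (2 * M), ‖fa i m‖ ≤ A * (L ^ i * Real.exp |c0|) := by
    intro i m hm
    simp only [hfa]
    rw [norm_mul, Complex.norm_real, Real.norm_of_nonneg
      (mul_nonneg (pow_nonneg (hlogm m hm).1 _) (Real.exp_pos _).le)]
    refine mul_le_mul (hA m hm) (mul_le_mul (pow_le_pow_left₀ (hlogm m hm).1 (hlogm m hm).2 _)
      (hexp _ (hU m hm).1 (hU m hm).2) (Real.exp_pos _).le (by positivity))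
      (mul_nonneg (pow_nonneg (hlogm m hm).1 _) (Real.exp_pos _).le) hA0
  have hfbB : ∀ i, ∀ k ∈ Ioc K (2 * K), ‖fb i k‖ ≤ B * (L ^ i * Real.exp |c0|) := by
    intro i m hm
    simp only [hfb]
    rw [norm_mul, Complex.norm_real, Real.norm_of_nonneg
      (mul_nonneg (pow_nonneg (hlogk m hm).1 _) (Real.exp_pos _).le)]
    refine mul_le_mul (hB m hm) (mul_le_mul (pow_le_pow_left₀ (hlogk m hm).1 (hlogk m hm).2 _)
      (hexp _ (hV m hm).1 (hV m hm).2) (Real.exp_pos _).le (by positivity))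
      (mul_nonneg (pow_nonneg (hlogk m hm).1 _) (Real.exp_pos _).le) hB0
  -- expansion of one term
  have hterm : ∀ m ∈ Ioc M (2 * M), ∀ k ∈ Ioc K (2 * K), ∀ z : ℂ,
      a m * b k * z * (((Real.log ((m * k : ℕ) : ℝ)) ^ J * gw x (m * k) : ℝ) : ℂ) =
      ∑ i ∈ range (J + 1), (((J.choose i : ℝ) * Real.exp (-(c0 ^ 2 / 2)) : ℝ) : ℂ) *
        (fa i m * fb (J - i) k * z * ((Real.exp (-(U m * V k)) : ℝ) : ℂ)) := by
    intro m hm k hk z
    have hm' := mem_Ioc.1 hm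
    have hk' := mem_Ioc.1 hk
    have hm0 : (0 : ℝ) < m := by exact_mod_cast (by omega : 0 < m)
    have hk0 : (0 : ℝ) < k := by exact_mod_cast (by omega : 0 < k)
    have h1 : Real.log ((m * k : ℕ) : ℝ) = Real.log m + Real.log k := by
      push_cast
      rw [Real.log_mul hm0.ne' hk0.ne']
    have h2 : gw x (m * k) = Real.exp (-(c0 ^ 2 / 2)) * Real.exp (-(c0 * U m) - U m ^ 2 / 2) *
        Real.exp (-(c0 * V k) - V k ^ 2 / 2) * Real.exp (-(U m * V k)) := by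
      unfold gw
      rw [← Real.exp_add, ← Real.exp_add, ← Real.exp_add]
      congr 1
      have h3 : Real.log (((m * k : ℕ) : ℝ) / x) = c0 + U m + V k := by
        simp only [hc0, hUd, hVd]
        push_cast
        rw [Real.log_div (by positivity) hx0.ne', Real.log_div (by positivity) hx0.ne',
          Real.log_div hm0.ne' hM0.ne', Real.log_div hk0.ne' hK0.ne',
          Real.log_mul hm0.ne' hk0.ne', Real.log_mul hM0.ne' hK0.ne']
        ring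
      rw [h3]
      ring
    rw [h1, h2, add_pow, sum_mul]
    push_cast
    rw [mul_sum]
    refine sum_congr rfl fun i _ => ?_
    simp only [hfa, hfb]
    push_cast
    ring
  have hsum : ∀ c ∈ PC R, ‖∑ m ∈ Ioc M (2 * M), ∑ k ∈ Ioc K (2 * K), a m * b k *
      c.2 ((m * k : ℕ) : ZMod (c.1.val + 1)) *
      (((Real.log ((m * k : ℕ) : ℝ)) ^ J * gw x (m * k) : ℝ) : ℂ)‖ ≤
      ∑ i ∈ range (J + 1), ((J.choose i : ℝ) * Real.exp (-(c0 ^ 2 / 2))) *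
        ‖∑ m ∈ Ioc M (2 * M), ∑ k ∈ Ioc K (2 * K), fa i m * fb (J - i) k *
          c.2 ((m * k : ℕ) : ZMod (c.1.val + 1)) * ((Real.exp (-(U m * V k)) : ℝ) : ℂ)‖ := by
    intro c _
    have h1 : ∑ m ∈ Ioc M (2 * M), ∑ k ∈ Ioc K (2 * K), a m * b k *
      c.2 ((m * k : ℕ) : ZMod (c.1.val + 1)) *
      (((Real.log ((m * k : ℕ) : ℝ)) ^ J * gw x (m * k) : ℝ) : ℂ) =
      ∑ i ∈ range (J + 1), (((J.choose i : ℝ) * Real.exp (-(c0 ^ 2 / 2)) : ℝ) : ℂ) *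
        ∑ m ∈ Ioc M (2 * M), ∑ k ∈ Ioc K (2 * K), fa i m * fb (J - i) k *
          c.2 ((m * k : ℕ) : ZMod (c.1.val + 1)) * ((Real.exp (-(U m * V k)) : ℝ) : ℂ) := by
      have h2 : ∀ i, (((J.choose i : ℝ) * Real.exp (-(c0 ^ 2 / 2)) : ℝ) : ℂ) *
        ∑ m ∈ Ioc M (2 * M), ∑ k ∈ Ioc K (2 * K), fa i m * fb (J - i) k *
          c.2 ((m * k : ℕ) : ZMod (c.1.val + 1)) * ((Real.exp (-(U m * V k)) : ℝ) : ℂ) =
          ∑ m ∈ Ioc M (2 * M), ∑ k ∈ Ioc K (2 * K),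
          (((J.choose i : ℝ) * Real.exp (-(c0 ^ 2 / 2)) : ℝ) : ℂ) * (fa i m * fb (J - i) k *
          c.2 ((m * k : ℕ) : ZMod (c.1.val + 1)) * ((Real.exp (-(U m * V k)) : ℝ) : ℂ)) := by
        intro i
        rw [mul_sum]
        exact sum_congr rfl fun m _ => by rw [mul_sum]
      rw [sum_congr rfl fun i _ => h2 i]
      symm
      rw [sum_comm]
      refine sum_congr rfl fun m hm => ?_
      rw [sum_comm]
      refine sum_congr rfl fun k hk => ?_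
      exact (hterm m hm k hk _).symm
    rw [h1]
    refine (norm_sum_le _ _).trans (le_of_eq (sum_congr rfl fun i _ => ?_))
    rw [norm_mul, Complex.norm_real, Real.norm_of_nonneg (by positivity)]
  set T : ℝ := (√(M : ℝ) + R) * (√(K : ℝ) + R) * √((M : ℝ) * K) with hT
  have hMK : (M : ℝ) * K = x * Real.exp c0 := by
    rw [hc0, Real.exp_log (by positivity)]
    field_simp
  have habs := le_abs_self c0
  have hsq : c0 ^ 2 = |c0| ^ 2 := (sq_abs c0).symm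
  have hfin1 : Real.exp (-(c0 ^ 2 / 2)) * (Real.exp |c0| * Real.exp |c0|) * (M * K) ≤
      Real.exp (9 / 2) * x := by
    rw [hMK]
    have h2 : Real.exp (-(c0 ^ 2 / 2)) * (Real.exp |c0| * Real.exp |c0|) * (x * Real.exp c0) =
        Real.exp (-(c0 ^ 2 / 2) + (|c0| + |c0|) + c0) * x := by
      rw [Real.exp_add, Real.exp_add, Real.exp_add]
      ring
    rw [h2]
    refine mul_le_mul_of_nonneg_right (Real.exp_le_exp.2 ?_) hx0.le
    rw [hsq]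
    nlinarith [sq_nonneg (|c0| - 3)]
  have hfin2 : Real.exp (-(c0 ^ 2 / 2)) * (Real.exp |c0| * Real.exp |c0|) * √((M : ℝ) * K) ≤
      Real.exp (9 / 2) * √x := by
    have h1 : √((M : ℝ) * K) = √x * Real.exp (c0 / 2) := by
      rw [hMK, Real.sqrt_mul hx0.le]
      congr 1
      rw [Real.sqrt_eq_iff_mul_self_eq (Real.exp_pos _).le (Real.exp_pos _).le, ← Real.exp_add]
      congr 1
      ring
    rw [h1]
    have h2 : Real.exp (-(c0 ^ 2 / 2)) * (Real.exp |c0| * Real.exp |c0|) *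
        (√x * Real.exp (c0 / 2)) =
        Real.exp (-(c0 ^ 2 / 2) + (|c0| + |c0|) + c0 / 2) * √x := by
      rw [Real.exp_add, Real.exp_add, Real.exp_add]
      ring
    rw [h2]
    refine mul_le_mul_of_nonneg_right (Real.exp_le_exp.2 ?_) (Real.sqrt_nonneg _)
    rw [hsq]
    nlinarith [sq_nonneg (|c0| - 5 / 2)]
  have hR0 : (0 : ℝ) ≤ R := Nat.cast_nonneg R
  have hu0 : 0 < √(u : ℝ) := Real.sqrt_pos.2 (by exact_mod_cast hu)
  have hsM : √(u : ℝ) ≤ √(M : ℝ) := Real.sqrt_le_sqrt (by exact_mod_cast huM)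
  have hsK : √(u : ℝ) ≤ √(K : ℝ) := Real.sqrt_le_sqrt (by exact_mod_cast huK)
  have hTle : T ≤ M * K * (1 + 2 * R / √(u : ℝ)) + (R : ℝ) ^ 2 * √((M : ℝ) * K) := by
    have e1 : √(M : ℝ) * √(M : ℝ) = M := Real.mul_self_sqrt hM0.le
    have e2 : √(K : ℝ) * √(K : ℝ) = K := Real.mul_self_sqrt hK0.le
    have e3 : √((M : ℝ) * K) = √(M : ℝ) * √(K : ℝ) := Real.sqrt_mul hM0.le _
    have hM1 : 0 ≤ √(M : ℝ) := Real.sqrt_nonneg _
    have hK1 : 0 ≤ √(K : ℝ) := Real.sqrt_nonneg _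
    have e4 : (M : ℝ) * √(K : ℝ) ≤ M * K / √(u : ℝ) := by
      rw [le_div_iff₀ hu0, mul_assoc]
      refine mul_le_mul_of_nonneg_left ?_ hM0.le
      calc √(K : ℝ) * √(u : ℝ) ≤ √(K : ℝ) * √(K : ℝ) := mul_le_mul_of_nonneg_left hsK hK1
        _ = K := e2
    have e5 : (K : ℝ) * √(M : ℝ) ≤ M * K / √(u : ℝ) := by
      rw [le_div_iff₀ hu0, mul_assoc, mul_comm (M : ℝ)]
      refine mul_le_mul_of_nonneg_left ?_ hK0.le
      calc √(M : ℝ) * √(u : ℝ) ≤ √(M : ℝ) * √(M : ℝ) := mul_le_mul_of_nonneg_left hsM hM1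
        _ = M := e1
    have e6 : T = M * K + R * (M * √(K : ℝ) + K * √(M : ℝ)) + (R : ℝ) ^ 2 * √((M : ℝ) * K) := by
      rw [hT, e3]
      calc (√(M : ℝ) + R) * (√(K : ℝ) + R) * (√(M : ℝ) * √(K : ℝ)) =
          (√(M : ℝ) * √(M : ℝ)) * (√(K : ℝ) * √(K : ℝ)) +
            R * ((√(M : ℝ) * √(M : ℝ)) * √(K : ℝ) + (√(K : ℝ) * √(K : ℝ)) * √(M : ℝ)) +
            (R : ℝ) ^ 2 * (√(M : ℝ) * √(K : ℝ)) := by ring
        _ = _ := by rw [e1, e2]
    rw [e6]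
    have e7 : (R : ℝ) * (M * √(K : ℝ) + K * √(M : ℝ)) ≤ R * (M * K / √(u : ℝ) + M * K / √(u : ℝ)) :=
      mul_le_mul_of_nonneg_left (add_le_add e4 e5) hR0
    have e8 : (M : ℝ) * K * (1 + 2 * R / √(u : ℝ)) =
        M * K + R * (M * K / √(u : ℝ) + M * K / √(u : ℝ)) := by
      field_simp
      ring
    rw [e8]
    linarith
  set X : ℝ := x + 2 * R * x / √(u : ℝ) + (R : ℝ) ^ 2 * √x with hX
  have hfin : Real.exp (-(c0 ^ 2 / 2)) * (Real.exp |c0| * Real.exp |c0|) * T ≤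
      Real.exp (9 / 2) * X := by
    calc Real.exp (-(c0 ^ 2 / 2)) * (Real.exp |c0| * Real.exp |c0|) * T
        ≤ Real.exp (-(c0 ^ 2 / 2)) * (Real.exp |c0| * Real.exp |c0|) *
          (M * K * (1 + 2 * R / √(u : ℝ)) + (R : ℝ) ^ 2 * √((M : ℝ) * K)) :=
          mul_le_mul_of_nonneg_left hTle (by positivity)
      _ = (Real.exp (-(c0 ^ 2 / 2)) * (Real.exp |c0| * Real.exp |c0|) * (M * K)) *
          (1 + 2 * R / √(u : ℝ)) + (R : ℝ) ^ 2 *
          (Real.exp (-(c0 ^ 2 / 2)) * (Real.exp |c0| * Real.exp |c0|) * √((M : ℝ) * K)) := by ring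
      _ ≤ (Real.exp (9 / 2) * x) * (1 + 2 * R / √(u : ℝ)) + (R : ℝ) ^ 2 *
          (Real.exp (9 / 2) * √x) := by
          refine add_le_add (mul_le_mul_of_nonneg_right hfin1 (by positivity))
            (mul_le_mul_of_nonneg_left hfin2 (sq_nonneg _))
      _ = Real.exp (9 / 2) * X := by
          rw [hX]
          ring
  calc ∑ c ∈ PC R, ‖∑ m ∈ Ioc M (2 * M), ∑ k ∈ Ioc K (2 * K), a m * b k *
      c.2 ((m * k : ℕ) : ZMod (c.1.val + 1)) *
      (((Real.log ((m * k : ℕ) : ℝ)) ^ J * gw x (m * k) : ℝ) : ℂ)‖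
      ≤ ∑ c ∈ PC R, ∑ i ∈ range (J + 1), ((J.choose i : ℝ) * Real.exp (-(c0 ^ 2 / 2))) *
        ‖∑ m ∈ Ioc M (2 * M), ∑ k ∈ Ioc K (2 * K), fa i m * fb (J - i) k *
          c.2 ((m * k : ℕ) : ZMod (c.1.val + 1)) * ((Real.exp (-(U m * V k)) : ℝ) : ℂ)‖ :=
        sum_le_sum hsum
    _ = ∑ i ∈ range (J + 1), ((J.choose i : ℝ) * Real.exp (-(c0 ^ 2 / 2))) *
        ∑ c ∈ PC R, ‖∑ m ∈ Ioc M (2 * M), ∑ k ∈ Ioc K (2 * K), fa i m * fb (J - i) k *
          c.2 ((m * k : ℕ) : ZMod (c.1.val + 1)) * ((Real.exp (-(U m * V k)) : ℝ) : ℂ)‖ := by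
        rw [sum_comm]
        exact sum_congr rfl fun i _ => by rw [mul_sum]
    _ ≤ ∑ i ∈ range (J + 1), (J.choose i : ℝ) *
        ((Real.exp 1 * 16) * Real.exp (9 / 2) * A * B * L ^ J * X) := by
        refine sum_le_sum fun i hi => ?_
        have hiJ : i ≤ J := by
          rw [mem_range] at hi
          omega
        have h1 := bx_box0 R M K hMpos hKpos (fa i) (fb (J - i)) (A * (L ^ i * Real.exp |c0|))
          (B * (L ^ (J - i) * Real.exp |c0|)) (by positivity) (by positivity) (hfaB i)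
          (hfbB (J - i)) U V
          (fun m hm => by rw [abs_of_nonneg (hU m hm).1]; exact (hU m hm).2)
          (fun k hk => by rw [abs_of_nonneg (hV k hk).1]; exact (hV k hk).2)
        have h2 : L ^ i * L ^ (J - i) = L ^ J := by
          rw [← pow_add]
          congr 1
          omega
        calc (J.choose i : ℝ) * Real.exp (-(c0 ^ 2 / 2)) * _ ≤
            (J.choose i : ℝ) * Real.exp (-(c0 ^ 2 / 2)) *
            (Real.exp 1 * (16 * T * (A * (L ^ i * Real.exp |c0|)) *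
              (B * (L ^ (J - i) * Real.exp |c0|)))) :=
              mul_le_mul_of_nonneg_left h1 (by positivity)
          _ = (J.choose i : ℝ) * ((Real.exp 1 * 16) * A * B * (L ^ i * L ^ (J - i)) *
              (Real.exp (-(c0 ^ 2 / 2)) * (Real.exp |c0| * Real.exp |c0|) * T)) := by ring
          _ ≤ (J.choose i : ℝ) * ((Real.exp 1 * 16) * A * B * (L ^ i * L ^ (J - i)) *
              (Real.exp (9 / 2) * X)) := by gcongr
          _ = _ := by rw [h2]; ring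
    _ = 2 ^ J * (Real.exp 1 * 16) * Real.exp (9 / 2) * A * B * L ^ J * X := by
        rw [← sum_mul]
        have h1 : ∑ i ∈ range (J + 1), (J.choose i : ℝ) = 2 ^ J := by
          exact_mod_cast Nat.sum_range_choose J
        rw [h1]
        ring

end Pool.Agent.H21.BV
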