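import Pool.Agent.H21.BV.Als

/-!
[H21 BV FAR]  The large sieve for the fractions `a/r`, `r ≤ R`, `(a,r) = 1`.

Proofs.
* `fr_spaced`: `fr c = a/r` with `0 ≤ a < r`, `gcd(a,r) = 1` (`ZMod.val_coe_unit_coprime`).  If `c ≠ c'`
  then `a/r - a'/r' - n ≠ 0`: otherwise `a/r ≡ a'/r' (mod 1)`, both in `[0,1)`, so equal, and reduced
  fractions are unique (`a r' = a' r` gives `r ∣ a r'`, `r ∣ r'`, `r' ∣ r`).  So the difference is a
  nonzero integer divided by `r r' ≤ R^2`.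
* `far_ls`: `add_ls` with `δ = 1/R^2` (`R ≥ 1`; for `R = 0` the type `Fr 0` is empty), and
  `ZMod.stdAddChar (n * u) = ee (n * fr c)` (`ZMod.stdAddChar_coe`, `n * u = ((n * u.val : ℕ) : ZMod r)`).
-/

namespace Pool.Agent.H21.BV

open Finset

/-- index set of the reduced fractions with denominator `1..R` -/
abbrev Fr (R : ℕ) : Type := Σ r : Fin R, (ZMod (r.val + 1))ˣ

/-- the fraction -/
noncomputable def fr {R : ℕ} (c : Fr R) : ℝ :=
  (((c.2 : ZMod (c.1.val + 1)).val : ℕ) : ℝ) / ((c.1.val + 1 : ℕ) : ℝ)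

theorem fr_aux (q q' a a' : ℕ) (hq : 0 < q) (hq' : 0 < q') (ha : a.Coprime q) (ha' : a'.Coprime q')
    (hl : a < q) (hl' : a' < q') (n : ℤ)
    (h : (a : ℤ) * q' - a' * q - n * (q * q') = 0) : q = q' ∧ a = a' := by
  have h1 : (q : ℤ) ∣ (a : ℤ) * q' := ⟨a' + n * q', by linear_combination h⟩
  have h2 : (q' : ℤ) ∣ (a' : ℤ) * q := ⟨a - n * q, by linear_combination -h⟩
  have h3 : q ∣ a * q' := by exact_mod_cast h1
  have h4 : q' ∣ a' * q := by exact_mod_cast h2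
  have h5 : q ∣ q' := (Nat.Coprime.symm ha).dvd_of_dvd_mul_left h3
  have h6 : q' ∣ q := (Nat.Coprime.symm ha').dvd_of_dvd_mul_left h4
  have h7 : q = q' := Nat.dvd_antisymm h5 h6
  refine ⟨h7, ?_⟩
  subst h7
  have hq0 : (q : ℤ) ≠ 0 := by exact_mod_cast hq.ne'
  have h8 : (a : ℤ) - a' = n * q := by
    have : (q : ℤ) * ((a : ℤ) - a' - n * q) = 0 := by linear_combination h
    rcases mul_eq_zero.mp this with h | h
    · exact absurd h hq0
    · linarith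
  have h9 : n = 0 := by
    by_contra hn
    have h10 : 1 ≤ |n| := Int.one_le_abs hn
    have h11 : |(a : ℤ) - a'| < q := by
      rw [abs_lt]
      constructor <;> push_cast <;> omega
    rw [h8, abs_mul, abs_of_nonneg (by positivity : (0 : ℤ) ≤ q)] at h11
    nlinarith
  rw [h9] at h8
  omega

theorem fr_spaced {R : ℕ} (c c' : Fr R) (h : c ≠ c') (n : ℤ) :
    1 / (R : ℝ) ^ 2 ≤ |fr c - fr c' - n| := by
  obtain ⟨r, u⟩ := c
  obtain ⟨r', u'⟩ := c'
  unfold fr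
  dsimp only
  have hcop : (u : ZMod (r.val + 1)).val.Coprime (r.val + 1) := ZMod.val_coe_unit_coprime u
  have hcop' : (u' : ZMod (r'.val + 1)).val.Coprime (r'.val + 1) := ZMod.val_coe_unit_coprime u'
  have hlt : (u : ZMod (r.val + 1)).val < r.val + 1 := ZMod.val_lt _
  have hlt' : (u' : ZMod (r'.val + 1)).val < r'.val + 1 := ZMod.val_lt _
  set a := (u : ZMod (r.val + 1)).val with ha
  set a' := (u' : ZMod (r'.val + 1)).val with ha'
  have hqR : ((r.val + 1 : ℕ) : ℝ) ≤ R := by exact_mod_cast r.isLt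
  have hqR' : ((r'.val + 1 : ℕ) : ℝ) ≤ R := by exact_mod_cast r'.isLt
  have hq0 : (0 : ℝ) < ((r.val + 1 : ℕ) : ℝ) := by positivity
  have hq0' : (0 : ℝ) < ((r'.val + 1 : ℕ) : ℝ) := by positivity
  have hD : (a : ℤ) * ((r'.val + 1 : ℕ) : ℤ) - a' * ((r.val + 1 : ℕ) : ℤ) -
      n * (((r.val + 1 : ℕ) : ℤ) * ((r'.val + 1 : ℕ) : ℤ)) ≠ 0 := by
    intro h0
    obtain ⟨h1, h2⟩ := fr_aux _ _ a a' (Nat.succ_pos _) (Nat.succ_pos _) hcop hcop' hlt hlt' n h0
    apply h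
    have h3 : r = r' := Fin.ext (by omega)
    subst h3
    have h4 : u = u' := by
      apply Units.ext
      apply ZMod.val_injective
      exact h2
    rw [h4]
  set D : ℤ := (a : ℤ) * ((r'.val + 1 : ℕ) : ℤ) - a' * ((r.val + 1 : ℕ) : ℤ) -
      n * (((r.val + 1 : ℕ) : ℤ) * ((r'.val + 1 : ℕ) : ℤ)) with hDdef
  have h1 : (1 : ℝ) ≤ |(D : ℝ)| := by
    rw [← Int.cast_abs]
    exact_mod_cast Int.one_le_abs hD
  have h2 : (a : ℝ) / ((r.val + 1 : ℕ) : ℝ) - (a' : ℝ) / ((r'.val + 1 : ℕ) : ℝ) - n =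
      (D : ℝ) / (((r.val + 1 : ℕ) : ℝ) * ((r'.val + 1 : ℕ) : ℝ)) := by
    rw [hDdef]
    field_simp
    push_cast
    ring
  rw [h2, abs_div, abs_of_pos (mul_pos hq0 hq0')]
  have h3 : ((r.val + 1 : ℕ) : ℝ) * ((r'.val + 1 : ℕ) : ℝ) ≤ (R : ℝ) ^ 2 := by
    rw [sq]
    exact mul_le_mul hqR hqR' hq0'.le (hq0.le.trans hqR)
  exact div_le_div₀ (abs_nonneg _) h1 (mul_pos hq0 hq0') h3

theorem far_ls (R M N : ℕ) (a : ℕ → ℂ) :
    ∑ c : Fr R, ‖∑ n ∈ Ioc M (M + N), a n *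
      ZMod.stdAddChar ((n : ZMod (c.1.val + 1)) * (c.2 : ZMod (c.1.val + 1)))‖ ^ 2 ≤
      8 * (N + (R : ℝ) ^ 2 + 1) * ∑ n ∈ Ioc M (M + N), ‖a n‖ ^ 2 := by
  classical
  rcases Nat.eq_zero_or_pos R with hR | hR
  · subst hR
    have h1 : IsEmpty (Fr 0) := ⟨fun c => Fin.elim0 c.1⟩
    rw [Fintype.sum_empty]
    positivity
  · have hR' : (0 : ℝ) < (R : ℝ) ^ 2 := by positivity
    have h1 := add_ls (univ : Finset (Fr R)) fr (1 / (R : ℝ) ^ 2) (by positivity)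
      (fun i _ j _ hij n => fr_spaced i j hij n) M N a
    rw [one_div_one_div] at h1
    refine le_trans (le_of_eq ?_) h1
    refine sum_congr rfl ?_
    intro c _
    congr 2
    refine sum_congr rfl ?_
    intro n _
    congr 1
    have h2 : (n : ZMod (c.1.val + 1)) * (c.2 : ZMod (c.1.val + 1)) =
        (((n : ℤ) * (((c.2 : ZMod (c.1.val + 1)).val : ℕ) : ℤ) : ℤ) : ZMod (c.1.val + 1)) := by
      push_cast
      rw [ZMod.natCast_zmod_val]
    rw [h2, ZMod.stdAddChar_coe]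
    unfold ee fr
    congr 1
    push_cast
    ring

end Pool.Agent.H21.BV
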