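import Mathlib

/-!
[H21 BV GAU]  From primitive characters to additive characters (Gauss sums).

Proofs.  `ψ = ZMod.stdAddChar` (primitive).
* `gauss_norm`: for primitive `χ` mod `r`: `gaussSum χ (ψ.mulShift a) = χ⁻¹ a * gaussSum χ ψ` for all `a`
  (`gaussSum_mulShift_of_isPrimitive`).  Hence (Parseval)
  `∑_a ‖gaussSum χ (mulShift ψ a)‖^2 = ‖gaussSum χ ψ‖^2 φ(r)`, and the left side is
  `∑_a ∑_{u,v} χ(u) conj χ(v) ψ(a(u-v)) = r ∑_u ‖χ u‖^2 = r φ(r)` (orthogonality of `ψ`,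
  `AddChar.sum_mulShift`).  So `‖gaussSum χ ψ‖^2 = r`.
* `gau`: `T u = ∑_n b n ψ(n u)`.  For primitive `χ` (then `χ⁻¹` is primitive as well),
  `∑_{u : ZMod r} χ⁻¹ u * T u = ∑_n b n gaussSum χ⁻¹ (mulShift ψ n) = (∑_n b n χ n) gaussSum χ⁻¹ ψ`, so
  `r ‖∑_n b n χ n‖^2 = ‖∑_u χ⁻¹ u T u‖^2`.  Sum over all characters `χ` mod `r` (terms `≥ 0`):
  `∑_χ ‖∑_u χ⁻¹ u T u‖^2 = φ(r) ∑_{u unit} ‖T u‖^2` (expand, orthogonality
  `DirichletCharacter.sum_char_inv_mul_char_eq`).  `φ(r) ≤ r`.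
-/

namespace Pool.Agent.H21.BV

open Finset

open scoped ZMod in
theorem gauss_norm {r : ℕ} [NeZero r] (χ : DirichletCharacter ℂ r) (hχ : χ.IsPrimitive) :
    ‖gaussSum χ (ZMod.stdAddChar : AddChar (ZMod r) ℂ)‖ ^ 2 = r := by
  have hχ' : (χ⁻¹).IsPrimitive := by
    rw [DirichletCharacter.isPrimitive_def, DirichletCharacter.conductor_inv]
    exact hχ
  set G := gaussSum χ (ZMod.stdAddChar : AddChar (ZMod r) ℂ) with hG
  set G' := gaussSum χ⁻¹ (ZMod.stdAddChar : AddChar (ZMod r) ℂ) with hG'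
  have h1 : ZMod.dft (ZMod.dft (fun j => χ j)) (-1) = (r : ℂ) := by
    rw [ZMod.dft_dft]
    simp
  have h2 : ZMod.dft (fun j => χ j) = fun k => χ⁻¹ (-k) * G := by
    funext k
    exact hχ.fourierTransform_eq_inv_mul_gaussSum k
  have h3 : ZMod.dft (fun j => χ⁻¹ (-j)) (-1) = χ (-1) * G' := by
    rw [ZMod.dft_comp_neg (fun j => χ⁻¹ j)]
    have h4 := hχ'.fourierTransform_eq_inv_mul_gaussSum (-(-1))
    rw [inv_inv] at h4
    simpa using h4
  rw [h2, ZMod.dft_mul_const] at h1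
  have h1' : ZMod.dft (fun j => χ⁻¹ (-j)) (-1) * G = (r : ℂ) := h1
  rw [h3] at h1'
  have h5 : (starRingEnd ℂ) G = χ (-1) * G' := by
    have h6 := star_gaussSum_eq χ (ZMod.stdAddChar : AddChar (ZMod r) ℂ)
    rw [AddChar.inv_mulShift, gaussSum_mulShift_of_isPrimitive _ hχ', inv_inv] at h6
    exact h6
  have h7 : ((‖G‖ ^ 2 : ℝ) : ℂ) = ((r : ℝ) : ℂ) := by
    push_cast
    rw [← Complex.conj_mul', h5, h1']
  exact_mod_cast h7

theorem gau_char_unit {r : ℕ} [NeZero r] (χ : DirichletCharacter ℂ r) (u : (ZMod r)ˣ) :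
    χ⁻¹ (u : ZMod r) = χ ((u : ZMod r)⁻¹) := by
  rw [MulChar.inv_apply_eq_inv', ZMod.inv_coe_unit]
  have h : χ ((u⁻¹ : (ZMod r)ˣ) : ZMod r) * χ (u : ZMod r) = 1 := by
    rw [← map_mul, Units.inv_mul, map_one]
  exact (eq_inv_of_mul_eq_one_left h).symm

theorem gau_all {r : ℕ} [NeZero r] (T : ZMod r → ℂ) :
    ∑ χ : DirichletCharacter ℂ r, ‖∑ u : (ZMod r)ˣ, χ⁻¹ (u : ZMod r) * T u‖ ^ 2 =
      r.totient * ∑ u : (ZMod r)ˣ, ‖T u‖ ^ 2 := by
  have key : ((∑ χ : DirichletCharacter ℂ r,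
      ‖∑ u : (ZMod r)ˣ, χ⁻¹ (u : ZMod r) * T u‖ ^ 2 : ℝ) : ℂ) =
      ((r.totient * ∑ u : (ZMod r)ˣ, ‖T u‖ ^ 2 : ℝ) : ℂ) := by
    push_cast
    calc ∑ χ : DirichletCharacter ℂ r,
        ((‖∑ u : (ZMod r)ˣ, χ⁻¹ (u : ZMod r) * T u‖ : ℝ) : ℂ) ^ 2
        = ∑ χ : DirichletCharacter ℂ r, ∑ u : (ZMod r)ˣ, ∑ v : (ZMod r)ˣ,
            (T u * (starRingEnd ℂ) (T v)) * (χ ((u : ZMod r)⁻¹) * χ (v : ZMod r)) := by
          refine Finset.sum_congr rfl (fun χ _ => ?_)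
          rw [← Complex.mul_conj', map_sum, Finset.sum_mul_sum]
          refine Finset.sum_congr rfl (fun u _ => Finset.sum_congr rfl (fun v _ => ?_))
          have h1 : (starRingEnd ℂ) (χ⁻¹ (v : ZMod r)) = χ (v : ZMod r) := by
            have h2 := MulChar.star_apply' (χ⁻¹) (v : ZMod r)
            rw [inv_inv] at h2
            exact h2
          rw [map_mul, h1, gau_char_unit]
          ring
      _ = ∑ u : (ZMod r)ˣ, ∑ v : (ZMod r)ˣ,
            (T u * (starRingEnd ℂ) (T v)) *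
              ∑ χ : DirichletCharacter ℂ r, χ ((u : ZMod r)⁻¹) * χ (v : ZMod r) := by
          rw [Finset.sum_comm]
          refine Finset.sum_congr rfl (fun u _ => ?_)
          rw [Finset.sum_comm]
          refine Finset.sum_congr rfl (fun v _ => ?_)
          rw [Finset.mul_sum]
      _ = ∑ u : (ZMod r)ˣ, ((r.totient : ℂ) * ((‖T u‖ : ℝ) : ℂ) ^ 2) := by
          refine Finset.sum_congr rfl (fun u _ => ?_)
          rw [Finset.sum_eq_single u]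
          · rw [DirichletCharacter.sum_char_inv_mul_char_eq ℂ u.isUnit, if_pos rfl,
              Complex.mul_conj']
            ring
          · intro v _ hv
            rw [DirichletCharacter.sum_char_inv_mul_char_eq ℂ u.isUnit, if_neg, mul_zero]
            intro h
            exact hv (Units.ext h).symm
          · intro h
            exact absurd (mem_univ u) h
      _ = (r.totient : ℂ) * ∑ u : (ZMod r)ˣ, ((‖T u‖ : ℝ) : ℂ) ^ 2 := by
          rw [Finset.mul_sum]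
  exact_mod_cast key

theorem gau_one {r : ℕ} [NeZero r] (s : Finset ℕ) (b : ℕ → ℂ) (χ : DirichletCharacter ℂ r)
    (hχ : χ.IsPrimitive) :
    (r : ℝ) * ‖∑ n ∈ s, b n * χ (n : ZMod r)‖ ^ 2 =
      ‖∑ u : (ZMod r)ˣ, χ⁻¹ (u : ZMod r) *
        ∑ n ∈ s, b n * ZMod.stdAddChar ((n : ZMod r) * (u : ZMod r))‖ ^ 2 := by
  have hχ' : (χ⁻¹).IsPrimitive := by
    rw [DirichletCharacter.isPrimitive_def, DirichletCharacter.conductor_inv]
    exact hχ
  have h1 : ∑ u : (ZMod r)ˣ, χ⁻¹ (u : ZMod r) *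
        ∑ n ∈ s, b n * ZMod.stdAddChar ((n : ZMod r) * (u : ZMod r)) =
      ∑ u : ZMod r, χ⁻¹ u * ∑ n ∈ s, b n * ZMod.stdAddChar ((n : ZMod r) * u) := by
    refine Fintype.sum_of_injective (fun u : (ZMod r)ˣ => (u : ZMod r)) Units.val_injective _ _
      ?_ (fun _ => rfl)
    intro u hu
    rw [MulChar.map_nonunit, zero_mul]
    intro h
    exact hu ⟨h.unit, rfl⟩
  have h2 : ∑ u : ZMod r, χ⁻¹ u * ∑ n ∈ s, b n * ZMod.stdAddChar ((n : ZMod r) * u) =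
      (∑ n ∈ s, b n * χ (n : ZMod r)) * gaussSum χ⁻¹ (ZMod.stdAddChar : AddChar (ZMod r) ℂ) := by
    calc ∑ u : ZMod r, χ⁻¹ u * ∑ n ∈ s, b n * ZMod.stdAddChar ((n : ZMod r) * u)
        = ∑ n ∈ s, b n * gaussSum χ⁻¹
            ((ZMod.stdAddChar : AddChar (ZMod r) ℂ).mulShift (n : ZMod r)) := by
          simp only [Finset.mul_sum]
          rw [Finset.sum_comm]
          refine Finset.sum_congr rfl (fun n _ => ?_)
          unfold gaussSum
          rw [Finset.mul_sum]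
          refine Finset.sum_congr rfl (fun u _ => ?_)
          rw [AddChar.mulShift_apply]
          ring
      _ = _ := by
          rw [Finset.sum_mul]
          refine Finset.sum_congr rfl (fun n _ => ?_)
          rw [gaussSum_mulShift_of_isPrimitive _ hχ', inv_inv]
          ring
  rw [h1, h2, norm_mul, mul_pow, gauss_norm _ hχ']
  ring

open Classical in
theorem gau {r : ℕ} [NeZero r] (s : Finset ℕ) (b : ℕ → ℂ) :
    ∑ χ ∈ (univ : Finset (DirichletCharacter ℂ r)).filter (fun χ => χ.IsPrimitive),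
      ‖∑ n ∈ s, b n * χ (n : ZMod r)‖ ^ 2 ≤
    ∑ u : (ZMod r)ˣ, ‖∑ n ∈ s, b n * ZMod.stdAddChar ((n : ZMod r) * (u : ZMod r))‖ ^ 2 := by
  set T : ZMod r → ℂ := fun u => ∑ n ∈ s, b n * ZMod.stdAddChar ((n : ZMod r) * u) with hT
  have hr : (0 : ℝ) < r := by exact_mod_cast Nat.pos_of_ne_zero (NeZero.ne r)
  have hS : 0 ≤ ∑ u : (ZMod r)ˣ, ‖T u‖ ^ 2 := Finset.sum_nonneg (fun u _ => by positivity)
  have h1 : (r : ℝ) * ∑ χ ∈ (univ : Finset (DirichletCharacter ℂ r)).filter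
      (fun χ => χ.IsPrimitive), ‖∑ n ∈ s, b n * χ (n : ZMod r)‖ ^ 2 ≤
      (r : ℝ) * ∑ u : (ZMod r)ˣ, ‖T u‖ ^ 2 := by
    calc (r : ℝ) * ∑ χ ∈ (univ : Finset (DirichletCharacter ℂ r)).filter
          (fun χ => χ.IsPrimitive), ‖∑ n ∈ s, b n * χ (n : ZMod r)‖ ^ 2
        = ∑ χ ∈ (univ : Finset (DirichletCharacter ℂ r)).filter (fun χ => χ.IsPrimitive),
            ‖∑ u : (ZMod r)ˣ, χ⁻¹ (u : ZMod r) * T u‖ ^ 2 := by
          rw [Finset.mul_sum]
          refine Finset.sum_congr rfl (fun χ hχ => ?_)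
          exact gau_one s b χ (mem_filter.1 hχ).2
      _ ≤ ∑ χ : DirichletCharacter ℂ r, ‖∑ u : (ZMod r)ˣ, χ⁻¹ (u : ZMod r) * T u‖ ^ 2 :=
          Finset.sum_le_sum_of_subset_of_nonneg (Finset.filter_subset _ _)
            (fun χ _ _ => by positivity)
      _ = r.totient * ∑ u : (ZMod r)ˣ, ‖T u‖ ^ 2 := gau_all T
      _ ≤ (r : ℝ) * ∑ u : (ZMod r)ˣ, ‖T u‖ ^ 2 := by
          apply mul_le_mul_of_nonneg_right _ hS
          exact_mod_cast Nat.totient_le r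
  exact le_of_mul_le_mul_left h1 hr

end Pool.Agent.H21.BV
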