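import Pool.Agent.H21.BV.Far
import Pool.Agent.H21.BV.Gau
import Pool.Agent.H21.MT.Ch

/-!
[H21 BV MLS]  The multiplicative large sieve.

Proofs.
* `mls`: `PC R` consists of pairs `(r, χ)`, `χ` primitive; write the sum as a sum over `r : Fin R`
  (`Finset.sum_sigma`, `Fintype.sum_sigma`, terms `≥ 0`), apply `gau` (`NeZero (r+1)`) and `far_ls`.
* `bil`: for `N = M ≥ 1`: `∑_c ‖∑ a c‖^2 ≤ 8 (M + R^2 + 1) M A^2 ≤ 16 (√M + R)^2 M A^2`; the same for `b`;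
  Cauchy-Schwarz over `c` (compare the end of `Pool/Agent/H21/MT/Cls.lean`, `cls_bil`).
-/

namespace Pool.Agent.H21.BV

open Finset Pool.Agent.H21.MT

theorem mls (R M N : ℕ) (a : ℕ → ℂ) :
    ∑ c ∈ PC R, ‖∑ m ∈ Ioc M (M + N), a m * c.2 (m : ZMod (c.1.val + 1))‖ ^ 2 ≤
      8 * (N + (R : ℝ) ^ 2 + 1) * ∑ m ∈ Ioc M (M + N), ‖a m‖ ^ 2 := by
  classical
  have h1 : ∑ c ∈ PC R, ‖∑ m ∈ Ioc M (M + N), a m * c.2 (m : ZMod (c.1.val + 1))‖ ^ 2 ≤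
      ∑ c ∈ (univ : Finset (Ch R)).filter (fun c => c.2.IsPrimitive),
        ‖∑ m ∈ Ioc M (M + N), a m * c.2 (m : ZMod (c.1.val + 1))‖ ^ 2 := by
    refine Finset.sum_le_sum_of_subset_of_nonneg ?_ fun _ _ _ => sq_nonneg _
    intro c hc
    unfold PC at hc
    rw [Finset.mem_filter] at hc ⊢
    exact ⟨hc.1, hc.2.1⟩
  have h2 : ∑ c ∈ (univ : Finset (Ch R)).filter (fun c => c.2.IsPrimitive),
        ‖∑ m ∈ Ioc M (M + N), a m * c.2 (m : ZMod (c.1.val + 1))‖ ^ 2 =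
      ∑ r : Fin R, ∑ χ ∈ (univ : Finset (DirichletCharacter ℂ (r.val + 1))).filter
        (fun χ => χ.IsPrimitive),
        ‖∑ m ∈ Ioc M (M + N), a m * χ (m : ZMod (r.val + 1))‖ ^ 2 := by
    rw [Finset.sum_filter]
    have h3 : ∀ r : Fin R, ∑ χ ∈ (univ : Finset (DirichletCharacter ℂ (r.val + 1))).filter
        (fun χ => χ.IsPrimitive),
        ‖∑ m ∈ Ioc M (M + N), a m * χ (m : ZMod (r.val + 1))‖ ^ 2 =
        ∑ χ : DirichletCharacter ℂ (r.val + 1), if χ.IsPrimitive then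
          ‖∑ m ∈ Ioc M (M + N), a m * χ (m : ZMod (r.val + 1))‖ ^ 2 else 0 := fun r =>
      Finset.sum_filter _ _
    rw [Finset.sum_congr rfl fun r _ => h3 r]
    have h4 := Finset.sum_sigma (univ : Finset (Fin R))
      (fun r => (univ : Finset (DirichletCharacter ℂ (r.val + 1))))
      (fun c : Ch R => if c.2.IsPrimitive then
        ‖∑ m ∈ Ioc M (M + N), a m * c.2 (m : ZMod (c.1.val + 1))‖ ^ 2 else 0)
    rw [← h4]
    refine Finset.sum_congr ?_ fun _ _ => rfl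
    ext c
    simp
  have h5 : ∑ r : Fin R, ∑ χ ∈ (univ : Finset (DirichletCharacter ℂ (r.val + 1))).filter
        (fun χ => χ.IsPrimitive),
        ‖∑ m ∈ Ioc M (M + N), a m * χ (m : ZMod (r.val + 1))‖ ^ 2 ≤
      ∑ r : Fin R, ∑ u : (ZMod (r.val + 1))ˣ, ‖∑ n ∈ Ioc M (M + N), a n *
        ZMod.stdAddChar ((n : ZMod (r.val + 1)) * (u : ZMod (r.val + 1)))‖ ^ 2 := by
    refine Finset.sum_le_sum fun r _ => ?_
    have h6 := gau (r := r.val + 1) (Ioc M (M + N)) a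
    convert h6
  have h7 : ∑ r : Fin R, ∑ u : (ZMod (r.val + 1))ˣ, ‖∑ n ∈ Ioc M (M + N), a n *
        ZMod.stdAddChar ((n : ZMod (r.val + 1)) * (u : ZMod (r.val + 1)))‖ ^ 2 =
      ∑ c : Fr R, ‖∑ n ∈ Ioc M (M + N), a n *
      ZMod.stdAddChar ((n : ZMod (c.1.val + 1)) * (c.2 : ZMod (c.1.val + 1)))‖ ^ 2 := by
    rw [Fintype.sum_sigma]
  rw [h2] at h1
  rw [h7] at h5
  exact (h1.trans h5).trans (far_ls R M N a)

theorem bil (R M K : ℕ) (hM : 1 ≤ M) (hK : 1 ≤ K) (a b : ℕ → ℂ) (A B : ℝ)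
    (hA : ∀ m ∈ Ioc M (2 * M), ‖a m‖ ≤ A) (hB : ∀ k ∈ Ioc K (2 * K), ‖b k‖ ≤ B)
    (hA0 : 0 ≤ A) (hB0 : 0 ≤ B) :
    ∑ c ∈ PC R, ‖(∑ m ∈ Ioc M (2 * M), a m * c.2 (m : ZMod (c.1.val + 1))) *
      ∑ k ∈ Ioc K (2 * K), b k * c.2 (k : ZMod (c.1.val + 1))‖ ≤
      16 * ((√(M : ℝ) + R) * (√(K : ℝ) + R) * √((M : ℝ) * K)) * A * B := by
  have key : ∀ (M : ℕ) (_ : 1 ≤ M) (a : ℕ → ℂ) (A : ℝ)
      (_ : ∀ m ∈ Ioc M (2 * M), ‖a m‖ ≤ A) (_ : 0 ≤ A),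
      ∑ c ∈ PC R, ‖∑ m ∈ Ioc M (2 * M), a m * c.2 (m : ZMod (c.1.val + 1))‖ ^ 2 ≤
        16 * ((√(M : ℝ) + R) ^ 2 * (√(M : ℝ) * A) ^ 2) := by
    intro M hM a A hA hA0
    have h1 := mls R M M a
    rw [← two_mul] at h1
    refine h1.trans ?_
    have h2 : ∑ m ∈ Ioc M (2 * M), ‖a m‖ ^ 2 ≤ M * A ^ 2 := by
      calc ∑ m ∈ Ioc M (2 * M), ‖a m‖ ^ 2 ≤ ∑ m ∈ Ioc M (2 * M), A ^ 2 :=
            Finset.sum_le_sum fun m hm => pow_le_pow_left₀ (norm_nonneg _) (hA m hm) 2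
        _ = M * A ^ 2 := by
            rw [Finset.sum_const, Nat.card_Ioc, nsmul_eq_mul]
            congr 2
            omega
    have h3 : (1 : ℝ) ≤ M := by exact_mod_cast hM
    have h4 : √(M : ℝ) ^ 2 = M := Real.sq_sqrt (by positivity)
    have h5 : 0 ≤ √(M : ℝ) := Real.sqrt_nonneg _
    have h6 : (0 : ℝ) ≤ R := Nat.cast_nonneg R
    have h7 : (M : ℝ) + (R : ℝ) ^ 2 + 1 ≤ 2 * (√(M : ℝ) + R) ^ 2 := by
      have h8 : (√(M : ℝ) + R) ^ 2 = M + 2 * (√(M : ℝ) * R) + (R : ℝ) ^ 2 := by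
        rw [← h4]
        rw [Real.sqrt_sq h5]
        ring
      rw [h8]
      have h9 : 0 ≤ √(M : ℝ) * R := mul_nonneg h5 h6
      have h10 : (0 : ℝ) ≤ (R : ℝ) ^ 2 := sq_nonneg _
      linarith
    calc 8 * ((M : ℝ) + (R : ℝ) ^ 2 + 1) * ∑ m ∈ Ioc M (2 * M), ‖a m‖ ^ 2
        ≤ 8 * (2 * (√(M : ℝ) + R) ^ 2) * (M * A ^ 2) := by
          refine mul_le_mul (by linarith) h2 (Finset.sum_nonneg fun _ _ => sq_nonneg _)
            (by positivity)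
      _ = 16 * ((√(M : ℝ) + R) ^ 2 * (√(M : ℝ) * A) ^ 2) := by
          rw [mul_pow, h4]
          ring
  have h1 := key M hM a A hA hA0
  have h2 := key K hK b B hB hB0
  have hCS := Finset.sum_mul_sq_le_sq_mul_sq (PC R)
    (fun c => ‖∑ m ∈ Ioc M (2 * M), a m * c.2 (m : ZMod (c.1.val + 1))‖)
    (fun c => ‖∑ k ∈ Ioc K (2 * K), b k * c.2 (k : ZMod (c.1.val + 1))‖)
  have h3 : (∑ c ∈ PC R, ‖(∑ m ∈ Ioc M (2 * M), a m * c.2 (m : ZMod (c.1.val + 1))) *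
      ∑ k ∈ Ioc K (2 * K), b k * c.2 (k : ZMod (c.1.val + 1))‖) ^ 2 ≤
      (16 * ((√(M : ℝ) + R) * (√(K : ℝ) + R) * √((M : ℝ) * K)) * A * B) ^ 2 := by
    simp only [norm_mul]
    refine hCS.trans ?_
    have h4 : √((M : ℝ) * K) = √(M : ℝ) * √(K : ℝ) := Real.sqrt_mul (by positivity) _
    rw [h4]
    calc _ ≤ (16 * ((√(M : ℝ) + R) ^ 2 * (√(M : ℝ) * A) ^ 2)) *
          (16 * ((√(K : ℝ) + R) ^ 2 * (√(K : ℝ) * B) ^ 2)) :=
          mul_le_mul h1 h2 (Finset.sum_nonneg fun _ _ => sq_nonneg _) (by positivity)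
      _ = (16 * ((√(M : ℝ) + R) * (√(K : ℝ) + R) * (√(M : ℝ) * √(K : ℝ))) * A * B) ^ 2 := by ring
  exact (pow_le_pow_iff_left₀ (Finset.sum_nonneg fun _ _ => norm_nonneg _) (by positivity)
    two_ne_zero).1 h3

end Pool.Agent.H21.BV
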