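import Pool.Agent.H21.BV.Tb
import Pool.Agent.H21.MT.Prim

/-!
[H21 BV PR]  The sum over all primitive characters of conductor up to `x^(1/2 - 2η)`.

Proof.  Copy the proof of `prim_sum` in `Pool/Agent/H21/MT/Prim.lean` (`vF`, `Psi_eq`, `prim_t1`,
`prim_t23` there can be used; `prim_t1` is stated for `u ≤ x^(1/5)`, which holds here as `η ≤ 1/8`)
with `u = ⌊x^η⌋₊` and `type2b` instead of `type2`.  `R ≤ x^{1/2 - 2η}`, number of characters `≤ R^2`.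
First sum: `R^2 x^{1/5} L^{J+1} ≤ R x^{1/2 - 2η + 1/5} L^{J+1} ≤ R x^{1-η/2} L^{J+3}` (`L = log x`).
Second and third sums (`type1`): for each character `≤ C u^2 (1 + 2 log u) R L^{J+1} ≤ C' x^{2η} R L^{J+2}`,
for all characters `≤ C' R^3 x^{2η} L^{J+2} ≤ C' R x^{1 - 4η + 2η} L^{J+2} ≤ C' R x^{1-η/2} L^{J+3}`.
Fourth sum: `type2b` (`R ≤ x`), with `R^2 x^{1/2} ≤ R x^{1-2η} ≤ R x^{1-η/2}`.
-/

namespace Pool.Agent.H21.BV

open Finset Filter Pool.Agent.H21.MT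

theorem prim2 (J : ℕ) (η : ℝ) (hη : 0 < η) (hη1 : η ≤ 1 / 8) :
    ∃ C : ℝ, 0 < C ∧ ∀ᶠ x : ℝ in atTop, ∀ R : ℕ, (R : ℝ) ≤ x ^ (1 / 2 - 2 * η) →
    ∑ c ∈ PC R, ‖Psi J x c.2‖ ≤ C * (x + R * x ^ (1 - η / 2)) * (Real.log x) ^ (J + 3) := by
  obtain ⟨C1, hC1, h1⟩ := type1 J 1
  obtain ⟨C0, hC0, h0⟩ := type1 J 0
  obtain ⟨C2, hC2, h2⟩ := type2b J η hη (by linarith)
  refine ⟨1 + C1 + C0 + 2 * C2, by positivity, ?_⟩
  filter_upwards [h2, eventually_ge_atTop (3 : ℝ)] with x h2 hx R hR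
  have hx0 : 0 < x := by linarith
  have hx1 : 1 ≤ x := by linarith
  have hL1 : 1 ≤ Real.log x := by
    rw [← Real.log_exp 1]
    apply Real.log_le_log (Real.exp_pos 1)
    exact Real.exp_one_lt_three.le.trans hx
  have hL : 0 ≤ Real.log x := by linarith
  set u := ⌊x ^ η⌋₊ with hu
  have hpow : 1 ≤ x ^ η := Real.one_le_rpow hx1 hη.le
  have hu1 : 1 ≤ u := by
    rw [hu, Nat.one_le_floor_iff]
    exact hpow
  have huη : (u : ℝ) ≤ x ^ η := Nat.floor_le (by positivity)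
  have hux : (u : ℝ) ≤ x ^ (1 / 5 : ℝ) :=
    huη.trans (Real.rpow_le_rpow_of_exponent_le hx1 (by linarith))
  have hη2 : x ^ η * x ^ η = x ^ (2 * η) := by
    rw [← Real.rpow_add hx0]
    congr 1
    ring
  have hRx : (R : ℝ) ≤ x := by
    refine hR.trans ?_
    calc x ^ (1 / 2 - 2 * η) ≤ x ^ (1 : ℝ) :=
          Real.rpow_le_rpow_of_exponent_le hx1 (by linarith)
      _ = x := Real.rpow_one x
  obtain ⟨cc, b, hcc, hb, hV⟩ := vaughan u hu1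
  -- the bound for one character
  have hone : ∀ c ∈ PC R, ‖Psi J x c.2‖ ≤
      (x ^ (1 / 5 : ℝ) + x ^ (2 * η) * R * (C1 + C0)) * Real.log x ^ (J + 1) +
      ‖∑ m ∈ Ioc ⌊x ^ η⌋₊ ⌊x ^ 3⌋₊,
      ((ArithmeticFunction.moebius m : ℤ) : ℂ) *
        ∑ k ∈ Ioc ⌊x ^ η⌋₊ (⌊x ^ 3⌋₊ / m), ((b k : ℝ) : ℂ) *
        (c.2 ((m * k : ℕ) : ZMod (c.1.val + 1)) *
        (((Real.log ((m * k : ℕ) : ℝ)) ^ J * gw x (m * k) : ℝ) : ℂ))‖ := by
    intro c hc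
    have hq : ((c.1.val + 1 : ℕ) : ℝ) ≤ R := by
      exact_mod_cast c.1.2
    have hne := ch_ne_one c hc
    rw [Psi_eq, hV]
    have b1 := prim_t1 J u x hx hux c.2
    have b2 := prim_t23 J 1 u C1 x 1 zero_le_one (fun m hm q _ χ hχ => h1 x hx m hm q χ hχ) u
      (fun m => ((ArithmeticFunction.moebius m : ℤ) : ℂ)) (fun m _ => by
        have := ArithmeticFunction.abs_moebius_le_one (n := m)
        rw [Complex.norm_intCast]
        exact_mod_cast this) (c.1.val + 1) c.2 hne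
    have b3 := prim_t23 J 0 u C0 x (Real.log x) hL (fun m hm q _ χ hχ => h0 x hx m hm q χ hχ)
      (u * u) (fun m => ((cc m : ℝ) : ℂ)) (fun m hm => by
        rw [Complex.norm_real, Real.norm_eq_abs]
        refine (hcc m).trans ?_
        have hm1 : (1 : ℝ) ≤ m := by exact_mod_cast (mem_Icc.mp hm).1
        apply Real.log_le_log (by linarith)
        have hm2 : (m : ℝ) ≤ (u : ℝ) * u := by exact_mod_cast (mem_Icc.mp hm).2
        calc (m : ℝ) ≤ (u : ℝ) * u := hm2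
          _ ≤ x ^ (1 / 5 : ℝ) * x ^ (1 / 5 : ℝ) := by gcongr
          _ = x ^ (2 / 5 : ℝ) := by rw [← Real.rpow_add hx0]; norm_num
          _ ≤ x ^ (1 : ℝ) := Real.rpow_le_rpow_of_exponent_le hx1 (by norm_num)
          _ = x := Real.rpow_one x) (c.1.val + 1) c.2 hne
    simp only [pow_one] at b2
    simp only [pow_zero, Complex.ofReal_one, one_mul, add_zero] at b3
    have hu2 : (u : ℝ) ≤ x ^ (2 * η) :=
      huη.trans (Real.rpow_le_rpow_of_exponent_le hx1 (by linarith))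
    have k2 : (u : ℝ) * (1 * (C1 * ((c.1.val + 1 : ℕ) : ℝ) * Real.log x ^ (J + 1))) ≤
        x ^ (2 * η) * R * C1 * Real.log x ^ (J + 1) := by
      have : (u : ℝ) * ((c.1.val + 1 : ℕ) : ℝ) ≤ x ^ (2 * η) * R := by gcongr
      calc _ = ((u : ℝ) * ((c.1.val + 1 : ℕ) : ℝ)) * (Real.log x ^ (J + 1) * C1) := by ring
        _ ≤ (x ^ (2 * η) * R) * (Real.log x ^ (J + 1) * C1) := by gcongr
        _ = _ := by ring
    have k3 : ((u * u : ℕ) : ℝ) * (Real.log x * (C0 * ((c.1.val + 1 : ℕ) : ℝ) *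
        Real.log x ^ J)) ≤ x ^ (2 * η) * R * C0 * Real.log x ^ (J + 1) := by
      have : ((u * u : ℕ) : ℝ) * ((c.1.val + 1 : ℕ) : ℝ) ≤ x ^ (2 * η) * R := by
        rw [Nat.cast_mul]
        calc (u : ℝ) * u * ((c.1.val + 1 : ℕ) : ℝ) ≤ x ^ η * x ^ η * R := by gcongr
          _ = x ^ (2 * η) * R := by rw [hη2]
      calc _ = (((u * u : ℕ) : ℝ) * ((c.1.val + 1 : ℕ) : ℝ)) * (Real.log x ^ (J + 1) * C0) := by
            rw [pow_succ]; ring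
        _ ≤ (x ^ (2 * η) * R) * (Real.log x ^ (J + 1) * C0) := by gcongr
        _ = _ := by ring
    refine (norm_add_le _ _).trans ?_
    refine (add_le_add_left ((norm_sub_le _ _).trans
      (add_le_add_left (norm_add_le _ _) _)) _).trans ?_
    have b2' := b2.trans k2
    have b3' := b3.trans k3
    have hlast : ‖∑ m ∈ Ioc u ⌊x ^ 3⌋₊, ((ArithmeticFunction.moebius m : ℤ) : ℂ) *
        ∑ k ∈ Ioc u (⌊x ^ 3⌋₊ / m), ((b k : ℝ) : ℂ) * vF J x c.2 (m * k)‖ =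
        ‖∑ m ∈ Ioc ⌊x ^ η⌋₊ ⌊x ^ 3⌋₊,
      ((ArithmeticFunction.moebius m : ℤ) : ℂ) *
        ∑ k ∈ Ioc ⌊x ^ η⌋₊ (⌊x ^ 3⌋₊ / m), ((b k : ℝ) : ℂ) *
        (c.2 ((m * k : ℕ) : ZMod (c.1.val + 1)) *
        (((Real.log ((m * k : ℕ) : ℝ)) ^ J * gw x (m * k) : ℝ) : ℂ))‖ := rfl
    rw [hlast]
    linarith
  have hsum := h2 R hRx (fun m => ((ArithmeticFunction.moebius m : ℤ) : ℂ))
    (fun k => ((b k : ℝ) : ℂ)) (fun m => by
        have := ArithmeticFunction.abs_moebius_le_one (n := m)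
        rw [Complex.norm_intCast]
        exact_mod_cast this) (fun k => by
        rw [Complex.norm_real, Real.norm_eq_abs]
        exact hb k)
  have hR0 : (0 : ℝ) ≤ R := Nat.cast_nonneg R
  have hbase : x ^ (1 / 2 - 2 * η) * x ^ (1 / 2 - 2 * η) * x ^ (2 * η) ≤ x ^ (1 - η / 2) := by
    rw [← Real.rpow_add hx0, ← Real.rpow_add hx0]
    exact Real.rpow_le_rpow_of_exponent_le hx1 (by linarith)
  have hbase2 : x ^ (1 / 2 - 2 * η) * x ^ (1 / 5 : ℝ) ≤ x ^ (1 - η / 2) := by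
    rw [← Real.rpow_add hx0]
    exact Real.rpow_le_rpow_of_exponent_le hx1 (by linarith)
  have hbase3 : x ^ (1 / 2 - 2 * η) * x ^ (1 / 2 : ℝ) ≤ x ^ (1 - η / 2) := by
    rw [← Real.rpow_add hx0]
    exact Real.rpow_le_rpow_of_exponent_le hx1 (by linarith)
  have hmain : ((PC R).card : ℝ) * ((x ^ (1 / 5 : ℝ) + x ^ (2 * η) * R * (C1 + C0)) *
      Real.log x ^ (J + 1)) ≤
      (1 + C1 + C0) * (R * x ^ (1 - η / 2)) * Real.log x ^ (J + 3) := by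
    have e1 : (R : ℝ) ^ 2 * x ^ (1 / 5 : ℝ) ≤ R * x ^ (1 - η / 2) := by
      calc (R : ℝ) ^ 2 * x ^ (1 / 5 : ℝ) = R * (R * x ^ (1 / 5 : ℝ)) := by ring
        _ ≤ R * (x ^ (1 / 2 - 2 * η) * x ^ (1 / 5 : ℝ)) := by gcongr
        _ ≤ R * x ^ (1 - η / 2) := by gcongr
    have e3 : (R : ℝ) ^ 2 * (x ^ (2 * η) * R) ≤ R * x ^ (1 - η / 2) := by
      calc (R : ℝ) ^ 2 * (x ^ (2 * η) * R) = R * (R * R * x ^ (2 * η)) := by ring
        _ ≤ R * (x ^ (1 / 2 - 2 * η) * x ^ (1 / 2 - 2 * η) * x ^ (2 * η)) := by gcongr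
        _ ≤ R * x ^ (1 - η / 2) := by gcongr
    have e2 : Real.log x ^ (J + 1) ≤ Real.log x ^ (J + 3) := pow_le_pow_right₀ hL1 (by omega)
    calc _ ≤ (R : ℝ) ^ 2 * ((x ^ (1 / 5 : ℝ) + x ^ (2 * η) * R * (C1 + C0)) *
          Real.log x ^ (J + 1)) := by
          apply mul_le_mul_of_nonneg_right (card_PC R)
          positivity
      _ = ((R : ℝ) ^ 2 * x ^ (1 / 5 : ℝ) + (R : ℝ) ^ 2 * (x ^ (2 * η) * R) * (C1 + C0)) *
          Real.log x ^ (J + 1) := by ring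
      _ ≤ (R * x ^ (1 - η / 2) + R * x ^ (1 - η / 2) * (C1 + C0)) * Real.log x ^ (J + 3) := by
          gcongr
      _ = _ := by ring
  have hlast : C2 * (x + R * x ^ (1 - η / 2) + (R : ℝ) ^ 2 * x ^ (1 / 2 : ℝ)) *
      Real.log x ^ (J + 3) ≤ C2 * (x + 2 * (R * x ^ (1 - η / 2))) * Real.log x ^ (J + 3) := by
    have e1 : (R : ℝ) ^ 2 * x ^ (1 / 2 : ℝ) ≤ R * x ^ (1 - η / 2) := by
      calc (R : ℝ) ^ 2 * x ^ (1 / 2 : ℝ) = R * (R * x ^ (1 / 2 : ℝ)) := by ring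
        _ ≤ R * (x ^ (1 / 2 - 2 * η) * x ^ (1 / 2 : ℝ)) := by gcongr
        _ ≤ R * x ^ (1 - η / 2) := by gcongr
    apply mul_le_mul_of_nonneg_right _ (pow_nonneg hL _)
    apply mul_le_mul_of_nonneg_left _ hC2.le
    linarith
  have hR1 : 0 ≤ (R : ℝ) * x ^ (1 - η / 2) := by positivity
  calc ∑ c ∈ PC R, ‖Psi J x c.2‖ ≤ ∑ c ∈ PC R,
        ((x ^ (1 / 5 : ℝ) + x ^ (2 * η) * R * (C1 + C0)) * Real.log x ^ (J + 1) +
        ‖∑ m ∈ Ioc ⌊x ^ η⌋₊ ⌊x ^ 3⌋₊,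
      ((ArithmeticFunction.moebius m : ℤ) : ℂ) *
        ∑ k ∈ Ioc ⌊x ^ η⌋₊ (⌊x ^ 3⌋₊ / m), ((b k : ℝ) : ℂ) *
        (c.2 ((m * k : ℕ) : ZMod (c.1.val + 1)) *
        (((Real.log ((m * k : ℕ) : ℝ)) ^ J * gw x (m * k) : ℝ) : ℂ))‖) := sum_le_sum hone
    _ ≤ (1 + C1 + C0) * (R * x ^ (1 - η / 2)) * Real.log x ^ (J + 3) +
        C2 * (x + 2 * (R * x ^ (1 - η / 2))) * Real.log x ^ (J + 3) := by
        rw [sum_add_distrib, sum_const, nsmul_eq_mul]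
        exact add_le_add hmain (hsum.trans hlast)
    _ = ((1 + C1 + C0 + 2 * C2) * (R * x ^ (1 - η / 2)) + C2 * x) * Real.log x ^ (J + 3) := by
        ring
    _ ≤ (1 + C1 + C0 + 2 * C2) * (x + R * x ^ (1 - η / 2)) * Real.log x ^ (J + 3) := by
        apply mul_le_mul_of_nonneg_right _ (pow_nonneg hL _)
        nlinarith

end Pool.Agent.H21.BV
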