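import Pool.Agent.H21.BV.Bx
import Pool.Agent.H21.MT.Ty2

/-!
[H21 BV TB]  Type II sums with the large sieve.

Proof.  Copy the proof of `type2` in `Pool/Agent/H21/MT/Ty2.lean` (the lemmas `ty2_square`, `ty2_dyadic`,
`ty2_dyadic2`, `ty2_split` can be used directly) with `u = ⌊x^η⌋₊ ≥ 1` and `box2` instead of `box`.
`Y = ⌊x^3⌋₊`, `n` minimal with `u 2^n ≥ Y`, so `n ≤ 5 log x` (`x` large) and `u 2^n ≤ 2 Y`.  Each box:
`A = 1`, `B = log(2K) ≤ 10 log x`, `log(4MK) ≤ 20 log x`, and `√u ≥ x^{η/2}/2` (as `u ≥ x^η/2` for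
large `x`), so each box is `≤ C' (log x)^{J+1} (x + 4 R x^{1-η/2} + R^2 √x)`; there are `≤ 25 (log x)^2`
boxes.  The pairs in boxes with `m k > Y`: as in `type2`, terms `≤ (20 log x)^{J+1} exp(-(log x)^2/10)`
(`gw_tiny`), the number of pairs is `≤ 16 x^6`, the number of characters is `≤ R^2 ≤ x^2` (`card_PC`),
the total is `≤ 1` for large `x` (`exp_log_sq`).
-/

namespace Pool.Agent.H21.BV

open Finset Filter Pool.Agent.H21.MT

theorem type2b (J : ℕ) (η : ℝ) (hη : 0 < η) (hη1 : η ≤ 1 / 5) :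
    ∃ C : ℝ, 0 < C ∧ ∀ᶠ x : ℝ in atTop, ∀ R : ℕ, (R : ℝ) ≤ x →
    ∀ a b : ℕ → ℂ, (∀ m, ‖a m‖ ≤ 1) → (∀ k, ‖b k‖ ≤ Real.log k) →
    ∑ c ∈ PC R, ‖∑ m ∈ Ioc ⌊x ^ η⌋₊ ⌊x ^ 3⌋₊,
      a m * ∑ k ∈ Ioc ⌊x ^ η⌋₊ (⌊x ^ 3⌋₊ / m), b k *
        (c.2 ((m * k : ℕ) : ZMod (c.1.val + 1)) *
        (((Real.log ((m * k : ℕ) : ℝ)) ^ J * gw x (m * k) : ℝ) : ℂ))‖ ≤
    C * (x + R * x ^ (1 - η / 2) + (R : ℝ) ^ 2 * x ^ (1 / 2 : ℝ)) * (Real.log x) ^ (J + 3) := by
  obtain ⟨C, hC0, hbox⟩ := box2 J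
  refine ⟨C * 16 * 8 ^ J * 25 + 1, by positivity, ?_⟩
  have he4 : ∀ᶠ x : ℝ in atTop, 8 * Real.log x ≤ x := by
    have h := Real.isLittleO_log_id_atTop.def (c := 1 / 8) (by norm_num)
    filter_upwards [h, eventually_ge_atTop (1 : ℝ)] with x hx hx1
    have h1 : 0 ≤ Real.log x := Real.log_nonneg hx1
    rw [Real.norm_of_nonneg h1, id, Real.norm_of_nonneg (by linarith)] at hx
    linarith
  filter_upwards [he4, gw_tiny, exp_log_sq (J + 11), eventually_ge_atTop (Real.exp 2),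
    eventually_ge_atTop (4 : ℝ)] with x h8 htiny hexp hx2 hx4 R hR a b ha hb
  have hx0 : 0 < x := by linarith
  have hx1 : 1 ≤ x := by linarith
  obtain ⟨L, hL⟩ : ∃ L, L = Real.log x := ⟨_, rfl⟩
  have hL2 : 2 ≤ L := by
    rw [hL, Real.le_log_iff_exp_le hx0]
    exact hx2
  obtain ⟨Y, hYdef⟩ : ∃ Y, Y = ⌊x ^ 3⌋₊ := ⟨_, rfl⟩
  obtain ⟨u, hudef⟩ : ∃ u, u = ⌊x ^ η⌋₊ := ⟨_, rfl⟩
  have hx5 : (1 : ℝ) ≤ x ^ η := Real.one_le_rpow hx1 hη.le
  have hu1 : 1 ≤ u := by
    rw [hudef]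
    exact Nat.le_floor (by simpa using hx5)
  have hule : (u : ℝ) ≤ x ^ (1 / 5 : ℝ) := by
    rw [hudef]
    exact (Nat.floor_le (by linarith)).trans (Real.rpow_le_rpow_of_exponent_le hx1 hη1)
  have hult : x ^ η < (u : ℝ) + 1 := by
    rw [hudef]
    exact Nat.lt_floor_add_one _
  have hu1' : (1 : ℝ) ≤ u := by exact_mod_cast hu1
  have hsq : x ^ (η / 2) ≤ 2 * √(u : ℝ) := by
    have h1 : x ^ (η / 2) = √(x ^ η) := by
      rw [Real.sqrt_eq_rpow, ← Real.rpow_mul hx0.le]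
      congr 1
      ring
    rw [h1, show (2 : ℝ) * √(u : ℝ) = √(4 * u) by
      rw [Real.sqrt_mul (by norm_num), show (4 : ℝ) = 2 ^ 2 by norm_num,
        Real.sqrt_sq (by norm_num)]]
    exact Real.sqrt_le_sqrt (by linarith)
  obtain ⟨W, hW⟩ : ∃ W, W = x + R * x ^ (1 - η / 2) + (R : ℝ) ^ 2 * x ^ (1 / 2 : ℝ) := ⟨_, rfl⟩
  have hWx : x ≤ W := by
    rw [hW]
    have h1 : 0 ≤ (R : ℝ) * x ^ (1 - η / 2) := by positivity
    have h2 : 0 ≤ (R : ℝ) ^ 2 * x ^ (1 / 2 : ℝ) := by positivity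
    linarith
  have hWbox : x + 2 * R * x / √(u : ℝ) + (R : ℝ) ^ 2 * √x ≤ 4 * W := by
    have hs0 : 0 < √(u : ℝ) := Real.sqrt_pos.2 (by linarith)
    have h1 : 2 * R * x / √(u : ℝ) ≤ 4 * (R * x ^ (1 - η / 2)) := by
      rw [div_le_iff₀ hs0]
      have h2 : x = x ^ (1 - η / 2) * x ^ (η / 2) := by
        rw [← Real.rpow_add hx0]
        norm_num
      calc 2 * R * x = 2 * R * (x ^ (1 - η / 2) * x ^ (η / 2)) := by rw [← h2]
        _ ≤ 2 * R * (x ^ (1 - η / 2) * (2 * √(u : ℝ))) := by gcongr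
        _ = 4 * (R * x ^ (1 - η / 2)) * √(u : ℝ) := by ring
    rw [hW, Real.sqrt_eq_rpow x]
    have h3 : 0 ≤ (R : ℝ) ^ 2 * x ^ (1 / 2 : ℝ) := by positivity
    linarith
  have hYle : (Y : ℝ) ≤ x ^ 3 := by
    rw [hYdef]
    exact Nat.floor_le (by positivity)
  have hYlt : x ^ 3 < (Y : ℝ) + 1 := by
    rw [hYdef]
    exact Nat.lt_floor_add_one _
  have hY1 : 1 ≤ Y := by
    rw [hYdef]
    exact Nat.le_floor (by simpa using one_le_pow₀ hx1)
  have hcard : ((PC R).card : ℝ) ≤ x ^ 2 :=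
    (card_PC R).trans (pow_le_pow_left₀ (Nat.cast_nonneg R) hR 2)
  obtain ⟨n, hn⟩ : ∃ n, n = Nat.log 2 Y + 1 := ⟨_, rfl⟩
  have hYn : Y ≤ u * 2 ^ n := by
    have h1 : Y < 2 ^ n := by
      rw [hn]
      exact Nat.lt_pow_succ_log_self (by norm_num) Y
    calc Y ≤ 1 * 2 ^ n := by rw [one_mul]; exact h1.le
      _ ≤ u * 2 ^ n := Nat.mul_le_mul_right _ hu1
  have hpowlog : ((2 : ℝ) ^ Nat.log 2 Y) ≤ Y := by
    have := Nat.pow_log_le_self 2 (x := Y) (by omega)
    exact_mod_cast this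
  have hn5 : (n : ℝ) ≤ 5 * L := by
    have h1 : (Nat.log 2 Y : ℝ) * Real.log 2 ≤ 3 * L := by
      have h2 := Real.log_le_log (by positivity) (hpowlog.trans hYle)
      rw [Real.log_pow, Real.log_pow, ← hL] at h2
      exact_mod_cast h2
    have h3 : (0.69 : ℝ) ≤ Real.log 2 := by
      have := Real.log_two_gt_d9
      linarith
    have h4 : (Nat.log 2 Y : ℝ) * 0.69 ≤ 3 * L :=
      (mul_le_mul_of_nonneg_left h3 (Nat.cast_nonneg _)).trans h1
    rw [hn]
    push_cast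
    nlinarith
  have hbig : ((u * 2 ^ n : ℕ) : ℝ) ≤ x ^ 4 := by
    have h1 : 2 * (x ^ (1 / 5 : ℝ)) ≤ x := by
      have h2 : x ^ (1 / 5 : ℝ) ≤ x ^ (1 / 2 : ℝ) :=
        Real.rpow_le_rpow_of_exponent_le hx1 (by norm_num)
      rw [← Real.sqrt_eq_rpow] at h2
      have h3 : 2 ≤ Real.sqrt x := by
        rw [show (2 : ℝ) = Real.sqrt 4 by
          rw [show (4 : ℝ) = 2 ^ 2 by norm_num, Real.sqrt_sq (by norm_num)]]
        exact Real.sqrt_le_sqrt hx4
      have h4 : Real.sqrt x * Real.sqrt x = x := Real.mul_self_sqrt hx0.le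
      nlinarith [Real.sqrt_nonneg x]
    push_cast
    rw [hn, pow_succ]
    calc (u : ℝ) * (2 ^ Nat.log 2 Y * 2) = (2 * u) * 2 ^ Nat.log 2 Y := by ring
      _ ≤ (2 * x ^ (1 / 5 : ℝ)) * x ^ 3 := by
        refine mul_le_mul (by linarith) (hpowlog.trans hYle) (by positivity) (by positivity)
      _ ≤ x * x ^ 3 := mul_le_mul_of_nonneg_right h1 (by positivity)
      _ = x ^ 4 := by ring
  -- bounds in the square
  have hlogk : ∀ k : ℕ, k ≤ u * 2 ^ n → Real.log k ≤ 4 * L := by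
    intro k hk
    rcases Nat.eq_zero_or_pos k with h0 | h0
    · rw [h0]
      simp only [Nat.cast_zero, Real.log_zero]
      linarith
    · have h1 : (k : ℝ) ≤ x ^ 4 := le_trans (by exact_mod_cast hk) hbig
      have h2 := Real.log_le_log (by exact_mod_cast h0) h1
      rw [Real.log_pow, ← hL] at h2
      exact_mod_cast h2
  rw [← hL, ← hYdef, ← hudef, ← hW]
  -- rewrite the sums
  have hT : ∀ c : Ch R, ∑ m ∈ Ioc u Y, a m * ∑ k ∈ Ioc u (Y / m), b k *
        (c.2 ((m * k : ℕ) : ZMod (c.1.val + 1)) *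
        (((Real.log ((m * k : ℕ) : ℝ)) ^ J * gw x (m * k) : ℝ) : ℂ)) =
      ∑ m ∈ Ioc u Y, ∑ k ∈ Ioc u (Y / m), a m * b k *
        c.2 ((m * k : ℕ) : ZMod (c.1.val + 1)) *
        (((Real.log ((m * k : ℕ) : ℝ)) ^ J * gw x (m * k) : ℝ) : ℂ) := by
    intro c
    refine Finset.sum_congr rfl fun m _ => ?_
    rw [Finset.mul_sum]
    refine Finset.sum_congr rfl fun k _ => ?_
    ring
  calc ∑ c ∈ PC R, ‖∑ m ∈ Ioc u Y, a m * ∑ k ∈ Ioc u (Y / m), b k *
        (c.2 ((m * k : ℕ) : ZMod (c.1.val + 1)) *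
        (((Real.log ((m * k : ℕ) : ℝ)) ^ J * gw x (m * k) : ℝ) : ℂ))‖
      ≤ ∑ c ∈ PC R, ((∑ i ∈ range n, ∑ j ∈ range n, ‖∑ m ∈ Ioc (u * 2 ^ i) (2 * (u * 2 ^ i)),
          ∑ k ∈ Ioc (u * 2 ^ j) (2 * (u * 2 ^ j)), a m * b k *
          c.2 ((m * k : ℕ) : ZMod (c.1.val + 1)) *
          (((Real.log ((m * k : ℕ) : ℝ)) ^ J * gw x (m * k) : ℝ) : ℂ)‖) +
          ∑ m ∈ Ioc u (u * 2 ^ n), ∑ k ∈ Ioc u (u * 2 ^ n), if Y < m * k then
            ‖a m * b k * c.2 ((m * k : ℕ) : ZMod (c.1.val + 1)) *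
            (((Real.log ((m * k : ℕ) : ℝ)) ^ J * gw x (m * k) : ℝ) : ℂ)‖ else 0) := by
        refine Finset.sum_le_sum fun c _ => ?_
        rw [hT c]
        exact ty2_split _ u Y n hYn
    _ = (∑ i ∈ range n, ∑ j ∈ range n, ∑ c ∈ PC R,
          ‖∑ m ∈ Ioc (u * 2 ^ i) (2 * (u * 2 ^ i)),
          ∑ k ∈ Ioc (u * 2 ^ j) (2 * (u * 2 ^ j)), a m * b k *
          c.2 ((m * k : ℕ) : ZMod (c.1.val + 1)) *
          (((Real.log ((m * k : ℕ) : ℝ)) ^ J * gw x (m * k) : ℝ) : ℂ)‖) +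
          ∑ c ∈ PC R, ∑ m ∈ Ioc u (u * 2 ^ n), ∑ k ∈ Ioc u (u * 2 ^ n), (if Y < m * k then
            ‖a m * b k * c.2 ((m * k : ℕ) : ZMod (c.1.val + 1)) *
            (((Real.log ((m * k : ℕ) : ℝ)) ^ J * gw x (m * k) : ℝ) : ℂ)‖ else 0) := by
        rw [Finset.sum_add_distrib]
        congr 1
        rw [Finset.sum_comm]
        refine Finset.sum_congr rfl fun i _ => ?_
        rw [Finset.sum_comm]
    _ ≤ (∑ i ∈ range n, ∑ j ∈ range n, C * 1 * (4 * L) * (8 * L) ^ J * (4 * W)) +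
          ∑ c ∈ PC R, ∑ m ∈ Ioc u (u * 2 ^ n), ∑ k ∈ Ioc u (u * 2 ^ n),
            (8 * L) ^ (J + 1) * Real.exp (-L ^ 2 / 10) := by
        refine add_le_add (Finset.sum_le_sum fun i hi => Finset.sum_le_sum fun j hj => ?_)
          (Finset.sum_le_sum fun c _ => Finset.sum_le_sum fun m hm =>
            Finset.sum_le_sum fun k hk => ?_)
        · rw [Finset.mem_range] at hi hj
          have hMu : 2 * (u * 2 ^ i) ≤ u * 2 ^ n := by
            calc 2 * (u * 2 ^ i) = u * 2 ^ (i + 1) := by ring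
              _ ≤ u * 2 ^ n := Nat.mul_le_mul_left u (Nat.pow_le_pow_right (by norm_num) hi)
          have hKu : 2 * (u * 2 ^ j) ≤ u * 2 ^ n := by
            calc 2 * (u * 2 ^ j) = u * 2 ^ (j + 1) := by ring
              _ ≤ u * 2 ^ n := Nat.mul_le_mul_left u (Nat.pow_le_pow_right (by norm_num) hj)
          have hb1 := hbox x hx1 R (u * 2 ^ i) (u * 2 ^ j) u hu1
            (Nat.le_mul_of_pos_right u (by positivity))
            (Nat.le_mul_of_pos_right u (by positivity)) a b 1 (4 * L)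
            zero_le_one (by linarith) (fun m _ => ha m) (fun k hk =>
              (hb k).trans (hlogk k ((Finset.mem_Ioc.1 hk).2.trans hKu)))
          refine hb1.trans ?_
          have hlog : Real.log (4 * ((u * 2 ^ i : ℕ) : ℝ) * ((u * 2 ^ j : ℕ) : ℝ)) ≤ 8 * L := by
            have h1 : 4 * ((u * 2 ^ i : ℕ) : ℝ) * ((u * 2 ^ j : ℕ) : ℝ) ≤ x ^ 8 := by
              have h2 : ((2 * (u * 2 ^ i) : ℕ) : ℝ) ≤ x ^ 4 :=
                le_trans (by exact_mod_cast hMu) hbig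
              have h3 : ((2 * (u * 2 ^ j) : ℕ) : ℝ) ≤ x ^ 4 :=
                le_trans (by exact_mod_cast hKu) hbig
              calc 4 * ((u * 2 ^ i : ℕ) : ℝ) * ((u * 2 ^ j : ℕ) : ℝ)
                  = ((2 * (u * 2 ^ i) : ℕ) : ℝ) * ((2 * (u * 2 ^ j) : ℕ) : ℝ) := by
                    push_cast; ring
                _ ≤ x ^ 4 * x ^ 4 := mul_le_mul h2 h3 (Nat.cast_nonneg _) (by positivity)
                _ = x ^ 8 := by ring
            have h4 : 0 < 4 * ((u * 2 ^ i : ℕ) : ℝ) * ((u * 2 ^ j : ℕ) : ℝ) := by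
              have : (0 : ℝ) < u := by exact_mod_cast hu1
              push_cast
              positivity
            have h5 := Real.log_le_log h4 h1
            rw [Real.log_pow, ← hL] at h5
            exact_mod_cast h5
          have hlog0 : 0 ≤ Real.log (4 * ((u * 2 ^ i : ℕ) : ℝ) * ((u * 2 ^ j : ℕ) : ℝ)) := by
            apply Real.log_nonneg
            have h6 : 1 ≤ u * 2 ^ i := Nat.one_le_iff_ne_zero.2 (by positivity)
            have h7 : 1 ≤ u * 2 ^ j := Nat.one_le_iff_ne_zero.2 (by positivity)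
            have h6' : (1 : ℝ) ≤ ((u * 2 ^ i : ℕ) : ℝ) := by exact_mod_cast h6
            have h7' : (1 : ℝ) ≤ ((u * 2 ^ j : ℕ) : ℝ) := by exact_mod_cast h7
            exact one_le_mul_of_one_le_of_one_le (by linarith only [h6']) h7'
          have hL0 : 0 ≤ L := by linarith
          refine mul_le_mul ?_ hWbox (by positivity) (by positivity)
          refine mul_le_mul_of_nonneg_left (pow_le_pow_left₀ hlog0 hlog J) ?_
          positivity
        · rw [Finset.mem_Ioc] at hm hk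
          have hm0 : 0 < m := lt_of_le_of_lt (Nat.zero_le _) hm.1
          have hk0 : 0 < k := lt_of_le_of_lt (Nat.zero_le _) hk.1
          have hE : 0 ≤ (8 * L) ^ (J + 1) * Real.exp (-L ^ 2 / 10) := by
            have : 0 ≤ L := by linarith
            positivity
          by_cases h : Y < m * k
          · rw [if_pos h]
            have hp : 1 ≤ m * k := Nat.mul_pos hm0 hk0
            have h1 : gw x (m * k) ≤ Real.exp (-L ^ 2 / 10) := by
              rw [hL]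
              refine htiny (m * k) hp (Or.inr ?_)
              have h2 : (Y : ℝ) + 1 ≤ ((m * k : ℕ) : ℝ) := by exact_mod_cast h
              have h3 : x ^ 2 ≤ x ^ 3 := pow_le_pow_right₀ hx1 (by norm_num)
              linarith
            have h4 : Real.log ((m * k : ℕ) : ℝ) ≤ 8 * L := by
              rw [Nat.cast_mul, Real.log_mul (by positivity) (by positivity)]
              have := hlogk m hm.2
              have := hlogk k hk.2
              linarith
            have h5 : 0 ≤ Real.log ((m * k : ℕ) : ℝ) := Real.log_natCast_nonneg _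
            have h6 : ‖c.2 ((m * k : ℕ) : ZMod (c.1.val + 1))‖ ≤ 1 :=
              DirichletCharacter.norm_le_one _ _
            rw [norm_mul, norm_mul, norm_mul, Complex.norm_real,
              Real.norm_of_nonneg (mul_nonneg (pow_nonneg h5 J) (gw_pos _ _).le)]
            calc ‖a m‖ * ‖b k‖ * ‖c.2 ((m * k : ℕ) : ZMod (c.1.val + 1))‖ *
                (Real.log ((m * k : ℕ) : ℝ) ^ J * gw x (m * k))
                ≤ 1 * (8 * L) * 1 * ((8 * L) ^ J * Real.exp (-L ^ 2 / 10)) := by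
                  have hbk : ‖b k‖ ≤ 8 * L := (hb k).trans ((hlogk k hk.2).trans (by linarith))
                  have hL0 : 0 ≤ 8 * L := by linarith
                  exact mul_le_mul (mul_le_mul (mul_le_mul (ha m) hbk (norm_nonneg _) zero_le_one)
                    h6 (norm_nonneg _) (by positivity)) (mul_le_mul (pow_le_pow_left₀ h5 h4 J) h1
                    (gw_pos _ _).le (by positivity)) (mul_nonneg (pow_nonneg h5 J) (gw_pos _ _).le)
                    (by positivity)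
              _ = (8 * L) ^ (J + 1) * Real.exp (-L ^ 2 / 10) := by ring
          · rw [if_neg h]
            exact hE
    _ ≤ C * 16 * 8 ^ J * 25 * (W * L ^ (J + 3)) + 1 := by
        refine add_le_add ?_ ?_
        · rw [Finset.sum_const, Finset.sum_const, Finset.card_range, nsmul_eq_mul, nsmul_eq_mul]
          have hL0 : 0 ≤ L := by linarith
          have hW0 : 0 ≤ W := by linarith
          calc (n : ℝ) * ((n : ℝ) * (C * 1 * (4 * L) * (8 * L) ^ J * (4 * W)))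
              ≤ (5 * L) * ((5 * L) * (C * 1 * (4 * L) * (8 * L) ^ J * (4 * W))) := by
                gcongr
            _ = C * 16 * 8 ^ J * 25 * (W * L ^ (J + 3)) := by
                rw [mul_pow]
                ring
        · rw [Finset.sum_const, Finset.sum_const, Finset.sum_const, Nat.card_Ioc,
            nsmul_eq_mul, nsmul_eq_mul, nsmul_eq_mul]
          have h1 : ((u * 2 ^ n - u : ℕ) : ℝ) ≤ x ^ 4 :=
            le_trans (by exact_mod_cast Nat.sub_le _ _) hbig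
          have hL0 : 0 ≤ L := by linarith
          have h8' : 8 * L ≤ x := by rw [hL]; exact h8
          calc ((PC R).card : ℝ) * (((u * 2 ^ n - u : ℕ) : ℝ) * (((u * 2 ^ n - u : ℕ) : ℝ) *
              ((8 * L) ^ (J + 1) * Real.exp (-L ^ 2 / 10))))
              ≤ x ^ 2 * (x ^ 4 * (x ^ 4 * (x ^ (J + 1) * Real.exp (-L ^ 2 / 10)))) := by
                gcongr
            _ = x ^ (J + 11) * Real.exp (-(Real.log x) ^ 2 / 10) := by
                rw [hL]
                ring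
            _ ≤ 1 := hexp
    _ ≤ (C * 16 * 8 ^ J * 25 + 1) * W * L ^ (J + 3) := by
        have h1 : 1 ≤ W * L ^ (J + 3) := by
          have h2 : 1 ≤ L ^ (J + 3) := one_le_pow₀ (by linarith)
          exact one_le_mul_of_one_le_of_one_le (hx1.trans hWx) h2
        have h3 : (C * 16 * 8 ^ J * 25 + 1) * W * L ^ (J + 3) =
          C * 16 * 8 ^ J * 25 * (W * L ^ (J + 3)) + W * L ^ (J + 3) := by ring
        rw [h3]
        linarith

end Pool.Agent.H21.BV
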