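import Pool.Agent.H21.BV.Pr
import Pool.Agent.H21.MT.Wsum

/-!
[H21 BV WS]  The sum over primitive characters with the weight `1/φ(r)`, `r ≤ x^(1/2 - 2η)`.

Proofs.
* `ws_partial2`: `1/m = 1/Q + ∑_{n=m}^{Q-1} 1/(n(n+1))` for `m ≤ Q`, so with `S(n) = ∑_{m c ≤ n} a c`
  `∑ a c/m c = S(Q)/Q + ∑_{n=R0}^{Q-1} S(n)/(n(n+1)) ≤ G1 (1/Q + 1/R0 - 1/Q) + G2 (1 + ∑_{n=R0}^{Q-1} 1/(n+1))
  ≤ G1/R0 + G2 (2 + log Q)` (compare `ws_partial` in `Pool/Agent/H21/MT/Wsum.lean`; if `R0 > Q` the set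
  `S` is empty).
* `wsum2`: copy the proof of `wsum` in `Pool/Agent/H21/MT/Wsum.lean`: `L = log x`, `B = A + 8`,
  `J = A + B + 3`, `ε = 1/B`.  (i) `r ≤ L^B`: `sw_fin J ε` as there (`ws_small`): `≤ (1/2) x L^{J-A}`.
  (ii) `L^B < r ≤ Q = ⌊x^(1/2-2η)⌋₊`: `1/φ(r) ≤ (1 + 2 log r)/r ≤ 3L/r` (`inv_phi_le`),
  `G(n) = ∑_{c ∈ PC Q, md ≤ n} ‖Psi‖ ≤ C L^{J+3} (x + n x^{1-η/2})` (`ws_restrict`, `prim2` with `R = n`), so by
  `ws_partial2` the part is `≤ 3L * C L^{J+3} (x/R0 + x^{1-η/2} (2 + log Q))`, `R0 > L^B`, and this is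
  `≤ 3 C x L^{J+4-B} + 9 C x^{1-η/2} L^{J+5} ≤ (1/2) x L^{J-A}` for large `x`.
-/

namespace Pool.Agent.H21.BV

open Finset Filter Pool.Agent.H21.MT

theorem ws_partial2 {ι : Type*} (S : Finset ι) (a : ι → ℝ) (m : ι → ℕ) (ha : ∀ c ∈ S, 0 ≤ a c)
    (R0 Q : ℕ) (hR : 1 ≤ R0) (hm : ∀ c ∈ S, R0 ≤ m c ∧ m c ≤ Q) (G1 G2 : ℝ) (hG1 : 0 ≤ G1)
    (hG2 : 0 ≤ G2) (hG : ∀ n ≤ Q, ∑ c ∈ S.filter (fun c => m c ≤ n), a c ≤ G1 + G2 * n) :
    ∑ c ∈ S, a c / m c ≤ G1 / R0 + G2 * (2 + Real.log Q) := by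
  have hlQ : 0 ≤ Real.log (Q : ℝ) := Real.log_natCast_nonneg Q
  rcases Nat.lt_or_ge Q R0 with h | h
  · have : S = ∅ := by
      apply Finset.eq_empty_of_forall_notMem
      intro c hc
      have := hm c hc
      omega
    rw [this, Finset.sum_empty]
    positivity
  have hQ0 : (0 : ℝ) < Q := by exact_mod_cast (by omega : 0 < Q)
  have h1 : ∀ c ∈ S, a c / m c = a c / Q + ∑ n ∈ Ico R0 Q,
      (1 / (n : ℝ) - 1 / ((n : ℝ) + 1)) * (if m c ≤ n then a c else 0) := by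
    intro c hc
    obtain ⟨h2, h3⟩ := hm c hc
    have h4 : ∑ n ∈ Ico R0 Q, (1 / (n : ℝ) - 1 / ((n : ℝ) + 1)) * (if m c ≤ n then a c else 0) =
        ∑ n ∈ Ico (m c) Q, (1 / (n : ℝ) - 1 / ((n : ℝ) + 1)) * a c := by
      have h5 : Ico (m c) Q = (Ico R0 Q).filter (fun n => m c ≤ n) := by
        ext n
        simp only [Finset.mem_Ico, Finset.mem_filter]
        omega
      rw [h5, Finset.sum_filter]
      apply Finset.sum_congr rfl
      intro n _
      split_ifs <;> simp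
    rw [h4, ← Finset.sum_mul, ws_tele (m c) Q h3]
    ring
  rw [Finset.sum_congr rfl h1, Finset.sum_add_distrib, Finset.sum_comm]
  have h6 : ∑ c ∈ S, a c / (Q : ℝ) ≤ G1 / Q + G2 := by
    rw [← Finset.sum_div]
    have := hG Q le_rfl
    have h7 : S.filter (fun c => m c ≤ Q) = S := by
      apply Finset.filter_true_of_mem
      intro c hc
      exact (hm c hc).2
    rw [h7] at this
    rw [div_add' _ _ _ hQ0.ne', div_le_div_iff_of_pos_right hQ0]
    exact this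
  have h8 : ∑ n ∈ Ico R0 Q, ∑ c ∈ S, (1 / (n : ℝ) - 1 / ((n : ℝ) + 1)) *
      (if m c ≤ n then a c else 0) ≤
      ∑ n ∈ Ico R0 Q, ((1 / (n : ℝ) - 1 / ((n : ℝ) + 1)) * G1 + G2 * (1 / ((n : ℝ) + 1))) := by
    apply Finset.sum_le_sum
    intro n hn
    rw [Finset.mem_Ico] at hn
    rw [← Finset.mul_sum, ← Finset.sum_filter]
    have hn1 : (1 : ℝ) ≤ n := by exact_mod_cast (by omega : 1 ≤ n)
    have hn2 : 0 ≤ 1 / (n : ℝ) - 1 / ((n : ℝ) + 1) := by
      rw [sub_nonneg]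
      apply one_div_le_one_div_of_le (by linarith)
      linarith
    refine (mul_le_mul_of_nonneg_left (hG n hn.2.le) hn2).trans (le_of_eq ?_)
    have hn3 : (n : ℝ) ≠ 0 := by positivity
    have hn4 : (n : ℝ) + 1 ≠ 0 := by positivity
    field_simp
    ring
  rw [Finset.sum_add_distrib, ← Finset.sum_mul, ws_tele R0 Q h, ← Finset.mul_sum] at h8
  have h10 : ∑ n ∈ Ico R0 Q, 1 / ((n : ℝ) + 1) ≤ 1 + Real.log Q := by
    have h11 : ∑ n ∈ Ico R0 Q, 1 / ((n : ℝ) + 1) ≤ ∑ n ∈ range Q, 1 / ((n : ℝ) + 1) := by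
      apply Finset.sum_le_sum_of_subset_of_nonneg
      · intro n hn
        rw [Finset.mem_Ico] at hn
        rw [Finset.mem_range]
        exact hn.2
      · intro n _ _
        positivity
    have h12 : ∑ n ∈ range Q, 1 / ((n : ℝ) + 1) = ((harmonic Q : ℚ) : ℝ) := by
      unfold harmonic
      push_cast
      apply Finset.sum_congr rfl
      intro n _
      rw [one_div]
    rw [h12] at h11
    exact h11.trans (harmonic_le_one_add_log Q)
  have h9 : G1 / (Q : ℝ) + (1 / (R0 : ℝ) - 1 / (Q : ℝ)) * G1 = G1 / R0 := by ring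
  have h13 := mul_le_mul_of_nonneg_left h10 hG2
  calc _ ≤ (G1 / Q + G2) + ((1 / (R0 : ℝ) - 1 / (Q : ℝ)) * G1 +
        G2 * ∑ n ∈ Ico R0 Q, 1 / ((n : ℝ) + 1)) := add_le_add h6 h8
    _ ≤ (G1 / Q + G2) + ((1 / (R0 : ℝ) - 1 / (Q : ℝ)) * G1 + G2 * (1 + Real.log Q)) := by
        linarith
    _ = G1 / R0 + G2 * (2 + Real.log Q) := by rw [← h9]; ring

theorem wsum2 (η : ℝ) (hη : 0 < η) (hη1 : η ≤ 1 / 8) (A : ℕ) : ∃ J : ℕ, ∀ᶠ x : ℝ in atTop,
    ∑ c ∈ PC ⌊x ^ (1 / 2 - 2 * η)⌋₊, (1 / (c.md.totient : ℝ)) * ‖Psi J x c.2‖ ≤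
      x * (Real.log x) ^ J / (Real.log x) ^ A := by
  obtain ⟨B, hB⟩ : ∃ B : ℕ, B = A + 8 := ⟨_, rfl⟩
  obtain ⟨J, hJ⟩ : ∃ J : ℕ, J = A + B + 3 := ⟨_, rfl⟩
  have hBpos : (0 : ℝ) < (B : ℝ)⁻¹ := by
    have : 0 < B := by omega
    positivity
  obtain ⟨C1, hC1, h1⟩ := sw_fin J (B : ℝ)⁻¹ hBpos
  obtain ⟨C2, hC2, h2⟩ := prim2 J η hη hη1
  refine ⟨J, ?_⟩
  have hlog : ∀ᶠ x : ℝ in atTop, 1 + 2 * C1 + 12 * C2 ≤ Real.log x :=
    Real.tendsto_log_atTop.eventually_ge_atTop _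
  have hlo := isLittleO_log_rpow_rpow_atTop (s := (η / 2 : ℝ)) ((J + 5 : ℕ) : ℝ) (by positivity)
  have hb := hlo.bound (c := 1) one_pos
  filter_upwards [h1, h2, hlog, eventually_ge_atTop 1, hb] with x h1 h2 hL hx1 hb
  obtain ⟨L, hLdef⟩ : ∃ L, L = Real.log x := ⟨_, rfl⟩
  obtain ⟨Q, hQ⟩ : ∃ Q, Q = ⌊x ^ (1 / 2 - 2 * η)⌋₊ := ⟨_, rfl⟩
  obtain ⟨K, hK⟩ : ∃ K, K = ⌊L ^ B⌋₊ := ⟨_, rfl⟩
  rw [← hLdef] at hL hb ⊢
  rw [← hLdef] at h2
  rw [← hQ]
  have hL1 : 1 ≤ L := by linarith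
  have hL0 : 0 < L := by linarith
  have hx0 : 0 < x := by linarith
  have hQx : (Q : ℝ) ≤ x ^ (1 / 2 - 2 * η) := by
    rw [hQ]
    exact Nat.floor_le (by positivity)
  have hKL : (K : ℝ) ≤ L ^ B := by
    rw [hK]
    exact Nat.floor_le (by positivity)
  have hKL' : L ^ B ≤ ((K + 1 : ℕ) : ℝ) := by
    rw [hK]
    push_cast
    exact (Nat.lt_floor_add_one _).le
  have hPC : ∀ c ∈ PC Q, c.2.IsPrimitive ∧ 2 ≤ c.md := by
    intro c hc
    exact ws_mem_PC c hc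
  have hmdQ : ∀ c : Ch Q, c.md ≤ Q := by
    intro c
    have := c.1.isLt
    unfold Ch.md
    omega
  have hQx1 : (Q : ℝ) ≤ x := by
    have h7 : x ^ (1 / 2 - 2 * η) ≤ x := by
      calc x ^ (1 / 2 - 2 * η) ≤ x ^ (1 : ℝ) :=
            Real.rpow_le_rpow_of_exponent_le hx1 (by linarith)
        _ = x := Real.rpow_one x
    linarith
  rw [← Finset.sum_filter_add_sum_filter_not (PC Q) (fun c => c.md ≤ K)]
  -- part (i)
  have hi : ∑ c ∈ (PC Q).filter (fun c => c.md ≤ K), (1 / (c.md.totient : ℝ)) * ‖Psi J x c.2‖ ≤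
      L ^ B * (C1 * x * L) := by
    calc ∑ c ∈ (PC Q).filter (fun c => c.md ≤ K), (1 / (c.md.totient : ℝ)) * ‖Psi J x c.2‖
        ≤ ∑ c ∈ (PC Q).filter (fun c => c.md ≤ K), (1 / (c.md.totient : ℝ)) * (C1 * x * L) := by
          apply Finset.sum_le_sum
          intro c hc
          rw [Finset.mem_filter] at hc
          obtain ⟨hc1, hc2⟩ := hPC c hc.1
          apply mul_le_mul_of_nonneg_left _ (by positivity)
          have h3 := h1 (c.1.val + 1) c.2 hc1 (by unfold Ch.md at hc2; omega)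
          apply h3.trans
          apply mul_le_mul_of_nonneg_left _ (by positivity)
          have h4 : (((c.1.val + 1 : ℕ)) : ℝ) ≤ L ^ B := by
            refine le_trans ?_ hKL
            exact_mod_cast hc.2
          calc (((c.1.val + 1 : ℕ)) : ℝ) ^ ((B : ℝ)⁻¹) ≤ (L ^ B) ^ ((B : ℝ)⁻¹) :=
                Real.rpow_le_rpow (by positivity) h4 hBpos.le
            _ = L := Real.pow_rpow_inv_natCast hL0.le (by omega)
      _ = (∑ c ∈ (PC Q).filter (fun c => c.md ≤ K), (1 / (c.md.totient : ℝ))) *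
          (C1 * x * L) := by rw [Finset.sum_mul]
      _ ≤ K * (C1 * x * L) := by
          apply mul_le_mul_of_nonneg_right (ws_small Q K) (by positivity)
      _ ≤ L ^ B * (C1 * x * L) := by
          apply mul_le_mul_of_nonneg_right hKL (by positivity)
  -- part (ii)
  have hlQ : Real.log (Q : ℝ) ≤ L := by
    rcases Nat.eq_zero_or_pos Q with h0 | h0
    · rw [h0, Nat.cast_zero, Real.log_zero]
      exact hL0.le
    · rw [hLdef]
      exact Real.log_le_log (by exact_mod_cast h0) hQx1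
  have hii : ∑ c ∈ (PC Q).filter (fun c => ¬ c.md ≤ K),
      (1 / (c.md.totient : ℝ)) * ‖Psi J x c.2‖ ≤
      3 * L * ((C2 * x * L ^ (J + 3)) / ((K + 1 : ℕ) : ℝ) +
        (C2 * x ^ (1 - η / 2) * L ^ (J + 3)) * (2 + Real.log Q)) := by
    calc ∑ c ∈ (PC Q).filter (fun c => ¬ c.md ≤ K), (1 / (c.md.totient : ℝ)) * ‖Psi J x c.2‖
        ≤ ∑ c ∈ (PC Q).filter (fun c => ¬ c.md ≤ K), 3 * L * (‖Psi J x c.2‖ / c.md) := by
          apply Finset.sum_le_sum
          intro c hc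
          rw [Finset.mem_filter] at hc
          obtain ⟨hc1, hc2⟩ := hPC c hc.1
          have hmd0 : (0 : ℝ) < c.md := by
            have : 0 < c.md := by omega
            exact_mod_cast this
          have h3 := inv_phi_le c.md (by omega)
          have h4 : Real.log c.md ≤ L := by
            have h5 : (c.md : ℝ) ≤ x := by
              have h6 : (c.md : ℝ) ≤ Q := by exact_mod_cast hmdQ c
              linarith
            rw [hLdef]
            exact Real.log_le_log hmd0 h5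
          have h8 : (1 + 2 * Real.log c.md) / (c.md : ℝ) ≤ 3 * L / c.md := by
            gcongr
            linarith
          calc (1 / (c.md.totient : ℝ)) * ‖Psi J x c.2‖ ≤ (3 * L / c.md) * ‖Psi J x c.2‖ := by
                apply mul_le_mul_of_nonneg_right (h3.trans h8) (norm_nonneg _)
            _ = 3 * L * (‖Psi J x c.2‖ / c.md) := by ring
      _ = 3 * L * ∑ c ∈ (PC Q).filter (fun c => ¬ c.md ≤ K), ‖Psi J x c.2‖ / c.md := by
          rw [Finset.mul_sum]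
      _ ≤ _ := by
          apply mul_le_mul_of_nonneg_left _ (by positivity)
          apply ws_partial2 _ (fun c : Ch Q => ‖Psi J x c.2‖) (fun c => c.md)
            (fun c _ => norm_nonneg _) (K + 1) Q (by omega) _ _ _ (by positivity) (by positivity)
          · intro n hn
            have h9 := ws_restrict hn (fun q χ => ‖Psi J x χ‖) (fun q χ => norm_nonneg _)
            have h10 : (n : ℝ) ≤ x ^ (1 / 2 - 2 * η) := by
              have : (n : ℝ) ≤ Q := by exact_mod_cast hn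
              linarith
            have h11 := h2 n h10
            have h12 : C2 * (x + n * x ^ (1 - η / 2)) * L ^ (J + 3) =
                C2 * x * L ^ (J + 3) + C2 * x ^ (1 - η / 2) * L ^ (J + 3) * n := by ring
            rw [h12] at h11
            refine le_trans ?_ (h9.trans h11)
            apply Finset.sum_le_sum_of_subset_of_nonneg
            · intro c hc
              rw [Finset.mem_filter, Finset.mem_filter] at hc
              rw [Finset.mem_filter]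
              exact ⟨hc.1.1, hc.2⟩
            · intro c _ _
              exact norm_nonneg _
          · intro c hc
            rw [Finset.mem_filter] at hc
            exact ⟨by omega, hmdQ c⟩
  have hii' : 3 * L * ((C2 * x * L ^ (J + 3)) / ((K + 1 : ℕ) : ℝ)) ≤
      3 * C2 * x * L ^ (A + 7) := by
    have h3 : (C2 * x * L ^ (J + 3)) / ((K + 1 : ℕ) : ℝ) ≤ (C2 * x * L ^ (J + 3)) / L ^ B := by
      apply div_le_div_of_nonneg_left (by positivity) (by positivity) hKL'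
    have h4 : (C2 * x * L ^ (J + 3)) / L ^ B = C2 * x * L ^ (A + 6) := by
      have : J + 3 = (A + 6) + B := by omega
      rw [this, pow_add]
      field_simp
    rw [h4] at h3
    calc 3 * L * ((C2 * x * L ^ (J + 3)) / ((K + 1 : ℕ) : ℝ)) ≤ 3 * L * (C2 * x * L ^ (A + 6)) := by
          apply mul_le_mul_of_nonneg_left h3 (by positivity)
      _ = 3 * C2 * x * L ^ (A + 7) := by ring
  have hii'' : 3 * L * ((C2 * x ^ (1 - η / 2) * L ^ (J + 3)) * (2 + Real.log Q)) ≤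
      9 * C2 * x := by
    rw [Real.norm_of_nonneg (by positivity), Real.norm_of_nonneg (by positivity), one_mul,
      Real.rpow_natCast] at hb
    have h3 : 2 + Real.log (Q : ℝ) ≤ 3 * L := by linarith
    have h4 : 0 ≤ C2 * x ^ (1 - η / 2) * L ^ (J + 3) := by positivity
    calc 3 * L * ((C2 * x ^ (1 - η / 2) * L ^ (J + 3)) * (2 + Real.log Q))
        ≤ 3 * L * ((C2 * x ^ (1 - η / 2) * L ^ (J + 3)) * (3 * L)) := by gcongr
      _ = 9 * C2 * (x ^ (1 - η / 2) * L ^ (J + 5)) := by ring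
      _ ≤ 9 * C2 * (x ^ (1 - η / 2) * x ^ (η / 2)) := by gcongr
      _ = 9 * C2 * x := by
          rw [← Real.rpow_add hx0]
          have : 1 - η / 2 + η / 2 = 1 := by ring
          rw [this, Real.rpow_one]
  have hfin : x * L ^ J / L ^ A = x * L ^ (A + 11) := by
    have : J = (A + 11) + A := by omega
    rw [this, pow_add]
    field_simp
  rw [hfin]
  have e1 : L ^ B * (C1 * x * L) = (x * L ^ (A + 9)) * C1 := by
    rw [hB]; ring
  have e2 : 3 * C2 * x * L ^ (A + 7) ≤ (x * L ^ (A + 9)) * (3 * C2) := by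
    have h3 : L ^ (A + 7) ≤ L ^ (A + 9) := pow_le_pow_right₀ hL1 (by omega)
    calc 3 * C2 * x * L ^ (A + 7) ≤ 3 * C2 * x * L ^ (A + 9) := by gcongr
      _ = _ := by ring
  have e5 : 9 * C2 * x ≤ (x * L ^ (A + 9)) * (9 * C2) := by
    have h3 : 1 ≤ L ^ (A + 9) := one_le_pow₀ hL1
    calc 9 * C2 * x = 9 * C2 * x * 1 := by ring
      _ ≤ 9 * C2 * x * L ^ (A + 9) := by gcongr
      _ = _ := by ring
  have e3 : x * L ^ (A + 11) = (x * L ^ (A + 9)) * (L ^ 2) := by ring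
  have e4 : C1 + 12 * C2 ≤ L ^ 2 := by nlinarith
  rw [mul_add] at hii
  calc _ ≤ L ^ B * (C1 * x * L) + (3 * C2 * x * L ^ (A + 7) + 9 * C2 * x) :=
        add_le_add hi (hii.trans (add_le_add hii' hii''))
    _ ≤ (x * L ^ (A + 9)) * (C1 + 12 * C2) := by
        rw [e1]
        linarith
    _ ≤ (x * L ^ (A + 9)) * (L ^ 2) := mul_le_mul_of_nonneg_left e4 (by positivity)
    _ = x * L ^ (A + 11) := e3.symm

end Pool.Agent.H21.BV
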